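import Pool.Agent.Helper60.BP.St

set_option autoImplicit false

namespace Pool.Agent.Helper60.BP

open MeasureTheory Finset Pool.Agent.Helper87.BP Pool.Agent.Helper42.BPX

open Classical

lemma phi_mono_AC {τ τ' h : ℝ} (h0 : 0 ≤ τ) (h1 : τ ≤ τ') (h2 : τ' < 1) (hh : |h| ≤ 1) :
    phi τ h ≤ phi τ' h := by
  rw [abs_le] at hh
  have e1 : 0 < 1 + τ * h := by nlinarith
  have e2 : 0 < 1 + τ' * h := by nlinarith
  unfold phi
  rw [div_le_div_iff₀ e1 e2]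
  have h3 : 0 ≤ (τ' - τ) * ((1 - h) * (1 + h)) :=
    mul_nonneg (by linarith) (mul_nonneg (by linarith) (by linarith))
  nlinarith

lemma htl_mono_AC {n : ℕ} (A : Finset (Sym2 (Fin n))) {h0 : Fin n → Fin n → ℝ}
    (hh : ∀ k i, |h0 k i| ≤ 1) {τ τ' : ℝ} (h1 : 0 ≤ τ) (h2 : τ ≤ τ') (h3 : τ' < 1) :
    ∀ k i, Adj A k i → htl A τ h0 k i ≤ htl A τ' h0 k i := by
  intro k i hki
  unfold htl
  rw [if_pos hki, if_pos hki]
  exact phi_mono_AC h1 h2 h3 (hh k i)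

lemma DL_anti_AC {n : ℕ} {f : ℝ → ℝ} {A : Finset (Sym2 (Fin n))} {h0 h0' : Fin n → Fin n → ℝ}
    {g g' : ℝ} (hg : g' ≤ g) {E : Finset (Fin n)} {s : ℕ} (h : DL f A h0 h0' g E s) :
    DL f A h0 h0' g' E s := fun k hk i hi => hg.trans (h k hk i hi)

theorem st_AC (hg : StGrow) (hl : StLev) (hc : StCh) : StAC := by
  intro f d θ K Rc r j2 Δ ζ hrj hΔ hζ hζ' hF hP
  set L := Real.artanh θ with hL
  set κ : ℝ := θ / Real.cosh (2 * d * L / ζ + 1) ^ 2 with hκ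
  have hθ := hF.θpos
  have hdp : 0 < d := lt_of_lt_of_le (by norm_num) hP.dbig
  have hcp : ∀ x : ℝ, 0 < Real.cosh x := Real.cosh_pos
  have hκ0 : 0 < κ := by
    rw [hκ]; have := hcp (2 * d * L / ζ + 1); positivity
  have hκ1 : κ ≤ 1 := by
    rw [hκ, div_le_one (by have := hcp (2 * d * L / ζ + 1); positivity)]
    have h1 := Real.one_le_cosh (2 * d * L / ζ + 1)
    have h2 := hF.θle
    nlinarith
  have hc0 : 0 < cD0 d θ L := by
    unfold cD0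
    have h1 := hcp (32 * d * L + L)
    have h2 := hcp 1
    positivity
  have hlam : 0 < lam d θ Rc := by
    unfold lam
    have h1 := hcp (Rc + 1)
    positivity
  have hτ0 : 0 < θ / Real.cosh (L * Δ) ^ 2 := by
    have := hcp (L * Δ); positivity
  refine ⟨(θ / Real.cosh (L * Δ) ^ 2) ^ r * (κ ^ j2 * cD0 d θ L), by positivity, ?_⟩
  intro n A σ vt h0 τ τ' t hctx hE hh0 hHS h1 h2 h3 ht hu hu'
  set S := t - j2 with hS
  obtain ⟨E, hE1, hE2⟩ := hg n A σ f d θ K Rc vt h0 τ τ' S hctx hh0 hHS h1 h2 h3 hu hu' S le_rfl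
  set g0 : ℝ := cD0 d θ L * (τ' - τ) * lam d θ Rc ^ S with hg0
  have hg0n : 0 ≤ g0 := by
    rw [hg0]
    have : 0 ≤ τ' - τ := by linarith
    positivity
  have hmono := htl_mono_AC A hh0 h1 h2 h3
  have hlev : ∀ q : ℕ, q ≤ r → ∃ E' : Finset (Fin n),
      (E'.card : ℝ) ≤ (3 * ζ + 1 / 10 ^ (j2 - 1 - r)) * n ∧
      DL f A (htl A τ h0) (htl A τ' h0) (κ ^ j2 * g0) (ZZ A d ∪ E') (t - q) := by
    intro q hq
    obtain ⟨E', hE'1, hE'2⟩ := hl n A σ f d θ K Rc vt (htl A τ h0) (htl A τ' h0) g0 ζ E (S + 1)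
      hctx hE hmono hg0n hζ hζ' hE1 hE2 (j2 - 1 - q) (by omega)
    refine ⟨E', hE'1.trans ?_, ?_⟩
    · apply mul_le_mul_of_nonneg_right _ (Nat.cast_nonneg _)
      have h4 : (1 : ℝ) / 10 ^ (j2 - 1 - q) ≤ 1 / 10 ^ (j2 - 1 - r) :=
        one_div_le_one_div_of_le (by positivity)
          (pow_le_pow_right₀ (by norm_num) (by omega))
      linarith
    · have h5 : S + 1 + (j2 - 1 - q) = t - q := by omega
      rw [h5] at hE'2
      refine DL_anti_AC ?_ hE'2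
      exact mul_le_mul_of_nonneg_right (pow_le_pow_of_le_one hκ0.le hκ1 (by omega)) hg0n
  choose! X hX1 hX2 using hlev
  set m : ℕ := ⌊(3 * ζ + 1 / 10 ^ (j2 - 1 - r)) * (n : ℝ)⌋₊ with hm
  have hb0 : (0 : ℝ) ≤ (3 * ζ + 1 / 10 ^ (j2 - 1 - r)) * (n : ℝ) := by positivity
  have h6 := hc n A f θ L (htl A τ h0) (htl A τ' h0) (κ ^ j2 * g0) r t Δ m (ZZ A d) X hF hmono
    (by positivity) (by omega) hΔ (fun q hq => Nat.le_floor (hX1 q hq)) hX2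
  have h7 : (θ / Real.cosh (L * Δ) ^ 2) ^ r * (κ ^ j2 * cD0 d θ L) * (τ' - τ)
      * lam d θ Rc ^ S = (θ / Real.cosh (L * Δ) ^ 2) ^ r * (κ ^ j2 * g0) := by
    rw [hg0]; ring
  rw [h7]
  have h8 : ((univ.filter (fun i => AV A r i ∧
      fd f A (htl A τ' h0) t i - fd f A (htl A τ h0) t i
        < (θ / Real.cosh (L * Δ) ^ 2) ^ r * (κ ^ j2 * g0))).card : ℝ)
      ≤ (((zw A (ZZ A d) r).card + (r + 1) * (Δ ^ (r + 1) * (m + (r + 2) * hd A Δ)) : ℕ) : ℝ) := by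
    exact_mod_cast h6
  refine h8.trans ?_
  push_cast
  have h9 : (m : ℝ) ≤ (3 * ζ + 1 / 10 ^ (j2 - 1 - r)) * (n : ℝ) := Nat.floor_le hb0
  have h10 : ((r : ℝ) + 1) * ((Δ : ℝ) ^ (r + 1) * ((m : ℝ) + (r + 2) * (hd A Δ : ℝ)))
      ≤ ((r : ℝ) + 1) * ((Δ : ℝ) ^ (r + 1) * ((3 * ζ + 1 / 10 ^ (j2 - 1 - r)) * n
        + (r + 2) * (hd A Δ : ℝ))) := by
    gcongr
  linarith

end Pool.Agent.Helper60.BP
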