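import Pool.Agent.Helper60.BP.St

set_option autoImplicit false

namespace Pool.Agent.Helper60.BP

open MeasureTheory Finset Pool.Agent.Helper87.BP Pool.Agent.Helper42.BPX

open Classical

lemma f_zero_ACc {f : ℝ → ℝ} {θ L : ℝ} (hF : FP f θ L) : f 0 = 0 := by
  have h := hF.odd 0
  rw [neg_zero] at h
  linarith

lemma abs_lt_ACc {f : ℝ → ℝ} {θ L : ℝ} (hF : FP f θ L) {x η : ℝ}
    (h1 : η ≤ θ / Real.cosh 1 ^ 2) (hx : |f x| < η) : θ / Real.cosh 1 ^ 2 * |x| < η := by
  have hf0 := f_zero_ACc hF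
  have key : ∀ y : ℝ, 0 ≤ y → |f y| < η → θ / Real.cosh 1 ^ 2 * y < η := by
    intro y hy hfy
    have h2 : y ≤ 1 := by
      by_contra hc
      have h3 : 1 < y := not_le.1 hc
      have h4 := hF.low 1 0 1 (by simp) (by simp) zero_le_one
      have h5 := hF.mono h3
      have h6 := le_abs_self (f y)
      rw [hf0] at h4
      linarith
    have h4 := hF.low 1 0 y (by simp) (by rw [abs_of_nonneg hy]; exact h2) hy
    rw [hf0] at h4
    have h6 := le_abs_self (f y)
    linarith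
  rcases le_total 0 x with h | h
  · rw [abs_of_nonneg h]
    exact key x h hx
  · rw [abs_of_nonpos h]
    apply key (-x) (by linarith)
    rw [hF.odd, abs_neg]
    exact hx

/-- `StACc` with the index `j` a natural number. -/
def StACcN : Prop := ∀ ε : ℝ, 0 < ε → ∃ (r0 : ℕ) (ζ0 : ℝ), 0 < ζ0 ∧
  ∀ (f : ℝ → ℝ) (d θ K Rc : ℝ) (r j2 Δ : ℕ) (ζ : ℝ), r + 2 ≤ j2 → 1 ≤ Δ →
    0 < ζ → ζ ≤ 1 / 4000 → FP f θ (Real.artanh θ) → Par d θ K Rc → ∃ c : ℝ, 0 < c ∧
    ∀ (n : ℕ) (A : Finset (Sym2 (Fin n))) (σ : Fin n → Bool) (vt : ℝ)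
      (h0 : Fin n → Fin n → ℝ) (J t : ℕ), 2 ≤ n → 1 ≤ J → Ctx f A σ d θ K Rc vt →
      Expd A (n / 500) ⌈d / 40⌉₊ → (∀ k i, |h0 k i| ≤ 1) → HS A h0 d → j2 ≤ t →
      ((zw A (ZZ A d) r).card : ℝ) + (r + 1) * (Δ : ℝ) ^ (r + 1) *
        ((3 * ζ + 1 / 10 ^ (j2 - 1 - r)) * n + (r + 2) * hd A Δ) ≤ ζ0 * n →
      ((range (J + 1)).filter (fun j : ℕ =>
        Uns f A (htl A ((j : ℝ) / (J * Real.sqrt n)) h0) d K (Real.artanh θ) (t - j2) ∧
        ε * n ≤ Nη f A (htl A ((j : ℝ) / (J * Real.sqrt n)) h0) t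
          (min (θ / Real.cosh 1 ^ 2) (c / (J * Real.sqrt n) * lam d θ Rc ^ (t - j2))))).card ≤ r0

theorem st_ACcN (ha : StAC) (hc : StCount) : StACcN := by
  intro ε hε
  obtain ⟨r0, ζ0, hζ0, hcount⟩ := hc ε hε
  refine ⟨r0, ζ0, hζ0, ?_⟩
  intro f d θ K Rc r j2 Δ ζ hrj hΔ hζ hζ' hF hP
  obtain ⟨c, hc0, hac⟩ := ha f d θ K Rc r j2 Δ ζ hrj hΔ hζ hζ' hF hP
  have hθ := hF.θpos
  have hch : 0 < Real.cosh 1 := Real.cosh_pos 1
  have hdp : 0 < d := lt_of_lt_of_le (by norm_num) hP.dbig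
  have hlam : 0 < lam d θ Rc := by
    unfold lam
    have h1 := Real.cosh_pos (Rc + 1)
    positivity
  refine ⟨c * (θ / Real.cosh 1 ^ 2) / 2, by positivity, ?_⟩
  intro n A σ vt h0 J t hn hJ hctx hE hh0 hHS ht hbound
  have hnR : (0 : ℝ) < n := by
    have : 0 < n := by omega
    exact_mod_cast this
  have hJR : (0 : ℝ) < J := by exact_mod_cast hJ
  have hsq : 1 < Real.sqrt n := by
    rw [Real.lt_sqrt zero_le_one]
    have : 1 < n := by omega
    have h2 : (1 : ℝ) < n := by exact_mod_cast this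
    linarith
  set η : ℝ := min (θ / Real.cosh 1 ^ 2)
    (c * (θ / Real.cosh 1 ^ 2) / 2 / (J * Real.sqrt n) * lam d θ Rc ^ (t - j2)) with hη
  set τ : ℕ → ℝ := fun j => (j : ℝ) / (J * Real.sqrt n) with hτ
  have hden : 0 < (J : ℝ) * Real.sqrt n := by positivity
  set S : ℕ → Finset (Fin n) := fun j => univ.filter (fun i =>
    fd f A (htl A (τ j) h0) t i ≠ 0 ∧ |f (fd f A (htl A (τ j) h0) t i)| < η) with hS
  refine hcount n S _ (by omega) ?_ ?_
  · intro j hj
    exact (mem_filter.1 hj).2.2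
  · intro j hj j' hj' hjj
    rw [mem_filter, mem_range] at hj hj'
    have e1 : (0 : ℝ) ≤ τ j := by simp only [hτ]; positivity
    have e2 : τ j + 1 / (J * Real.sqrt n) ≤ τ j' := by
      simp only [hτ]
      rw [← add_div]
      apply div_le_div_of_nonneg_right _ hden.le
      exact_mod_cast hjj
    have e3 : τ j' < 1 := by
      simp only [hτ]
      rw [div_lt_one hden]
      have h3 : (j' : ℝ) ≤ J := by
        have : j' ≤ J := by omega
        exact_mod_cast this
      nlinarith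
    have e4 : 0 < 1 / ((J : ℝ) * Real.sqrt n) := by positivity
    have h4 := hac n A σ vt h0 (τ j) (τ j') t hctx hE hh0 hHS e1 (by linarith) e3 ht
      hj.2.1 hj'.2.1
    refine le_trans ?_ (h4.trans hbound)
    have h5 : S j ∩ S j' ⊆ univ.filter (fun i => AV A r i ∧
        fd f A (htl A (τ j') h0) t i - fd f A (htl A (τ j) h0) t i
          < c * (τ j' - τ j) * lam d θ Rc ^ (t - j2)) := by
      intro i hi
      rw [mem_inter] at hi
      simp only [hS, mem_filter, mem_univ, true_and] at hi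
      obtain ⟨⟨h6, h7⟩, h8, h9⟩ := hi
      rw [mem_filter]
      refine ⟨mem_univ _, ?_, ?_⟩
      · by_contra hcon
        exact h6 (field_dead (f_zero_ACc hF) (by omega) hcon)
      · have h10 := abs_lt_ACc hF (min_le_left _ _) h7
        have h11 := abs_lt_ACc hF (min_le_left _ _) h9
        have h12 : fd f A (htl A (τ j') h0) t i - fd f A (htl A (τ j) h0) t i
            ≤ |fd f A (htl A (τ j') h0) t i| + |fd f A (htl A (τ j) h0) t i| := by
          have := le_abs_self (fd f A (htl A (τ j') h0) t i)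
          have := neg_abs_le (fd f A (htl A (τ j) h0) t i)
          linarith
        have h13 : η ≤ c * (θ / Real.cosh 1 ^ 2) / 2 / (J * Real.sqrt n)
            * lam d θ Rc ^ (t - j2) := min_le_right _ _
        have h14 : 0 < θ / Real.cosh 1 ^ 2 := by positivity
        have h15 : (θ / Real.cosh 1 ^ 2) * (fd f A (htl A (τ j') h0) t i
            - fd f A (htl A (τ j) h0) t i) < (θ / Real.cosh 1 ^ 2)
            * (c * (1 / (J * Real.sqrt n)) * lam d θ Rc ^ (t - j2)) := by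
          have h16 : (θ / Real.cosh 1 ^ 2) * (c * (1 / (J * Real.sqrt n))
              * lam d θ Rc ^ (t - j2)) = 2 * (c * (θ / Real.cosh 1 ^ 2) / 2
              / (J * Real.sqrt n) * lam d θ Rc ^ (t - j2)) := by ring
          rw [h16]
          have h17 := mul_le_mul_of_nonneg_left h12 h14.le
          linarith
        have h18 := lt_of_mul_lt_mul_left h15 h14.le
        refine h18.trans_le ?_
        have h19 : 0 ≤ lam d θ Rc ^ (t - j2) := by positivity
        apply mul_le_mul_of_nonneg_right _ h19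
        apply mul_le_mul_of_nonneg_left _ hc0.le
        linarith
    exact_mod_cast card_le_card h5

/-- The statement as posted (there `j` runs through the real numbers `0, 1, .., J`). -/
theorem st_ACc (ha : StAC) (hc : StCount) : StACc := by
  intro ε hε
  obtain ⟨r0, ζ0, hζ0, H⟩ := st_ACcN ha hc ε hε
  refine ⟨r0, ζ0, hζ0, ?_⟩
  intro f d θ K Rc r j2 Δ ζ hrj hΔ hζ hζ' hF hP
  obtain ⟨c, hc0, hac⟩ := H f d θ K Rc r j2 Δ ζ hrj hΔ hζ hζ' hF hP
  refine ⟨c, hc0, ?_⟩
  intro n A σ vt h0 J t hn hJ hctx hE hh0 hHS ht hbound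
  have h1 := hac n A σ vt h0 J t hn hJ hctx hE hh0 hHS ht hbound
  refine le_trans ?_ h1
  refine le_trans (card_le_card ?_) (card_image_le (f := fun j : ℕ => (j : ℝ)))
  intro x hx
  rw [mem_filter] at hx
  obtain ⟨hx1, hx2⟩ := hx
  simp only [Finset.bind_def, Finset.pure_def, Finset.mem_sup, Finset.mem_singleton] at hx1
  obtain ⟨a, ha1, rfl⟩ := hx1
  rw [mem_image]
  exact ⟨a, mem_filter.2 ⟨ha1, hx2⟩, rfl⟩

end Pool.Agent.Helper60.BP
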