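import Pool.Agent.Helper60.BP.StAsm
import Pool.Agent.Helper72.BPA.M_EXPAND
import Pool.Agent.Helper72.BPA.M_ST

set_option autoImplicit false

namespace Pool.Agent.Helper60.BP

open MeasureTheory Finset Pool.Agent.Helper87.BP Pool.Agent.Helper42.BPX

open Classical

namespace ASv

lemma zf_eq (x v : ℝ) : zf x v = Pool.Agent.Helper72.BPA.st x v := by
  unfold zf Pool.Agent.Helper72.BPA.st
  by_cases h1 : x ≤ v <;> by_cases h2 : (0 : ℝ) ≤ v <;> simp [ind, h1, h2]

lemma pe_eq (n : ℕ) (a b : ℝ) (σ : Fin n → Bool) :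
    pe n a b σ = Pool.Agent.Helper72.BPA.pe a b σ := by
  funext e
  induction e with | _ i j =>
  rw [Pool.Agent.Helper72.BPA.pe_mk]
  show (if σ i = σ j then a / n else b / n) = _
  rfl

lemma AS_eq {n : ℕ} (f : ℝ → ℝ) (A : Finset (Sym2 (Fin n))) (h0 : Fin n → Fin n → ℝ)
    (σ : Fin n → Bool) (t : ℕ) : AS f (Adj A) h0 σ t
      = ∫ v, (Pool.Agent.Helper72.BPA.Zw σ univ (fun i => f (field f (Adj A) h0 t i)) v) ^ 2 := by
  unfold AS Zt Pool.Agent.Helper72.BPA.Zw
  simp only [zf_eq]

lemma AS_expand {n : ℕ} (f : ℝ → ℝ) (A : Finset (Sym2 (Fin n))) (h0 : Fin n → Fin n → ℝ)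
    (σ : Fin n → Bool) (t : ℕ) : AS f (Adj A) h0 σ t
      = (∑ i, ∑ j, lab σ i * lab σ j * Pool.Agent.Helper72.BPA.kk
          (f (field f (Adj A) h0 t i)) (f (field f (Adj A) h0 t j))) / (n : ℝ) ^ 2 := by
  rw [AS_eq, Pool.Agent.Helper72.BPA.m_expand Pool.Agent.Helper72.BPA.m_st]

lemma kk_cont : Continuous (fun x : ℝ × ℝ => Pool.Agent.Helper72.BPA.kk x.1 x.2) := by
  obtain ⟨-, -, -, -, -, -, h, -⟩ := Pool.Agent.Helper72.BPA.m_st
  have : LipschitzWith 2 (fun x : ℝ × ℝ => Pool.Agent.Helper72.BPA.kk x.1 x.2) := by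
    refine LipschitzWith.of_dist_le_mul fun x y => ?_
    rw [Real.dist_eq]
    refine (h x.1 x.2 y.1 y.2).trans ?_
    rw [Prod.dist_eq, Real.dist_eq, Real.dist_eq]
    have h1 := le_max_left |x.1 - y.1| |x.2 - y.2|
    have h2 := le_max_right |x.1 - y.1| |x.2 - y.2|
    push_cast
    linarith
  exact this.continuous

lemma AS_meas {n : ℕ} {f : ℝ → ℝ} (hf : Measurable f) (A : Finset (Sym2 (Fin n)))
    (σ : Fin n → Bool) (t : ℕ) :
    Measurable (fun y : Rest n → unitInterval => AS f (Adj A) (initR y) σ t) := by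
  simp only [AS_expand]
  have hfd : ∀ i, Measurable (fun y : Rest n → unitInterval =>
      f (field f (Adj A) (initR y) t i)) := by
    intro i
    refine hf.comp ?_
    refine measurable_field hf ?_ ?_ t i
    · intro k j
      exact MeasurableSet.const _
    · intro k j
      unfold initR
      exact ((measurable_coordR _).const_mul 2).sub_const 1
  refine Measurable.div_const ?_ _
  refine Finset.measurable_sum _ fun i _ => Finset.measurable_sum _ fun j _ => ?_
  exact (kk_cont.measurable.comp ((hfd i).prodMk (hfd j))).const_mul _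

lemma AS_nonneg {n : ℕ} (f : ℝ → ℝ) (R : Fin n → Fin n → Prop) (h0 : Fin n → Fin n → ℝ)
    (σ : Fin n → Bool) (t : ℕ) : 0 ≤ AS f R h0 σ t := by
  unfold AS
  exact integral_nonneg fun v => sq_nonneg _

lemma AS_le {n : ℕ} (hn : 0 < n) {f : ℝ → ℝ} {c : ℝ} (hc : ∀ x, |f x| ≤ c)
    (A : Finset (Sym2 (Fin n))) (h0 : Fin n → Fin n → ℝ)
    (σ : Fin n → Bool) (t : ℕ) : AS f (Adj A) h0 σ t ≤ c := by
  obtain ⟨-, -, -, -, -, -, -, h⟩ := Pool.Agent.Helper72.BPA.m_st
  rw [AS_expand]
  have hn' : (0 : ℝ) < n := by exact_mod_cast hn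
  rw [div_le_iff₀ (by positivity)]
  have hlab : ∀ i, |lab σ i| = 1 := by
    intro i
    unfold lab
    split_ifs <;> simp
  calc ∑ i, ∑ j, lab σ i * lab σ j * Pool.Agent.Helper72.BPA.kk
          (f (field f (Adj A) h0 t i)) (f (field f (Adj A) h0 t j))
      ≤ ∑ _i : Fin n, ∑ _j : Fin n, c := by
        refine Finset.sum_le_sum fun i _ => Finset.sum_le_sum fun j _ => ?_
        refine (le_abs_self _).trans ?_
        rw [abs_mul, abs_mul, hlab, hlab, one_mul, one_mul]
        exact (h _ _).trans (hc _)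
    _ = c * (n : ℝ) ^ 2 := by
        simp only [Finset.sum_const, Finset.card_univ, Fintype.card_fin, nsmul_eq_mul]
        ring

end ASv

theorem st_ASv (hf : StF) (hA : Pool.Agent.Helper72.BPA.S_partA) : StASv := by
  intro a b hb hab hθ1 hks
  set θ : ℝ := (a - b) / (a + b) with hθ
  have hab' : 0 < a + b := by linarith
  have hθ0 : 0 < θ := div_pos (by linarith) hab'
  have hFP := hf θ hθ0 hθ1
  set c : ℝ := Real.artanh θ with hc
  have hc0 : 0 < c := hθ0.trans_le hFP.Lge
  have hFF : Pool.Agent.Helper72.BPA.FF c θ (fBP θ) := by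
    refine ⟨hc0.le, hθ0.le, fun x => (hFP.bdd x).le, hFP.mono.monotone, fun x y => ?_⟩
    rcases le_total x y with h | h
    · have h1 := hFP.lip x y h
      have h2 := hFP.mono.monotone h
      rw [abs_sub_comm, abs_of_nonneg (by linarith), abs_sub_comm, abs_of_nonneg (by linarith)]
      exact h1
    · have h1 := hFP.lip y x h
      have h2 := hFP.mono.monotone h
      rw [abs_of_nonneg (by linarith), abs_of_nonneg (by linarith)]
      exact h1
  have hθab : θ * (a + b) = a - b := by rw [hθ]; field_simp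
  -- numerical facts
  set Λ : ℝ := θ * (a - b) ^ 2 / 2 with hΛ
  have h3 : 2 < θ * (a - b) := by
    rw [hθ, div_mul_eq_mul_div, lt_div_iff₀ hab']; nlinarith
  have h4 : 2 ≤ θ * a := by nlinarith
  have h5 : θ * a ≤ Λ := by
    rw [hΛ]
    have : 2 * a ≤ (a - b) ^ 2 := by nlinarith
    nlinarith
  have hΛ0 : 0 < Λ := by linarith
  have hAA : AA ((a + b) / 2) θ = 2 * Λ := by
    unfold AA
    rw [hΛ, ← hθab]; ring
  have ha0 : 0 < a := by linarith
  refine ⟨c * (16 + 2 * θ * (a - b) ^ 2 * a) * Λ, by positivity, ?_⟩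
  intro n t x han hn hx
  have hn' : (0 : ℝ) < n := by exact_mod_cast hn
  have hGG : Pool.Agent.Helper72.BPA.GG n a b a :=
    ⟨hn, by linarith, hb.le, le_rfl, hab.le, han⟩
  have hpe0 : ∀ σ : Fin n → Bool, ∀ e ∈ prs n, 0 ≤ pe n a b σ e := by
    intro σ e _
    induction e with | _ i j =>
    show 0 ≤ (if σ i = σ j then a / n else b / n)
    split_ifs
    · exact div_nonneg (by linarith) hn'.le
    · exact div_nonneg hb.le hn'.le
  have hpe1 : ∀ σ : Fin n → Bool, ∀ e ∈ prs n, pe n a b σ e ≤ 1 := by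
    intro σ e _
    induction e with | _ i j =>
    show (if σ i = σ j then a / n else b / n) ≤ 1
    split_ifs
    · rw [div_le_one hn']; exact han
    · rw [div_le_one hn']; linarith
  -- Markov
  have hmark : ∀ (σ : Fin n → Bool) (A : Finset (Sym2 (Fin n))),
      (volume : Measure (Rest n → unitInterval)).real
        {y | x ≤ AS (fBP θ) (Adj A) (initR y) σ t}
      ≤ (∫ y : Rest n → unitInterval, AS (fBP θ) (Adj A) (initR y) σ t) / x := by
    intro σ A
    rw [le_div_iff₀ hx, mul_comm]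
    refine mul_meas_ge_le_integral_of_nonneg ?_ ?_ x
    · exact Filter.Eventually.of_forall fun y => ASv.AS_nonneg _ _ _ _ _
    · refine Integrable.of_bound (ASv.AS_meas hFP.meas A σ t).aestronglyMeasurable c ?_
      refine Filter.Eventually.of_forall fun y => ?_
      rw [Real.norm_eq_abs, abs_of_nonneg (ASv.AS_nonneg _ _ _ _ _)]
      exact ASv.AS_le hn (fun x => (hFP.bdd x).le) A _ σ t
  have hint : ∀ (σ : Fin n → Bool) (A : Finset (Sym2 (Fin n))),
      Integrable (fun y : Rest n → unitInterval => AS (fBP θ) (Adj A) (initR y) σ t) := by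
    intro σ A
    refine Integrable.of_bound (ASv.AS_meas hFP.meas A σ t).aestronglyMeasurable c ?_
    refine Filter.Eventually.of_forall fun y => ?_
    rw [Real.norm_eq_abs, abs_of_nonneg (ASv.AS_nonneg _ _ _ _ _)]
    exact ASv.AS_le hn (fun x => (hFP.bdd x).le) A _ σ t
  have h6 : avgE n a b (fun σ A => (volume : Measure (Rest n → unitInterval)).real
      {y | x ≤ AS (fBP θ) (Adj A) (initR y) σ t})
      ≤ avgE n a b (fun σ A =>
        (∫ y : Rest n → unitInterval, AS (fBP θ) (Adj A) (initR y) σ t) / x) := by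
    unfold avgE
    refine div_le_div_of_nonneg_right (Finset.sum_le_sum fun σ _ => ?_) (by positivity)
    exact EE_mono (hpe0 σ) (hpe1 σ) (fun A _ => hmark σ A)
  have h7 : avgE n a b (fun σ A =>
      (∫ y : Rest n → unitInterval, AS (fBP θ) (Adj A) (initR y) σ t) / x)
      = (∫ y : Rest n → unitInterval, avgE n a b (fun σ A =>
          AS (fBP θ) (Adj A) (initR y) σ t)) / x := by
    unfold avgE EE
    have e1 : (∫ y : Rest n → unitInterval, (∑ σ : Fin n → Bool, ∑ A ∈ (prs n).powerset,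
        wt (pe n a b σ) (prs n) A * AS (fBP θ) (Adj A) (initR y) σ t) / 2 ^ n)
        = (∑ σ : Fin n → Bool, ∑ A ∈ (prs n).powerset, wt (pe n a b σ) (prs n) A *
          ∫ y : Rest n → unitInterval, AS (fBP θ) (Adj A) (initR y) σ t) / 2 ^ n := by
      rw [integral_div, integral_finsetSum]
      · congr 1
        refine Finset.sum_congr rfl fun σ _ => ?_
        rw [integral_finsetSum]
        · exact Finset.sum_congr rfl fun A _ => integral_const_mul _ _
        · intro A _
          exact (hint σ A).const_mul _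
      · intro σ _
        refine integrable_finsetSum _ fun A _ => (hint σ A).const_mul _
    rw [e1]
    conv_rhs => rw [div_right_comm, Finset.sum_div]
    congr 1
    refine Finset.sum_congr rfl (fun σ _ => ?_)
    rw [Finset.sum_div]
    refine Finset.sum_congr rfl (fun A _ => ?_)
    exact (mul_div_assoc _ _ _).symm
  have h8 : ∀ y : Rest n → unitInterval, avgE n a b (fun σ A =>
      AS (fBP θ) (Adj A) (initR y) σ t)
      ≤ c / n * (16 + 2 * θ * (a - b) ^ 2 * a) * (t + 1) * Λ ^ (t + 1) := by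
    intro y
    have := hA n a b a c θ (fBP θ) (initR y) hGG hFF h4 h5 t
    rw [← hΛ] at this
    refine le_trans (le_of_eq ?_) this
    unfold avgE Pool.Agent.Helper72.BPA.avg
    have e3 : ∀ σ : Fin n → Bool, EE (pe n a b σ) (prs n)
        (fun A => AS (fBP θ) (Adj A) (initR y) σ t)
        = EE (Pool.Agent.Helper72.BPA.pe a b σ) (prs n) (fun A =>
          ∫ v, (Pool.Agent.Helper72.BPA.Zw σ univ
            (fun i => fBP θ (field (fBP θ) (Adj A) (initR y) t i)) v) ^ 2) := by
      intro σ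
      rw [ASv.pe_eq]
      exact EE_congr (fun A _ => ASv.AS_eq _ _ _ _ _)
    rw [Finset.sum_congr rfl (fun σ _ => e3 σ)]
  have h9 : ∫ y : Rest n → unitInterval, avgE n a b (fun σ A =>
      AS (fBP θ) (Adj A) (initR y) σ t)
      ≤ c / n * (16 + 2 * θ * (a - b) ^ 2 * a) * (t + 1) * Λ ^ (t + 1) := by
    have h10 : Integrable (fun y : Rest n → unitInterval => avgE n a b (fun σ A =>
        AS (fBP θ) (Adj A) (initR y) σ t)) := by
      unfold avgE EE
      refine Integrable.div_const ?_ _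
      exact integrable_finsetSum _ fun σ _ => integrable_finsetSum _ fun A _ =>
        (hint σ A).const_mul _
    have h11 := integral_mono h10 (integrable_const _) h8
    simpa using h11
  rw [h7] at h6
  refine h6.trans ?_
  rw [hAA]
  have h12 : c / n * (16 + 2 * θ * (a - b) ^ 2 * a) * (t + 1) * Λ ^ (t + 1) / x
      = c * (16 + 2 * θ * (a - b) ^ 2 * a) * Λ * (t + 1) * Λ ^ t / (n * x) := by
    field_simp
    ring
  have h13 : Λ ^ t ≤ (2 * Λ) ^ t := pow_le_pow_left₀ hΛ0.le (by linarith) _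
  calc _ ≤ c / n * (16 + 2 * θ * (a - b) ^ 2 * a) * (t + 1) * Λ ^ (t + 1) / x :=
        div_le_div_of_nonneg_right h9 hx.le
    _ = c * (16 + 2 * θ * (a - b) ^ 2 * a) * Λ * (t + 1) * Λ ^ t / (n * x) := h12
    _ ≤ _ := by
        refine div_le_div_of_nonneg_right ?_ (by positivity)
        have ha0 : 0 < a := by linarith
        exact mul_le_mul_of_nonneg_left h13 (by positivity)

end Pool.Agent.Helper60.BP
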