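import Pool.Agent.Helper60.BP.StAsm

set_option autoImplicit false

namespace Pool.Agent.Helper60.BP

open MeasureTheory Finset Pool.Agent.Helper87.BP Pool.Agent.Helper42.BPX

noncomputable section

open Classical

theorem st_Bv (h : StSat) (hc : StCoin) : StBv := by
  intro n A σ f d θ K Rc vt ε r q m' Δ T t hn hε hctx hE hΔ hm' ht hlab hex
  have hn' : (0 : ℝ) < n := by exact_mod_cast hn
  have h1 := hc n σ (ε / 2) (fun _ => univ.filter (fun i => ¬ AV A r i)) hn (by positivity)
    (fun i => by
      by_cases hi : AV A r i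
      · have : {r' : Rest n → unitInterval | i ∈ univ.filter (fun i => ¬ AV A r i)} = ∅ := by
          ext x; simp [hi]
        rw [this]; exact MeasurableSet.empty
      · have : {r' : Rest n → unitInterval | i ∈ univ.filter (fun i => ¬ AV A r i)} = Set.univ := by
          ext x; simp [hi]
        rw [this]; exact MeasurableSet.univ)
    (fun _ _ _ => rfl)
  have h2 : (1 : ℝ) / ((ε / 2) ^ 2 * n) = 4 / (ε ^ 2 * n) := by
    field_simp
    ring
  rw [h2] at h1
  refine (measureReal_mono ?_ (measure_ne_top _ _)).trans h1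
  intro x hx
  obtain ⟨hov, huns⟩ := hx
  simp only [Uns, not_forall, not_le] at huns
  obtain ⟨s, hsT, hs⟩ := huns
  have h3 := h n A σ f d θ K Rc vt (initR x) (coinR x) r q m' Δ s t hctx hE
    (fun i => (coinR_abs x i).le) hΔ hm' (by omega) hs
  simp only [Set.mem_setOf_eq]
  have h4 : ε * n ≤ |∑ i, est f (Adj A) (initR x) (coinR x) t i * lab σ i| := by
    unfold ov at hov
    rw [abs_div, Nat.abs_cast, le_div_iff₀ hn'] at hov
    exact hov
  have h5 : ε / 2 * n ≤ |∑ i ∈ univ.filter (fun i => ¬ AV A r i), coinR x i * lab σ i| := by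
    linarith
  exact h5

end

end Pool.Agent.Helper60.BP
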