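import Pool.Agent.Helper60.BP.St

set_option autoImplicit false

namespace Pool.Agent.Helper60.BP

open MeasureTheory Finset Pool.Agent.Helper87.BP Pool.Agent.Helper42.BPX

noncomputable section

open Classical

variable {n : ℕ}

/-- Monotonicity of the messages along edges. -/
lemma msg_mono_adj {f : ℝ → ℝ} (hf : Monotone f) {A : Finset (Sym2 (Fin n))}
    {h0 h0' : Fin n → Fin n → ℝ} (h : ∀ k i, Adj A k i → h0 k i ≤ h0' k i) :
    ∀ (s : ℕ) (k i : Fin n), Adj A k i → msg f (Adj A) h0 s k i ≤ msg f (Adj A) h0' s k i := by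
  intro s
  induction s with
  | zero => exact h
  | succ s ih =>
    intro k i _
    rw [msg_succ, msg_succ]
    refine Finset.sum_le_sum fun l hl => hf (ih l k ?_)
    exact (mem_nb.1 (mem_of_mem_erase hl)).symm

/-- Heavy vertices. -/
def hvy (A : Finset (Sym2 (Fin n))) (Δ : ℕ) : Finset (Fin n) :=
  univ.filter (fun i => Δ < (nb A i).card)

lemma card_hvy_le (A : Finset (Sym2 (Fin n))) (Δ : ℕ) : (hvy A Δ).card ≤ hd A Δ := by
  unfold hvy hd
  rw [Finset.card_eq_sum_ones]
  refine Finset.sum_le_sum fun i hi => ?_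
  have := (mem_filter.1 hi).2
  omega

lemma chain {f : ℝ → ℝ} {θ L : ℝ} (hf : FP f θ L) {A : Finset (Sym2 (Fin n))}
    {h0 h0' : Fin n → Fin n → ℝ} (hm : ∀ k i, Adj A k i → h0 k i ≤ h0' k i) {g : ℝ} (hg : 0 ≤ g)
    {Δ : ℕ} {Z : Finset (Fin n)} :
    ∀ (r t : ℕ) (X : ℕ → Finset (Fin n)), r ≤ t →
      (∀ q, q ≤ r → DL f A h0 h0' g (Z ∪ X q) (t - q)) → ∀ k i : Fin n, Adj A k i →
      AL A r k i → TW A (fun _ => Z) r 0 k i ∨ (∃ q ≤ r, k ∈ nbq A q (X q ∪ hvy A Δ)) ∨
        (θ / Real.cosh (L * Δ) ^ 2) ^ r * g ≤ xm f A h0' t k i - xm f A h0 t k i := by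
  have hθ := hf.θpos
  set κ := θ / Real.cosh (L * Δ) ^ 2 with hκ
  have hκ0 : 0 ≤ κ := by
    have := Real.cosh_pos (L * Δ)
    positivity
  have hκ1 : κ ≤ 1 := by
    have h1 : 1 ≤ Real.cosh (L * Δ) ^ 2 := one_le_pow₀ (Real.one_le_cosh _)
    rw [hκ, div_le_one (by linarith)]
    have := hf.θle
    linarith
  have hmono := msg_mono_adj hf.mono.monotone hm
  intro r
  induction r with
  | zero =>
    intro t X _ hX k i hki _
    by_cases hZ : k ∈ Z
    · exact Or.inl hZ
    · by_cases hX0 : k ∈ X 0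
      · exact Or.inr (Or.inl ⟨0, le_rfl, mem_union_left _ hX0⟩)
      · right; right
        have := hX 0 le_rfl k (by simp [hZ, hX0]) i hki
        rw [pow_zero, one_mul]
        exact this
  | succ r ih =>
    intro t X hrt hX k i hki hal
    by_cases hX0 : k ∈ X 0
    · exact Or.inr (Or.inl ⟨0, Nat.zero_le _, mem_union_left _ hX0⟩)
    by_cases hH : k ∈ hvy A Δ
    · exact Or.inr (Or.inl ⟨0, Nat.zero_le _, mem_union_right _ hH⟩)
    by_cases hZ : k ∈ Z
    · obtain ⟨l, hli, hlk, hl⟩ := hal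
      obtain ⟨s, rfl⟩ : ∃ s, t = s + 1 := ⟨t - 1, by omega⟩
      rcases ih s (fun q => X (q + 1)) (by omega) (fun q hq => by
        have := hX (q + 1) (by omega)
        rwa [show s + 1 - (q + 1) = s - q by omega] at this) l k hlk hl with h | ⟨q, hq, h⟩ | h
      · exact Or.inl ⟨hZ, l, hli, hlk, h⟩
      · refine Or.inr (Or.inl ⟨q + 1, by omega, ?_⟩)
        show k ∈ nbs A (nbq A q (X (q + 1) ∪ hvy A Δ))
        simp only [nbs, mem_filter, mem_univ, true_and]
        exact ⟨l, h, hlk⟩
      · right; right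
        have hdeg : (nb A k).card ≤ Δ := by
          simp only [hvy, mem_filter, mem_univ, true_and, not_lt] at hH
          exact hH
        have hL0 : 0 ≤ L := hθ.le.trans hf.Lge
        have hbd : ∀ h : Fin n → Fin n → ℝ, |msg f (Adj A) h (s + 1) k i| ≤ L * Δ := by
          intro h
          rw [msg_succ]
          refine (Finset.abs_sum_le_sum_abs _ _).trans ?_
          calc ∑ l ∈ (nb A k).erase i, |f (msg f (Adj A) h s l k)|
              ≤ ∑ _l ∈ (nb A k).erase i, L := Finset.sum_le_sum fun l _ => (hf.bdd _).le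
            _ = ((nb A k).erase i).card * L := by rw [Finset.sum_const, nsmul_eq_mul]
            _ ≤ Δ * L := by
                refine mul_le_mul_of_nonneg_right ?_ hL0
                exact_mod_cast (card_erase_le).trans hdeg
            _ = L * Δ := mul_comm _ _
        have hdiff : κ ^ r * g ≤ msg f (Adj A) h0' (s + 1) k i - msg f (Adj A) h0 (s + 1) k i := by
          rw [msg_succ, msg_succ, ← Finset.sum_sub_distrib]
          refine h.trans (Finset.single_le_sum
            (f := fun l => f (msg f (Adj A) h0' s l k) - f (msg f (Adj A) h0 s l k))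
            (fun l hl' => ?_) (mem_erase.2 ⟨hli, mem_nb.2 hlk.symm⟩))
          have : Adj A l k := (mem_nb.1 (mem_of_mem_erase hl')).symm
          exact sub_nonneg.2 (hf.mono.monotone (hmono s l k this))
        have hle := hmono (s + 1) k i hki
        have hlow := hf.low (L * Δ) _ _ (hbd h0) (hbd h0') hle
        calc κ ^ (r + 1) * g = κ * (κ ^ r * g) := by ring
          _ ≤ κ * (msg f (Adj A) h0' (s + 1) k i - msg f (Adj A) h0 (s + 1) k i) :=
              mul_le_mul_of_nonneg_left hdiff hκ0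
          _ ≤ _ := hlow
    · right; right
      have := hX 0 (Nat.zero_le _) k (by simp [hZ, hX0]) i hki
      refine le_trans ?_ this
      have h1 : κ ^ (r + 1) ≤ 1 := pow_le_one₀ hκ0 hκ1
      calc κ ^ (r + 1) * g ≤ 1 * g := mul_le_mul_of_nonneg_right h1 hg
        _ = g := one_mul g

theorem st_Ch : StCh := by
  intro n A f θ L h0 h0' g r t Δ m Z X hf hm hg hrt hΔ hXc hX
  set κ := θ / Real.cosh (L * Δ) ^ 2 with hκ
  have hmono := msg_mono_adj hf.mono.monotone hm
  have hsub : univ.filter (fun i => AV A r i ∧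
      fd f A h0' t i - fd f A h0 t i < κ ^ r * g) ⊆ zw A Z r ∪ (range (r + 1)).biUnion
        (fun q => nbq A (q + 1) (X q ∪ hvy A Δ)) := by
    intro i hi
    simp only [mem_filter, mem_univ, true_and] at hi
    obtain ⟨⟨k, hki, hal⟩, hlt⟩ := hi
    rcases chain hf hm hg r t X hrt hX k i hki hal with h | ⟨q, hq, h⟩ | h
    · refine mem_union_left _ ?_
      simp only [zw, mem_filter, mem_univ, true_and]
      exact ⟨k, hki, h⟩
    · refine mem_union_right _ (mem_biUnion.2 ⟨q, mem_range.2 (by omega), ?_⟩)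
      show i ∈ nbs A (nbq A q (X q ∪ hvy A Δ))
      simp only [nbs, mem_filter, mem_univ, true_and]
      exact ⟨k, h, hki⟩
    · exfalso
      have h1 : κ ^ r * g ≤ fd f A h0' t i - fd f A h0 t i := by
        unfold fd
        rw [field_eq, field_eq, ← Finset.sum_sub_distrib]
        refine h.trans (Finset.single_le_sum
          (f := fun l => f (msg f (Adj A) h0' t l i) - f (msg f (Adj A) h0 t l i))
          (fun l hl' => ?_) (mem_nb.2 hki.symm))
        have : Adj A l i := (mem_nb.1 hl').symm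
        exact sub_nonneg.2 (hf.mono.monotone (hmono t l i this))
      linarith
  refine (card_le_card hsub).trans ((card_union_le _ _).trans (Nat.add_le_add_left ?_ _))
  refine card_biUnion_le.trans ?_
  have hterm : ∀ q ∈ range (r + 1), (nbq A (q + 1) (X q ∪ hvy A Δ)).card
      ≤ Δ ^ (r + 1) * (m + (r + 2) * hd A Δ) := by
    intro q hq
    have hq' : q ≤ r := by rw [mem_range] at hq; omega
    have h1 := card_nbq_le A hΔ (X q ∪ hvy A Δ) (q + 1)
    have h2 : (X q ∪ hvy A Δ).card ≤ m + hd A Δ :=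
      (card_union_le _ _).trans (Nat.add_le_add (hXc q hq') (card_hvy_le A Δ))
    refine h1.trans (Nat.mul_le_mul (Nat.pow_le_pow_right hΔ (by omega)) ?_)
    have h3 : (q + 1) * hd A Δ ≤ (r + 1) * hd A Δ := Nat.mul_le_mul_right _ (by omega)
    calc (X q ∪ hvy A Δ).card + (q + 1) * hd A Δ ≤ (m + hd A Δ) + (r + 1) * hd A Δ :=
          Nat.add_le_add h2 h3
      _ = m + (r + 2) * hd A Δ := by ring
  refine (Finset.sum_le_sum hterm).trans ?_
  rw [Finset.sum_const, card_range, smul_eq_mul]

end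

end Pool.Agent.Helper60.BP
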