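import Pool.Agent.Helper60.BP.St

/-! BPB module Coin: the random signs of a set depending on the initial messages only. -/

set_option autoImplicit false

namespace Pool.Agent.Helper60.BP

open MeasureTheory Finset ProbabilityTheory Pool.Agent.Helper87.BP Pool.Agent.Helper42.BPX

open Classical

variable {n : ℕ}

lemma measurable_coinR_Coin (i : Fin n) :
    Measurable (fun r : Rest n → unitInterval => coinR r i) := by
  unfold coinR
  exact Measurable.ite (measurableSet_lt (measurable_coordR _) measurable_const)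
    measurable_const measurable_const

lemma integral_coinR_Coin (i : Fin n) : ∫ r : Rest n → unitInterval, coinR r i = 0 := by
  have hmp : MeasurePreserving (fun r : Rest n → unitInterval => r (Sum.inr i)) volume volume :=
    measurePreserving_eval (fun _ : Rest n => (volume : Measure unitInterval)) (Sum.inr i)
  have hmeas : Measurable (fun x : unitInterval => if (x : ℝ) < 1 / 2 then (1 : ℝ) else -1) :=
    Measurable.ite (measurableSet_lt measurable_subtype_coe measurable_const) measurable_const
      measurable_const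
  have h1 : ∫ r : Rest n → unitInterval, coinR r i =
      ∫ x : unitInterval, (if (x : ℝ) < 1 / 2 then (1 : ℝ) else -1) := by
    rw [← hmp.map_eq, integral_map hmp.measurable.aemeasurable hmeas.aestronglyMeasurable]
    rfl
  have hmp2 : MeasurePreserving (fun ω : Om n => ω (Sum.inr (Sum.inr i))) volume volume :=
    measurePreserving_eval (fun _ : Idx n => (volume : Measure unitInterval)) (Sum.inr (Sum.inr i))
  have h2 : ∫ ω : Om n, coin ω i =
      ∫ x : unitInterval, (if (x : ℝ) < 1 / 2 then (1 : ℝ) else -1) := by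
    rw [← hmp2.map_eq, integral_map hmp2.measurable.aemeasurable hmeas.aestronglyMeasurable]
    rfl
  rw [h1, ← h2, integral_coin]

/-- The terms. -/
noncomputable def Bt_Coin (σ : Fin n → Bool) (Q : (Rest n → unitInterval) → Finset (Fin n))
    (i : Fin n) (r : Rest n → unitInterval) : ℝ :=
  ({r | i ∈ Q r}).indicator (fun r => coinR r i * lab σ i) r

section
variable (σ : Fin n → Bool) {Q : (Rest n → unitInterval) → Finset (Fin n)}

lemma measurable_Bt_Coin (hQ : ∀ i, MeasurableSet {r | i ∈ Q r}) (i : Fin n) :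
    Measurable (Bt_Coin σ Q i) := by
  unfold Bt_Coin
  exact ((measurable_coinR_Coin i).mul_const _).indicator (hQ i)

lemma Bt_abs_Coin (i : Fin n) (r : Rest n → unitInterval) : |Bt_Coin σ Q i r| ≤ 1 := by
  unfold Bt_Coin
  by_cases h : r ∈ {r | i ∈ Q r}
  · rw [Set.indicator_of_mem h, abs_mul, coinR_abs]
    unfold lab; split_ifs <;> simp
  · rw [Set.indicator_of_notMem h]; simp

lemma sum_Bt_Coin (r : Rest n → unitInterval) :
    ∑ i ∈ Q r, coinR r i * lab σ i = ∑ i : Fin n, Bt_Coin σ Q i r := by
  unfold Bt_Coin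
  rw [← sum_subset (subset_univ (Q r))]
  · apply sum_congr rfl
    intro i hi
    have h : r ∈ {r | i ∈ Q r} := hi
    rw [Set.indicator_of_mem h]
  · intro i _ hi
    have h : r ∉ {r | i ∈ Q r} := hi
    rw [Set.indicator_of_notMem h]

lemma integral_mul_Coin (hQ : ∀ i, MeasurableSet {r | i ∈ Q r})
    (hQ2 : ∀ r r' : Rest n → unitInterval, (∀ x, r (Sum.inl x) = r' (Sum.inl x)) → Q r = Q r')
    {i j : Fin n} (hij : i ≠ j) :
    ∫ r : Rest n → unitInterval, Bt_Coin σ Q i r * Bt_Coin σ Q j r = 0 := by
  set g : (Rest n → unitInterval) → ℝ :=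
    fun r => ({r | i ∈ Q r}).indicator (fun _ => lab σ i) r * Bt_Coin σ Q j r with hg
  have hgm : Measurable g :=
    (measurable_const.indicator (hQ i)).mul (measurable_Bt_Coin σ hQ j)
  have e : ∀ r, Bt_Coin σ Q i r * Bt_Coin σ Q j r = coinR r i * g r := by
    intro r
    simp only [hg, Bt_Coin]
    by_cases h : r ∈ {r | i ∈ Q r}
    · rw [Set.indicator_of_mem h, Set.indicator_of_mem h]; ring
    · rw [Set.indicator_of_notMem h, Set.indicator_of_notMem h]; ring
  simp_rw [e]
  have hind : IndepFun (fun r : Rest n → unitInterval => coinR r i) g volume := by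
    apply indep_of_dependsOn (measurable_coinR_Coin i) hgm (A := {Sum.inr i})
      (B := univ.erase (Sum.inr i))
    · rw [disjoint_left]
      intro x hx hy
      simp only [mem_singleton] at hx
      simp [hx] at hy
    · intro r r' h
      simp only [coe_singleton, Set.mem_singleton_iff, forall_eq] at h
      simp only [coinR]
      rw [h]
    · intro r r' h
      have h' : ∀ x ∈ (univ.erase (Sum.inr i) : Finset (Rest n)), r x = r' x :=
        fun x hx => h x (by exact_mod_cast hx)
      have hq : Q r = Q r' := hQ2 r r' (fun x => h' _ (by simp))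
      have hset : ∀ l, (r ∈ {r | l ∈ Q r}) ↔ (r' ∈ {r | l ∈ Q r}) := by
        intro l
        show l ∈ Q r ↔ l ∈ Q r'
        rw [hq]
      have hc : coinR r j = coinR r' j := by
        unfold coinR
        rw [h' _ (by
          rw [mem_erase]
          refine ⟨?_, mem_univ _⟩
          intro h
          exact hij (Sum.inr_injective h).symm)]
      simp only [hg, Bt_Coin]
      by_cases h1 : r ∈ {r | i ∈ Q r}
      · rw [Set.indicator_of_mem h1, Set.indicator_of_mem ((hset i).1 h1)]
        by_cases h2 : r ∈ {r | j ∈ Q r}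
        · rw [Set.indicator_of_mem h2, Set.indicator_of_mem ((hset j).1 h2), hc]
        · rw [Set.indicator_of_notMem h2, Set.indicator_of_notMem (fun h => h2 ((hset j).2 h))]
      · rw [Set.indicator_of_notMem h1, Set.indicator_of_notMem (fun h => h1 ((hset i).2 h))]
        ring
  have h2 := hind.integral_fun_mul_eq_mul_integral (measurable_coinR_Coin i).aestronglyMeasurable
    hgm.aestronglyMeasurable
  rw [h2, integral_coinR_Coin, zero_mul]

lemma integrable_mul_Coin (hQ : ∀ i, MeasurableSet {r | i ∈ Q r}) (i j : Fin n) :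
    Integrable (fun r : Rest n → unitInterval => Bt_Coin σ Q i r * Bt_Coin σ Q j r) volume := by
  apply Integrable.of_bound
    ((measurable_Bt_Coin σ hQ i).mul (measurable_Bt_Coin σ hQ j)).aestronglyMeasurable 1
  refine Filter.Eventually.of_forall (fun r => ?_)
  rw [Real.norm_eq_abs, Pi.mul_apply, abs_mul]
  have h1 := Bt_abs_Coin σ (Q := Q) i r
  have h2 := Bt_abs_Coin σ (Q := Q) j r
  have h3 := abs_nonneg (Bt_Coin σ Q i r)
  have h4 := abs_nonneg (Bt_Coin σ Q j r)
  nlinarith

lemma sq_Coin (r : Rest n → unitInterval) : (∑ i : Fin n, Bt_Coin σ Q i r) ^ 2 =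
    ∑ i : Fin n, ∑ j : Fin n, Bt_Coin σ Q i r * Bt_Coin σ Q j r := by
  rw [sq, sum_mul_sum]

lemma integrable_sq_Coin (hQ : ∀ i, MeasurableSet {r | i ∈ Q r}) :
    Integrable (fun r : Rest n → unitInterval => (∑ i : Fin n, Bt_Coin σ Q i r) ^ 2) volume := by
  simp_rw [sq_Coin]
  exact integrable_finsetSum _ (fun i _ => integrable_finsetSum _
    (fun j _ => integrable_mul_Coin σ hQ i j))

lemma second_moment_Coin (hQ : ∀ i, MeasurableSet {r | i ∈ Q r})
    (hQ2 : ∀ r r' : Rest n → unitInterval, (∀ x, r (Sum.inl x) = r' (Sum.inl x)) → Q r = Q r') :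
    ∫ r : Rest n → unitInterval, (∑ i : Fin n, Bt_Coin σ Q i r) ^ 2 ≤ n := by
  simp_rw [sq_Coin]
  rw [integral_finsetSum _ (fun i _ => integrable_finsetSum _
    (fun j _ => integrable_mul_Coin σ hQ i j))]
  have h1 : ∀ i ∈ (univ : Finset (Fin n)),
      ∫ r : Rest n → unitInterval, ∑ j : Fin n, Bt_Coin σ Q i r * Bt_Coin σ Q j r ≤ 1 := by
    intro i _
    rw [integral_finsetSum _ (fun j _ => integrable_mul_Coin σ hQ i j)]
    rw [sum_eq_single i]
    · calc ∫ r : Rest n → unitInterval, Bt_Coin σ Q i r * Bt_Coin σ Q i r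
          ≤ ∫ r : Rest n → unitInterval, (1 : ℝ) := by
            apply integral_mono (integrable_mul_Coin σ hQ i i) (integrable_const 1)
            intro r
            simp only
            have h1 := Bt_abs_Coin σ (Q := Q) i r
            have h3 := abs_nonneg (Bt_Coin σ Q i r)
            rw [← abs_mul_abs_self]
            nlinarith
        _ = 1 := by simp
    · intro j _ hj
      exact integral_mul_Coin σ hQ hQ2 (Ne.symm hj)
    · intro h; exact absurd (mem_univ i) h
  calc _ ≤ ∑ i : Fin n, (1 : ℝ) := sum_le_sum h1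
      _ = n := by simp

end

theorem st_Coin : StCoin := by
  intro n σ δ Q hn hδ hQ hQ2
  have hnr : (0 : ℝ) < n := by exact_mod_cast hn
  simp_rw [sum_Bt_Coin σ (Q := Q)]
  have h1 := mul_meas_ge_le_integral_of_nonneg (μ := (volume : Measure (Rest n → unitInterval)))
    (f := fun r => (∑ i : Fin n, Bt_Coin σ Q i r) ^ 2)
    (Filter.Eventually.of_forall (fun r => sq_nonneg _)) (integrable_sq_Coin σ hQ) ((δ * n) ^ 2)
  have h2 : {r : Rest n → unitInterval | δ * n ≤ |∑ i : Fin n, Bt_Coin σ Q i r|} ⊆
      {r | (δ * n) ^ 2 ≤ (∑ i : Fin n, Bt_Coin σ Q i r) ^ 2} := by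
    intro r hr
    simp only [Set.mem_ofPred_eq] at hr ⊢
    rw [← sq_abs (∑ i : Fin n, Bt_Coin σ Q i r)]
    exact pow_le_pow_left₀ (by positivity) hr 2
  have h3 : (volume : Measure (Rest n → unitInterval)).real
      {r | δ * n ≤ |∑ i : Fin n, Bt_Coin σ Q i r|} ≤
      (volume : Measure (Rest n → unitInterval)).real
      {r | (δ * n) ^ 2 ≤ (∑ i : Fin n, Bt_Coin σ Q i r) ^ 2} := measureReal_mono h2
  have h4 := second_moment_Coin σ hQ hQ2
  have h5 : (δ * n) ^ 2 * (volume : Measure (Rest n → unitInterval)).real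
      {r | (δ * n) ^ 2 ≤ (∑ i : Fin n, Bt_Coin σ Q i r) ^ 2} ≤ n := le_trans h1 h4
  rw [le_div_iff₀ (by positivity)]
  have h6 : (0 : ℝ) < δ ^ 2 * n := by positivity
  have h7 : (volume : Measure (Rest n → unitInterval)).real
      {r | (δ * n) ^ 2 ≤ (∑ i : Fin n, Bt_Coin σ Q i r) ^ 2} * (δ ^ 2 * n) ≤ 1 := by
    have h8 : (δ * n) ^ 2 * (volume : Measure (Rest n → unitInterval)).real
        {r | (δ * n) ^ 2 ≤ (∑ i : Fin n, Bt_Coin σ Q i r) ^ 2} =
        n * ((volume : Measure (Rest n → unitInterval)).real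
        {r | (δ * n) ^ 2 ≤ (∑ i : Fin n, Bt_Coin σ Q i r) ^ 2} * (δ ^ 2 * n)) := by ring
    rw [h8] at h5
    exact le_of_mul_le_mul_left (by linarith) hnr
  exact le_trans (mul_le_mul_of_nonneg_right h3 h6.le) h7

end Pool.Agent.Helper60.BP
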