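import Pool.Agent.Helper60.BP.StAsm

set_option autoImplicit false

namespace Pool.Agent.Helper60.BP

open MeasureTheory Finset Pool.Agent.Helper87.BP Pool.Agent.Helper42.BPX

open Classical

/-- splitting of the event of a large overlap -/
theorem st_Cv (ho : StOv) (hs : StSg) (hc : StCoin) (hm : StMeas) : StCv := by
  intro n A σ f θ L ε η t W hn hε hη hf
  have hnr : (0 : ℝ) < n := by exact_mod_cast hn
  set Q : (Rest n → unitInterval) → Finset (Fin n) := fun r =>
    univ.filter (fun i => fd f A (initR r) t i = 0) with hQ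
  have hmeas := hm n A σ f t hf.meas
  have hcoin := hc n σ (ε / 2) Q hn (by positivity)
    (fun i => by
      have e : {r : Rest n → unitInterval | i ∈ Q r} =
          (fun r : Rest n → unitInterval => fd f A (initR r) t i) ⁻¹' {0} := by
        ext r
        simp only [hQ, Set.mem_preimage, Set.mem_singleton_iff]
        change i ∈ univ.filter _ ↔ _
        rw [mem_filter]
        exact ⟨fun h => h.2, fun h => ⟨mem_univ i, h⟩⟩
      rw [e]
      exact (hmeas.1 i) (measurableSet_singleton 0))
    (fun r r' hr => by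
      have e : initR r = initR r' := by
        funext i j
        unfold initR
        rw [hr (i, j)]
      rw [hQ]
      change univ.filter (fun i => fd f A (initR r) t i = 0) =
        univ.filter (fun i => fd f A (initR r') t i = 0)
      rw [e])
  have hsub : {x | ε ≤ |ov f A σ t x|} ∩ W ⊆
      ({r : Rest n → unitInterval | ε / 2 * n ≤ |∑ i ∈ Q r, coinR r i * lab σ i|} ∪
        {x | ε ^ 2 * η / 128 ≤ AS f (Adj A) (initR x) σ t}) ∪
        ({x | ε / 8 * n ≤ Nη f A (initR x) t η} ∩ W) := by
    rintro x ⟨hx, hxW⟩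
    by_contra hcon
    rw [Set.mem_union, Set.mem_union, not_or, not_or] at hcon
    obtain ⟨⟨h1, h2⟩, h3⟩ := hcon
    have h1' : |∑ i ∈ Q x, coinR x i * lab σ i| < ε / 2 * n := not_le.1 h1
    have h2' : AS f (Adj A) (initR x) σ t < ε ^ 2 * η / 128 := not_le.1 h2
    have h3' : ((Nη f A (initR x) t η : ℕ) : ℝ) < ε / 8 * n := by
      by_contra h4
      exact h3 ⟨not_lt.1 h4, hxW⟩
    have h5 := ho n A σ f t x
    have h6 := hs n A σ f θ L (initR x) t η hf hη
    have h7 : |∑ i ∈ univ.filter (fun i => fd f A (initR x) t i = 0), coinR x i * lab σ i| / n <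
        ε / 2 := by
      rw [div_lt_iff₀ hnr]
      exact h1'
    have h8 : ((Nη f A (initR x) t η : ℕ) : ℝ) / n < ε / 8 := by
      rw [div_lt_iff₀ hnr]
      exact h3'
    have h9 : Real.sqrt (2 / η) * Real.sqrt (AS f (Adj A) (initR x) σ t) ≤ ε / 8 := by
      rw [← Real.sqrt_mul (by positivity), Real.sqrt_le_left (by positivity)]
      calc 2 / η * AS f (Adj A) (initR x) σ t ≤ 2 / η * (ε ^ 2 * η / 128) :=
            mul_le_mul_of_nonneg_left h2'.le (by positivity)
        _ = (ε / 8) ^ 2 := by field_simp; ring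
    have h10 : ε ≤ |ov f A σ t x| := hx
    linarith
  have g1 := measureReal_mono (μ := (volume : Measure (Rest n → unitInterval))) hsub
  have g2 := measureReal_union_le (μ := (volume : Measure (Rest n → unitInterval)))
    ({r : Rest n → unitInterval | ε / 2 * n ≤ |∑ i ∈ Q r, coinR r i * lab σ i|} ∪
        {x | ε ^ 2 * η / 128 ≤ AS f (Adj A) (initR x) σ t})
    ({x | ε / 8 * n ≤ Nη f A (initR x) t η} ∩ W)
  have g3 := measureReal_union_le (μ := (volume : Measure (Rest n → unitInterval)))
    {r : Rest n → unitInterval | ε / 2 * n ≤ |∑ i ∈ Q r, coinR r i * lab σ i|}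
    {x | ε ^ 2 * η / 128 ≤ AS f (Adj A) (initR x) σ t}
  have e : 1 / ((ε / 2) ^ 2 * (n : ℝ)) = 4 / (ε ^ 2 * n) := by field_simp; norm_num
  rw [e] at hcoin
  linarith

end Pool.Agent.Helper60.BP
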