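import Pool.Agent.Helper60.BP.St

set_option autoImplicit false

/-! Module D0: the first growth step. -/

namespace Pool.Agent.Helper60.BP

open MeasureTheory Finset Pool.Agent.Helper87.BP Pool.Agent.Helper42.BPX

open Classical

private lemma phi_diff_D0 {τ τ' h : ℝ} (hτ : 0 ≤ τ) (h1 : τ ≤ τ') (h2 : τ' < 1) (hh : |h| ≤ 1) :
    0 ≤ phi τ' h - phi τ h := by
  obtain ⟨ha, hb⟩ := abs_le.1 hh
  have p1 : 0 < 1 + τ * h := by nlinarith
  have p2 : 0 < 1 + τ' * h := by nlinarith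
  rw [phi, phi, div_sub_div _ _ p2.ne' p1.ne']
  apply div_nonneg _ (mul_pos p2 p1).le
  have : (h + τ') * (1 + τ * h) - (1 + τ' * h) * (h + τ) = (τ' - τ) * (1 - h ^ 2) := by ring
  rw [this]
  apply mul_nonneg (by linarith)
  nlinarith

private lemma phi_diff_low_D0 {τ τ' h : ℝ} (hτ : 0 ≤ τ) (h1 : τ ≤ τ') (h2 : τ' < 1)
    (hh : |h| ≤ 1 / 2) : (τ' - τ) / 8 ≤ phi τ' h - phi τ h := by
  obtain ⟨ha, hb⟩ := abs_le.1 hh
  have p1 : 0 < 1 + τ * h := by nlinarith
  have p2 : 0 < 1 + τ' * h := by nlinarith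
  have q1 : 1 + τ * h ≤ 3 / 2 := by nlinarith
  have q2 : 1 + τ' * h ≤ 3 / 2 := by nlinarith
  have q3 : (1 + τ' * h) * (1 + τ * h) ≤ 9 / 4 := by nlinarith
  rw [phi, phi, div_sub_div _ _ p2.ne' p1.ne', le_div_iff₀ (mul_pos p2 p1)]
  have : (h + τ') * (1 + τ * h) - (1 + τ' * h) * (h + τ) = (τ' - τ) * (1 - h ^ 2) := by ring
  rw [this]
  have h3 : 3 / 4 ≤ 1 - h ^ 2 := by nlinarith
  have h4 : 0 ≤ τ' - τ := by linarith
  nlinarith [mul_le_mul_of_nonneg_left q3 h4, mul_le_mul_of_nonneg_left h3 h4]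

private lemma phi_abs_D0 {τ h : ℝ} (hτ : 0 ≤ τ) (h2 : τ < 1) (hh : |h| ≤ 1) :
    |phi τ h| ≤ 1 := by
  obtain ⟨ha, hb⟩ := abs_le.1 hh
  have p1 : 0 < 1 + τ * h := by nlinarith
  rw [phi, abs_div, abs_of_pos p1, div_le_one p1, abs_le]
  constructor <;> nlinarith

private lemma markov_D0 {n : ℕ} (x : Fin n → ℝ) (B S : ℝ) (hB : 0 < B) (h : ∑ i, |x i| ≤ S) :
    ((univ.filter (fun i => B < |x i|)).card : ℝ) ≤ S / B := by
  rw [le_div_iff₀ hB]
  calc ((univ.filter (fun i => B < |x i|)).card : ℝ) * B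
      = ∑ _i ∈ univ.filter (fun i => B < |x i|), B := by rw [Finset.sum_const, nsmul_eq_mul]
    _ ≤ ∑ i ∈ univ.filter (fun i => B < |x i|), |x i| :=
        Finset.sum_le_sum fun i hi => (Finset.mem_filter.1 hi).2.le
    _ ≤ ∑ i, |x i| := Finset.sum_le_sum_of_subset_of_nonneg (Finset.filter_subset _ _)
        fun i _ _ => abs_nonneg _
    _ ≤ S := h

theorem st_D0 (hFd : StFd) : StD0 := by
  intro n A σ f d θ K Rc vt h0 τ τ' hC hh0 hHS hτ hττ hτ1
  set L := Real.artanh θ with hL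
  have hθ := hC.fp.θpos
  have hL0 : 0 < L := lt_of_lt_of_le hθ hC.fp.Lge
  have hd : 0 < d := lt_of_lt_of_le (by norm_num) hC.par.dbig
  have hdL : 0 < 32 * d * L := by positivity
  have hn0 : (0 : ℝ) ≤ n := Nat.cast_nonneg _
  -- the exceptional set
  set E1 := univ.filter (fun i => ((univ.filter (fun k => Adj A k i ∧ |h0 k i| ≤ 1 / 2)).card : ℝ)
    < d / 8 + 1) with hE1
  set E2 := univ.filter (fun i => 32 * d * L < |fd f A (htl A τ h0) 0 i|) with hE2
  set E3 := univ.filter (fun i => 32 * d * L < |fd f A (htl A τ' h0) 0 i|) with hE3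
  have c1 : (E1.card : ℝ) ≤ n / 8 := hHS
  have hquot : 2 * d * L * n / (32 * d * L) = n / 16 := by
    field_simp
    ring
  have c2 : (E2.card : ℝ) ≤ n / 16 := by
    have := markov_D0 (fun i => fd f A (htl A τ h0) 0 i) (32 * d * L) (2 * d * L * n) hdL
      (hFd n A σ f d θ K Rc vt (htl A τ h0) 0 hC)
    rwa [hquot] at this
  have c3 : (E3.card : ℝ) ≤ n / 16 := by
    have := markov_D0 (fun i => fd f A (htl A τ' h0) 0 i) (32 * d * L) (2 * d * L * n) hdL
      (hFd n A σ f d θ K Rc vt (htl A τ' h0) 0 hC)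
    rwa [hquot] at this
  refine ⟨E1 ∪ E2 ∪ E3, ?_, ?_⟩
  · have h1 : (E1 ∪ E2 ∪ E3).card ≤ E1.card + E2.card + E3.card :=
      (Finset.card_union_le _ _).trans (Nat.add_le_add_right (Finset.card_union_le _ _) _)
    have h2 : ((E1 ∪ E2 ∪ E3).card : ℝ) ≤ E1.card + E2.card + E3.card := by exact_mod_cast h1
    linarith
  intro k hk i hki
  rw [Finset.mem_union, Finset.mem_union] at hk
  push Not at hk
  obtain ⟨⟨hk1, hk2⟩, hk3⟩ := hk
  simp only [hE1, hE2, hE3, Finset.mem_filter, Finset.mem_univ, true_and, not_lt] at hk1 hk2 hk3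
  -- messages at time one
  have hmsg0 : ∀ (h : Fin n → Fin n → ℝ) (a b : Fin n), msg f (Adj A) h 0 a b = h a b :=
    fun _ _ _ => rfl
  have hmsg : ∀ h : Fin n → Fin n → ℝ, msg f (Adj A) h 1 k i =
      ∑ l ∈ (nb A k).erase i, f (h l k) := fun h => by
    rw [show (1 : ℕ) = 0 + 1 from rfl, msg_succ]
    rfl
  have hfield : ∀ h : Fin n → Fin n → ℝ, fd f A h 0 k = ∑ l ∈ nb A k, f (h l k) := fun h => by
    rw [fd, field_eq]
    rfl
  have hin : i ∈ nb A k := mem_nb.2 hki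
  have hsub : ∀ h : Fin n → Fin n → ℝ, msg f (Adj A) h 1 k i = fd f A h 0 k - f (h i k) := by
    intro h
    rw [hmsg, hfield, ← Finset.sum_erase_add _ _ hin]
    ring
  have hbd : ∀ h : Fin n → Fin n → ℝ, |fd f A h 0 k| ≤ 32 * d * L →
      |msg f (Adj A) h 1 k i| ≤ 32 * d * L + L := by
    intro h hh
    rw [hsub]
    calc |fd f A h 0 k - f (h i k)| ≤ |fd f A h 0 k| + |f (h i k)| := abs_sub _ _
      _ ≤ 32 * d * L + L := add_le_add hh (hC.fp.bdd _).le
  -- differences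
  have hc1 : 0 < Real.cosh 1 := Real.cosh_pos _
  set δ : ℝ := θ / Real.cosh 1 ^ 2 * ((τ' - τ) / 8) with hδ
  have hδ0 : 0 ≤ δ := by
    have : 0 ≤ τ' - τ := by linarith
    positivity
  have hτ'0 : 0 ≤ τ' := hτ.trans hττ
  have hterm : ∀ l ∈ nb A k, 0 ≤ f (htl A τ' h0 l k) - f (htl A τ h0 l k) := by
    intro l hl
    have hlk : Adj A l k := (mem_nb.1 hl).symm
    rw [htl, htl, if_pos hlk, if_pos hlk]
    have := phi_diff_D0 hτ hττ hτ1 (hh0 l k)
    linarith [hC.fp.mono.monotone (show phi τ (h0 l k) ≤ phi τ' (h0 l k) by linarith)]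
  have hterm2 : ∀ l ∈ nb A k, |h0 l k| ≤ 1 / 2 →
      δ ≤ f (htl A τ' h0 l k) - f (htl A τ h0 l k) := by
    intro l hl hlh
    have hlk : Adj A l k := (mem_nb.1 hl).symm
    rw [htl, htl, if_pos hlk, if_pos hlk]
    have h1 := phi_diff_D0 hτ hττ hτ1 (hh0 l k)
    have h2 := phi_diff_low_D0 hτ hττ hτ1 hlh
    have h3 := hC.fp.low 1 (phi τ (h0 l k)) (phi τ' (h0 l k))
      (phi_abs_D0 hτ (lt_of_le_of_lt hττ hτ1) (hh0 l k)) (phi_abs_D0 hτ'0 hτ1 (hh0 l k))
      (by linarith)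
    refine le_trans ?_ h3
    rw [hδ]
    exact mul_le_mul_of_nonneg_left h2 (by positivity)
  have hdiff : d / 8 * δ ≤ msg f (Adj A) (htl A τ' h0) 1 k i - msg f (Adj A) (htl A τ h0) 1 k i := by
    rw [hmsg, hmsg, ← Finset.sum_sub_distrib]
    set G := (univ.filter (fun l => Adj A l k ∧ |h0 l k| ≤ 1 / 2)) with hG
    have hGc : d / 8 ≤ ((G.erase i).card : ℝ) := by
      have h1 : G.card ≤ (G.erase i).card + 1 := by
        have := Finset.pred_card_le_card_erase (s := G) (a := i)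
        omega
      have h2 : (G.card : ℝ) ≤ (G.erase i).card + 1 := by exact_mod_cast h1
      linarith
    have hGs : G.erase i ⊆ (nb A k).erase i := by
      intro l hl
      rw [Finset.mem_erase, hG, Finset.mem_filter] at hl
      rw [Finset.mem_erase]
      exact ⟨hl.1, mem_nb.2 hl.2.2.1.symm⟩
    calc d / 8 * δ ≤ ((G.erase i).card : ℝ) * δ := mul_le_mul_of_nonneg_right hGc hδ0
      _ = ∑ _l ∈ G.erase i, δ := by rw [Finset.sum_const, nsmul_eq_mul]
      _ ≤ ∑ l ∈ G.erase i, (f (htl A τ' h0 l k) - f (htl A τ h0 l k)) := by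
          refine Finset.sum_le_sum fun l hl => ?_
          have hl' := hGs hl
          rw [Finset.mem_erase, hG, Finset.mem_filter] at hl
          exact hterm2 l (Finset.mem_of_mem_erase hl') hl.2.2.2
      _ ≤ ∑ l ∈ (nb A k).erase i, (f (htl A τ' h0 l k) - f (htl A τ h0 l k)) :=
          Finset.sum_le_sum_of_subset_of_nonneg hGs
            fun l hl _ => hterm l (Finset.mem_of_mem_erase hl)
  have hpos : 0 ≤ d / 8 * δ := by positivity
  have hlow := hC.fp.low (32 * d * L + L) _ _ (hbd _ hk2) (hbd _ hk3)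
    (show msg f (Adj A) (htl A τ h0) 1 k i ≤ msg f (Adj A) (htl A τ' h0) 1 k i by linarith)
  refine le_trans ?_ hlow
  have hc2 : 0 < Real.cosh (32 * d * L + L) := Real.cosh_pos _
  calc cD0 d θ L * (τ' - τ) = θ / Real.cosh (32 * d * L + L) ^ 2 * (d / 8 * δ) := by
        rw [cD0, hδ]
        ring
    _ ≤ _ := mul_le_mul_of_nonneg_left hdiff (by positivity)

end Pool.Agent.Helper60.BP
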