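import Pool.Agent.Helper60.BPM.U
import Pool.Agent.Helper60.BPM.Ch

set_option autoImplicit false

namespace Pool.Agent.Helper60.BP

open MeasureTheory Finset Pool.Agent.Helper87.BP Pool.Agent.Helper42.BPX

open Classical

theorem st_D1 (h : StDisc) : StD1 := by
  intro n A σ f d θ K Rc vt h0 h0' g E s hc hmon hg hE hDL hb hb'
  set L := Real.artanh θ with hL
  have hθ := hc.fp.θpos
  have hLp : 0 < L := lt_of_lt_of_le hθ hc.fp.Lge
  have hL1 : L ≤ 1 := by
    have h1 := hc.fp.Lle
    have h2 := hc.fp.θle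
    linarith
  have hd : 0 < d := lt_of_lt_of_le (by norm_num) hc.par.dbig
  have hn0 : (0 : ℝ) ≤ n := Nat.cast_nonneg n
  obtain ⟨-, -, h3⟩ := h n A σ d vt hc.par.dbig (hc.hvt.trans hc.fp.θle) hc.disc
  have h3 := h3 E (by linarith)
  set E1 := univ.filter (fun i => Rc < |fd f A h0 s i|) with hE1
  set E2 := univ.filter (fun i => Rc < |fd f A h0' s i|) with hE2
  set E3 := univ.filter (fun i => ((nb A i \ E).card : ℝ) < d / 4 + 1) with hE3
  refine ⟨E1 ∪ E2 ∪ E3, ?_, ?_⟩
  · have c1 : ((E1 ∪ E2 ∪ E3).card : ℝ) ≤ (E1.card : ℝ) + E2.card + E3.card := by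
      have := (card_union_le (E1 ∪ E2) E3).trans (Nat.add_le_add_right (card_union_le E1 E2) _)
      exact_mod_cast this
    linarith
  · intro i hi j hij
    simp only [mem_union, not_or] at hi
    obtain ⟨⟨hi1, hi2⟩, hi3⟩ := hi
    have hi1 : |fd f A h0 s i| ≤ Rc := by
      by_contra hcon
      exact hi1 (mem_filter.2 ⟨mem_univ _, not_le.1 hcon⟩)
    have hi2 : |fd f A h0' s i| ≤ Rc := by
      by_contra hcon
      exact hi2 (mem_filter.2 ⟨mem_univ _, not_le.1 hcon⟩)
    have hi3 : d / 4 + 1 ≤ ((nb A i \ E).card : ℝ) := by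
      by_contra hcon
      exact hi3 (mem_filter.2 ⟨mem_univ _, not_le.1 hcon⟩)
    have bd : ∀ k0 : Fin n → Fin n → ℝ, |fd f A k0 s i| ≤ Rc →
        |msg f (Adj A) k0 (s + 1) i j| ≤ Rc + 1 := by
      intro k0 hk0
      rw [msg_fd_U f A k0 s hij.symm]
      refine (abs_sub _ _).trans ?_
      have := (hc.fp.bdd (msg f (Adj A) k0 s j i)).le
      linarith
    have hdiff : d / 4 * g ≤ msg f (Adj A) h0' (s + 1) i j - msg f (Adj A) h0 (s + 1) i j := by
      rw [msg_succ, msg_succ, ← Finset.sum_sub_distrib]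
      have hsub : (nb A i \ E).erase j ⊆ (nb A i).erase j := erase_subset_erase _ sdiff_subset
      have t1 : ∑ k ∈ (nb A i \ E).erase j,
          (f (msg f (Adj A) h0' s k i) - f (msg f (Adj A) h0 s k i))
          ≤ ∑ k ∈ (nb A i).erase j,
          (f (msg f (Adj A) h0' s k i) - f (msg f (Adj A) h0 s k i)) := by
        refine Finset.sum_le_sum_of_subset_of_nonneg hsub fun k hk _ => ?_
        have := hc.fp.mono.monotone (msg_mono_adj hc.fp.mono.monotone hmon s k i
          (mem_nb.1 (mem_of_mem_erase hk)).symm)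
        linarith
      have t2 : (((nb A i \ E).erase j).card : ℝ) * g ≤ ∑ k ∈ (nb A i \ E).erase j,
          (f (msg f (Adj A) h0' s k i) - f (msg f (Adj A) h0 s k i)) := by
        rw [← nsmul_eq_mul]
        refine Finset.card_nsmul_le_sum _ _ _ fun k hk => ?_
        have hk' := mem_sdiff.1 (mem_of_mem_erase hk)
        exact hDL k hk'.2 i (mem_nb.1 hk'.1).symm
      have t3 : (d / 4 : ℝ) ≤ (((nb A i \ E).erase j).card : ℝ) := by
        have : (nb A i \ E).card - 1 ≤ ((nb A i \ E).erase j).card := pred_card_le_card_erase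
        have : (nb A i \ E).card ≤ ((nb A i \ E).erase j).card + 1 := by omega
        have : ((nb A i \ E).card : ℝ) ≤ ((nb A i \ E).erase j).card + 1 := by exact_mod_cast this
        linarith
      exact (mul_le_mul_of_nonneg_right t3 hg).trans (t2.trans t1)
    have hle : msg f (Adj A) h0 (s + 1) i j ≤ msg f (Adj A) h0' (s + 1) i j :=
      msg_mono_adj hc.fp.mono.monotone hmon (s + 1) i j hij
    have hlow := hc.fp.low (Rc + 1) _ _ (bd h0 hi1) (bd h0' hi2) hle
    refine le_trans ?_ hlow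
    have hcp : 0 < Real.cosh (Rc + 1) ^ 2 := by positivity
    calc lam d θ Rc * g = θ / Real.cosh (Rc + 1) ^ 2 * (d / 4 * g) := by
          unfold lam
          field_simp
      _ ≤ _ := mul_le_mul_of_nonneg_left hdiff (by positivity)

end Pool.Agent.Helper60.BP
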