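import Pool.Agent.Helper60.BP.St

set_option autoImplicit false

namespace Pool.Agent.Helper60.BP

open MeasureTheory Finset Pool.Agent.Helper87.BP Pool.Agent.Helper42.BPX

open Classical

theorem st_Dich (hg : StGrow) (hd : StDisc) : StDich := by
  intro n A σ f d θ K Rc vt h0 τ τ' S hn hC hh0 hHS h1 h2 h3 hU hU'
  obtain ⟨E, hE, hDL⟩ := hg n A σ f d θ K Rc vt h0 τ τ' S hC hh0 hHS h1 h2 h3 hU hU' S le_rfl
  have hn' : (0 : ℝ) < n := by exact_mod_cast hn
  have hvt : |vt| ≤ 1 / 100 := hC.hvt.trans hC.par.θle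
  obtain ⟨-, hlow, -⟩ := hd n A σ d vt hC.par.dbig hvt hC.disc
  have hcard : ((E ∪ univ.filter (fun i => ((nb A i).card : ℝ) < d / 2)).card : ℝ) < n := by
    have h4 : ((E ∪ univ.filter (fun i => ((nb A i).card : ℝ) < d / 2)).card : ℝ)
        ≤ (E.card : ℝ) + ((univ.filter (fun i => ((nb A i).card : ℝ) < d / 2)).card : ℝ) := by
      exact_mod_cast card_union_le _ _
    linarith
  have hex : ∃ k, k ∉ E ∪ univ.filter (fun i => ((nb A i).card : ℝ) < d / 2) := by
    by_contra hcon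
    push Not at hcon
    have : E ∪ univ.filter (fun i => ((nb A i).card : ℝ) < d / 2) = univ :=
      Finset.eq_univ_iff_forall.2 hcon
    rw [this, card_univ, Fintype.card_fin] at hcard
    exact lt_irrefl _ hcard
  obtain ⟨k, hk⟩ := hex
  rw [mem_union, not_or] at hk
  have hdeg : d / 2 ≤ ((nb A k).card : ℝ) := by
    by_contra hcon
    exact hk.2 (mem_filter.2 ⟨mem_univ _, not_le.1 hcon⟩)
  have hdb := hC.par.dbig
  have hne : (nb A k).Nonempty := by
    rw [← Finset.card_pos]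
    have : (0 : ℝ) < ((nb A k).card : ℝ) := by linarith
    exact_mod_cast this
  obtain ⟨i, hi⟩ := hne
  have h5 := hDL k hk.1 i (mem_nb.1 hi)
  have h6 := abs_lt.1 (hC.fp.bdd (msg f (Adj A) (htl A τ' h0) (S + 1) k i))
  have h7 := abs_lt.1 (hC.fp.bdd (msg f (Adj A) (htl A τ h0) (S + 1) k i))
  unfold xm at h5
  linarith [h6.2, h7.1]

end Pool.Agent.Helper60.BP
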