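import Pool.Agent.Helper60.BP.St

/-! Module DichP: dichotomy, probability version. -/

set_option autoImplicit false

namespace Pool.Agent.Helper60.BP

open MeasureTheory Finset Pool.Agent.Helper87.BP Pool.Agent.Helper42.BPX

noncomputable section

open Classical

theorem st_DichP (hg : StTiltG) (ht : StTilt) : StDichP := by
  intro n A d U G hn hd hde hU hG hUG hGc
  set μ : Measure (Rest n → unitInterval) := volume with hμ
  have hexp : Real.exp (-(4 * d)) ≤ 1 := Real.exp_le_one_iff.2 (by linarith)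
  by_cases hu : μ.real U ≤ 2 / 3
  · linarith
  · rw [not_le] at hu
    have hn0 : (5 : ℝ) ≤ n := by exact_mod_cast hn
    have hs : 1 < Real.sqrt n := by
      rw [Real.lt_sqrt (by norm_num)]
      linarith
    have hs0 : 0 < Real.sqrt n := by linarith
    set τ : ℝ := 1 / Real.sqrt n with hτ
    have hτ0 : 0 < τ := by positivity
    have hτ1 : |τ| < 1 := by
      rw [abs_of_pos hτ0, hτ, div_lt_one hs0]
      exact hs
    obtain ⟨hm, -, -, -⟩ := hg n A τ hτ1
    set V : Set (Rest n → unitInterval) := tlt A τ ⁻¹' U with hV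
    have hVm : MeasurableSet V := hm hU
    have h1 : μ.real (V ∩ U) ≤ 1 / 6 := by
      refine le_trans (measureReal_mono ?_ (measure_ne_top _ _)) hGc
      intro r hr
      rw [Set.mem_compl_iff]
      intro hrG
      exact hUG r hrG ⟨hr.2, hr.1⟩
    have h2 : μ.real (V \ U) ≤ μ.real Uᶜ :=
      measureReal_mono (fun r hr => hr.2) (measure_ne_top _ _)
    have h3 : μ.real Uᶜ = 1 - μ.real U := probReal_compl_eq_one_sub hU
    have h4 : μ.real (V ∩ U) + μ.real (V \ U) = μ.real V :=
      measureReal_inter_add_diff hU (measure_ne_top _ _)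
    have h5 : μ.real Vᶜ = 1 - μ.real V := probReal_compl_eq_one_sub hVm
    have h6 : (1 : ℝ) / 2 ≤ μ.real Vᶜ := by linarith
    have h7 := ht n A d τ Uᶜ (by omega) hd (by rw [abs_of_pos hτ0]) hde hU.compl
    have h8 : tlt A τ ⁻¹' Uᶜ = Vᶜ := by rw [hV, Set.preimage_compl]
    rw [h8] at h7
    have h9 : (1 : ℝ) / 2 ≤ Real.exp (2 * d) * Real.sqrt (μ.real Uᶜ) := h6.trans h7
    have h10 : (1 / 2 : ℝ) ^ 2 ≤ (Real.exp (2 * d) * Real.sqrt (μ.real Uᶜ)) ^ 2 :=
      pow_le_pow_left₀ (by norm_num) h9 2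
    rw [mul_pow, Real.sq_sqrt measureReal_nonneg, ← Real.exp_nat_mul] at h10
    have h11 : Real.exp (((2 : ℕ) : ℝ) * (2 * d)) = Real.exp (4 * d) := by
      congr 1
      push_cast
      ring
    rw [h11, h3] at h10
    have h12 : Real.exp (-(4 * d)) * Real.exp (4 * d) = 1 := by
      rw [← Real.exp_add]
      simp
    have h13 := mul_le_mul_of_nonneg_left h10 (Real.exp_pos (-(4 * d))).le
    rw [← mul_assoc, h12, one_mul] at h13
    linarith

end

end Pool.Agent.Helper60.BP
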