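import Pool.Agent.Helper60.BP.St

set_option autoImplicit false

namespace Pool.Agent.Helper60.BP

open MeasureTheory Finset Pool.Agent.Helper87.BP Pool.Agent.Helper42.BPX

open Classical

namespace DiscM

variable {n : ℕ}

lemma abs_lab (σ : Fin n → Bool) (i : Fin n) : |lab σ i| = 1 := by
  unfold lab
  split_ifs <;> simp

lemma sum_adj (A : Finset (Sym2 (Fin n))) (Q E : Finset (Fin n)) :
    ∑ i, ∑ k, (if Adj A i k then (if i ∈ Q then (1 : ℝ) else 0) * (if k ∈ E then 0 else 1) else 0)
      = ∑ i ∈ Q, ((nb A i \ E).card : ℝ) := by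
  have h1 : ∀ i, ∑ k, (if Adj A i k then (if i ∈ Q then (1 : ℝ) else 0) *
      (if k ∈ E then 0 else 1) else 0) = if i ∈ Q then ((nb A i \ E).card : ℝ) else 0 := by
    intro i
    by_cases hi : i ∈ Q
    · have e5 : (if i ∈ Q then ((nb A i \ E).card : ℝ) else 0) = ((nb A i \ E).card : ℝ) :=
        if_pos hi
      rw [e5, Finset.card_eq_sum_ones, Nat.cast_sum]
      have e : nb A i \ E = univ.filter (fun k => Adj A i k ∧ k ∉ E) := by
        ext k
        simp only [mem_sdiff, mem_nb, mem_filter, mem_univ, true_and]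
      rw [e, Finset.sum_filter]
      refine Finset.sum_congr rfl fun k _ => ?_
      by_cases h2 : Adj A i k <;> by_cases h3 : k ∈ E <;> simp [hi, h2, h3]
    · have e6 : ∀ k, (if Adj A i k then (if i ∈ Q then (1 : ℝ) else 0) *
          (if k ∈ E then 0 else 1) else 0) = 0 := fun k => by simp [hi]
      rw [Finset.sum_congr rfl fun k _ => e6 k, Finset.sum_const_zero, if_neg hi]
  rw [Finset.sum_congr rfl fun i _ => h1 i, Finset.sum_ite_mem, univ_inter]

lemma key {A : Finset (Sym2 (Fin n))} {σ : Fin n → Bool} {d vt : ℝ} (hn : 0 < n) (hd : 0 ≤ d)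
    (hv : |vt| ≤ 1 / 100) (hD : Disc A σ d vt) (Q E : Finset (Fin n)) :
    |∑ i ∈ Q, ((nb A i \ E).card : ℝ) - d / n * (Q.card * (n - E.card))| ≤
      d / n * (1 / 100) * (Q.card * (n - E.card)) + 9 * Real.sqrt d * n := by
  have hnr : (0 : ℝ) < n := by exact_mod_cast hn
  have h1 := hD (fun i => if i ∈ Q then 1 else 0) (fun k => if k ∈ E then 0 else 1)
    (fun i => by split_ifs <;> simp) (fun k => by split_ifs <;> simp)
  rw [sum_adj] at h1
  have e1 : ∑ i : Fin n, (if i ∈ Q then (1 : ℝ) else 0) = Q.card := by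
    rw [Finset.sum_ite_mem, univ_inter, Finset.sum_const, nsmul_eq_mul, mul_one]
  have e2 : ∑ k : Fin n, (if k ∈ E then (0 : ℝ) else 1) = n - E.card := by
    have h2 : ∀ k : Fin n, (if k ∈ E then (0 : ℝ) else 1) = 1 - if k ∈ E then 1 else 0 := by
      intro k
      split_ifs <;> simp
    rw [Finset.sum_congr rfl fun k _ => h2 k, Finset.sum_sub_distrib, Finset.sum_ite_mem,
      univ_inter, Finset.sum_const, Finset.sum_const, nsmul_eq_mul, nsmul_eq_mul, mul_one, mul_one,
      Finset.card_univ, Fintype.card_fin]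
  have e3 : |∑ i, lab σ i * (if i ∈ Q then (1 : ℝ) else 0)| ≤ Q.card := by
    rw [← e1]
    refine (Finset.abs_sum_le_sum_abs _ _).trans (Finset.sum_le_sum fun i _ => ?_)
    rw [abs_mul, abs_lab, one_mul]
    split_ifs <;> simp
  have e4 : |∑ k, lab σ k * (if k ∈ E then (0 : ℝ) else 1)| ≤ n - E.card := by
    rw [← e2]
    refine (Finset.abs_sum_le_sum_abs _ _).trans (Finset.sum_le_sum fun i _ => ?_)
    rw [abs_mul, abs_lab, one_mul]
    split_ifs <;> simp
  rw [e1, e2] at h1
  set P := ∑ i, lab σ i * (if i ∈ Q then (1 : ℝ) else 0) with hP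
  set R := ∑ k, lab σ k * (if k ∈ E then (0 : ℝ) else 1) with hR
  have h2 : |d * vt / n * (P * R)| ≤ d / n * (1 / 100) * (Q.card * (n - E.card)) := by
    rw [abs_mul, abs_mul P R, abs_div, abs_mul, abs_of_nonneg hd, abs_of_pos hnr]
    have h3 : |P| * |R| ≤ Q.card * (n - E.card) :=
      mul_le_mul e3 e4 (abs_nonneg _) (Nat.cast_nonneg _)
    have h4 : d * |vt| / n ≤ d / n * (1 / 100) := by
      rw [div_mul_eq_mul_div]
      exact div_le_div_of_nonneg_right (mul_le_mul_of_nonneg_left hv hd) hnr.le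
    exact mul_le_mul h4 h3 (mul_nonneg (abs_nonneg _) (abs_nonneg _)) (by positivity)
  have h5 : ∑ i ∈ Q, ((nb A i \ E).card : ℝ) - d / n * (Q.card * (n - E.card)) =
      (∑ i ∈ Q, ((nb A i \ E).card : ℝ) - d / n * (Q.card * (n - E.card))
        - d * vt / n * (P * R)) + d * vt / n * (P * R) := by ring
  rw [h5]
  exact (abs_add_le _ _).trans (by linarith)

lemma sqrt_le {d : ℝ} (hd : 10 ^ 10 ≤ d) : Real.sqrt d ≤ d / 10 ^ 5 := by
  have h0 : 0 ≤ d := le_trans (by norm_num) hd
  rw [Real.sqrt_le_left (by positivity)]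
  nlinarith

end DiscM

open DiscM in
/-- deterministic consequences of small discrepancy -/
theorem st_Disc : StDisc := by
  intro n A σ d vt hd hv hD
  have hd0 : 0 < d := lt_of_lt_of_le (by norm_num) hd
  have hs := sqrt_le hd
  have hs0 := Real.sqrt_nonneg d
  rcases Nat.eq_zero_or_pos n with h0 | hn
  · subst h0
    refine ⟨?_, ?_, fun E _ => ?_⟩
    · simp [de]
    · simp
    · simp
  have hnr : (0 : ℝ) < n := by exact_mod_cast hn
  have hdn : d / n * n = d := by field_simp
  have hsn : Real.sqrt d * n ≤ d * n / 10 ^ 5 := by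
    have := mul_le_mul_of_nonneg_right hs hnr.le
    linarith
  refine ⟨?_, ?_, fun E hE => ?_⟩
  · have h1 := (abs_le.1 (key hn hd0.le hv hD univ ∅)).2
    have e1 : ∑ i, ((nb A i \ ∅).card : ℝ) = (de A : ℝ) := by
      unfold de
      rw [Nat.cast_sum]
      exact Finset.sum_congr rfl fun i _ => by rw [sdiff_empty]
    rw [e1, Finset.card_univ, Fintype.card_fin, Finset.card_empty, Nat.cast_zero, sub_zero] at h1
    have e2 : d / n * ((n : ℝ) * n) = d * n := by rw [← mul_assoc, hdn]
    have e3 : d / n * (1 / 100) * ((n : ℝ) * n) = d * n / 100 := by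
      calc d / n * (1 / 100) * ((n : ℝ) * n) = (d / n * (n * n)) / 100 := by ring
        _ = d * n / 100 := by rw [e2]
    rw [e2, e3] at h1
    have := mul_pos hd0 hnr
    nlinarith
  · set Q := univ.filter (fun i => ((nb A i).card : ℝ) < d / 2) with hQ
    have h1 := (abs_le.1 (key hn hd0.le hv hD Q ∅)).1
    have h2 : ∑ i ∈ Q, ((nb A i \ ∅).card : ℝ) ≤ d / 2 * Q.card := by
      rw [mul_comm, ← nsmul_eq_mul]
      refine Finset.sum_le_card_nsmul _ _ _ fun i hi => ?_
      rw [sdiff_empty]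
      exact (mem_filter.1 hi).2.le
    rw [Finset.card_empty, Nat.cast_zero, sub_zero] at h1
    have e2 : d / n * ((Q.card : ℝ) * n) = d * Q.card := by
      rw [mul_comm (Q.card : ℝ), ← mul_assoc, hdn]
    have e3 : d / n * (1 / 100) * ((Q.card : ℝ) * n) = d * Q.card / 100 := by
      calc d / n * (1 / 100) * ((Q.card : ℝ) * n) = (d / n * (Q.card * n)) / 100 := by ring
        _ = d * Q.card / 100 := by rw [e2]
    rw [e2, e3] at h1
    have h3 : d * Q.card * (49 / 100) ≤ 9 * (d * n / 10 ^ 5) := by nlinarith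
    have h4 : d * (Q.card * (49 / 100)) ≤ d * (9 * (n / 10 ^ 5)) := by linarith
    have h5 := le_of_mul_le_mul_left h4 hd0
    linarith
  · set Q := univ.filter (fun i => ((nb A i \ E).card : ℝ) < d / 4 + 1) with hQ
    have h1 := (abs_le.1 (key hn hd0.le hv hD Q E)).1
    have h2 : ∑ i ∈ Q, ((nb A i \ E).card : ℝ) ≤ (d / 4 + 1) * Q.card := by
      rw [mul_comm, ← nsmul_eq_mul]
      exact Finset.sum_le_card_nsmul _ _ _ fun i hi => (mem_filter.1 hi).2.le
    have hq0 : (0 : ℝ) ≤ Q.card := Nat.cast_nonneg _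
    have h3 : d / n * ((Q.card : ℝ) * (n / 2)) ≤ d / n * (Q.card * (n - E.card)) := by
      apply mul_le_mul_of_nonneg_left _ (by positivity)
      apply mul_le_mul_of_nonneg_left _ hq0
      linarith
    have e2 : d / n * ((Q.card : ℝ) * (n / 2)) = d * Q.card / 2 := by
      calc d / n * ((Q.card : ℝ) * (n / 2)) = (d / n * n) * Q.card / 2 := by ring
        _ = d * Q.card / 2 := by rw [hdn]
    rw [e2] at h3
    have h4 : d * Q.card * (495 / 1000) ≤ (d / 4 + 1) * Q.card + 9 * (d * n / 10 ^ 5) := by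
      nlinarith
    have h5 : (1 : ℝ) * Q.card ≤ d / 10000 * Q.card :=
      mul_le_mul_of_nonneg_right (by linarith) hq0
    have h6 : d * (Q.card * (2449 / 10000)) ≤ d * (9 * (n / 10 ^ 5)) := by nlinarith
    have h7 := le_of_mul_le_mul_left h6 hd0
    linarith

end Pool.Agent.Helper60.BP
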