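import Pool.Agent.Helper60.BP.St

set_option autoImplicit false

/-! Proof of `StDiscP`: the cut norm discrepancy of the block model is at most `9 √d n` with high
probability.  Union bound over pairs of sign vectors with the exponential moment. -/

namespace Pool.Agent.Helper60.BP

open MeasureTheory Finset Pool.Agent.Helper87.BP Pool.Agent.Helper42.BPX

noncomputable section

open Classical

namespace DP

/-- sign of a boolean -/
def sb (b : Bool) : ℝ := if b then 1 else -1

lemma sb_abs (b : Bool) : |sb b| = 1 := by cases b <;> simp [sb]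

section linear

variable {n : ℕ}

lemma lin (L x : Fin n → ℝ) (hx : ∀ i, |x i| ≤ 1) :
    |∑ i, x i * L i| ≤ ∑ i, sb (decide (0 ≤ L i)) * L i := by
  refine (Finset.abs_sum_le_sum_abs _ _).trans (Finset.sum_le_sum fun i _ => ?_)
  have h1 : sb (decide (0 ≤ L i)) * L i = |L i| := by
    by_cases h : 0 ≤ L i
    · simp [sb, h, abs_of_nonneg h]
    · simp [sb, h, abs_of_neg (not_le.1 h)]
  rw [h1, abs_mul]
  have := abs_nonneg (L i)
  nlinarith [hx i]

/-- a bilinear form is extremal at sign vectors -/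
lemma bil (M : Fin n → Fin n → ℝ) (C : ℝ)
    (h : ∀ x y : Fin n → Bool, |∑ i, ∑ k, M i k * (sb (x i) * sb (y k))| ≤ C)
    (x y : Fin n → ℝ) (hx : ∀ i, |x i| ≤ 1) (hy : ∀ i, |y i| ≤ 1) :
    |∑ i, ∑ k, M i k * (x i * y k)| ≤ C := by
  have e1 : ∑ i, ∑ k, M i k * (x i * y k) = ∑ i, x i * ∑ k, M i k * y k := by
    refine Finset.sum_congr rfl fun i _ => ?_
    rw [Finset.mul_sum]
    exact Finset.sum_congr rfl fun k _ => by ring
  rw [e1]
  refine (lin _ x hx).trans ?_
  have e2 : ∀ x' : Fin n → Bool, ∑ i, sb (x' i) * ∑ k, M i k * y k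
      = ∑ k, y k * ∑ i, M i k * sb (x' i) := by
    intro x'
    simp only [Finset.mul_sum]
    rw [Finset.sum_comm]
    exact Finset.sum_congr rfl fun i _ => Finset.sum_congr rfl fun k _ => by ring
  rw [e2 (fun i => decide (0 ≤ ∑ k, M i k * y k))]
  refine (le_abs_self _).trans ((lin _ y hy).trans ?_)
  refine (le_abs_self _).trans ?_
  have e3 : ∀ x' y' : Fin n → Bool, ∑ k, sb (y' k) * ∑ i, M i k * sb (x' i)
      = ∑ i, ∑ k, M i k * (sb (x' i) * sb (y' k)) := by
    intro x' y'
    simp only [Finset.mul_sum]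
    rw [Finset.sum_comm]
    exact Finset.sum_congr rfl fun i _ => Finset.sum_congr rfl fun k _ => by ring
  rw [e3 (fun i => decide (0 ≤ ∑ k, M i k * y k))
    (fun k => decide (0 ≤ ∑ i, M i k * sb (decide (0 ≤ ∑ k, M i k * y k))))]
  exact h _ _

/-- symmetrisation -/
def cc (g : Fin n → Fin n → ℝ) : Sym2 (Fin n) → ℝ :=
  Sym2.lift ⟨fun i k => g i k + g k i, fun _ _ => add_comm _ _⟩

lemma cc_mk (g : Fin n → Fin n → ℝ) (i k : Fin n) : cc g s(i, k) = g i k + g k i := rfl

lemma dsum (g : Fin n → Fin n → ℝ) {A : Finset (Sym2 (Fin n))} (hA : A ⊆ prs n) :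
    ∑ i, ∑ k, (if Adj A i k then g i k else 0) = ∑ e ∈ A, cc g e := by
  have h1 : ∀ i k : Fin n, (if Adj A i k then g i k else 0)
      = ∑ e ∈ A, (if s(i, k) = e then g i k else 0) := by
    intro i k
    rw [Finset.sum_ite_eq]
    by_cases h : s(i, k) ∈ A
    · rw [if_pos h, if_pos ⟨mem_prs.1 (hA h), h⟩]
    · rw [if_neg h, if_neg (fun h' => h h'.2)]
  have h2 : ∑ i, ∑ k, (if Adj A i k then g i k else 0)
      = ∑ e ∈ A, ∑ i, ∑ k, (if s(i, k) = e then g i k else 0) := by
    rw [Finset.sum_comm' (t' := univ) (s' := fun _ => A) (by simp)]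
    refine Finset.sum_congr rfl fun i _ => ?_
    rw [Finset.sum_comm' (t' := univ) (s' := fun _ => A) (by simp)]
    exact Finset.sum_congr rfl fun k _ => h1 i k
  rw [h2]
  refine Finset.sum_congr rfl fun e he => ?_
  have hne := hA he
  revert hne
  induction e using Sym2.ind with
  | _ u v =>
    intro hne
    have huv : u ≠ v := mem_prs.1 hne
    have h3 : ∀ i k : Fin n, (if s(i, k) = s(u, v) then g i k else 0)
        = (if u = i then (if v = k then g i k else 0) else 0)
          + (if v = i then (if u = k then g i k else 0) else 0) := by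
      intro i k
      by_cases a1 : u = i
      · subst a1
        by_cases a2 : v = k
        · subst a2
          simp [huv.symm]
        · have : ¬ (s(u, k) = s(u, v)) := by
            rw [Sym2.eq_iff]
            rintro (⟨_, h⟩ | ⟨h, _⟩)
            · exact a2 h.symm
            · exact huv h
          simp [this, a2, huv.symm]
      · by_cases a3 : v = i
        · subst a3
          by_cases a4 : u = k
          · subst a4
            simp [Sym2.eq_swap, a1]
          · have : ¬ (s(v, k) = s(u, v)) := by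
              rw [Sym2.eq_iff]
              rintro (⟨h, _⟩ | ⟨_, h⟩)
              · exact a1 h.symm
              · exact a4 h.symm
            simp [this, a1, a4]
        · have : ¬ (s(i, k) = s(u, v)) := by
            rw [Sym2.eq_iff]
            rintro (⟨h, _⟩ | ⟨h, _⟩)
            · exact a1 h.symm
            · exact a3 h.symm
          simp [this, a1, a3]
    simp only [h3, Finset.sum_add_distrib]
    have h4 : ∀ (u v : Fin n), ∑ i, ∑ k, (if u = i then (if v = k then g i k else 0) else 0)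
        = g u v := by
      intro u v
      rw [Finset.sum_eq_single u]
      · simp
      · intro b _ hb
        simp [Ne.symm hb]
      · intro h
        exact absurd (mem_univ _) h
    rw [h4, h4, cc_mk]

end linear

section general

variable {ι : Type*} [DecidableEq ι]

lemma EE_exp (p : ι → ℝ) (S : Finset ι) (u : ι → ℝ) :
    EE p S (fun A => Real.exp (∑ e ∈ A, u e)) = ∏ e ∈ S, (1 + p e * (Real.exp (u e) - 1)) := by
  have : ∀ x ∈ S, 1 + p x * (Real.exp (u x) - 1) = p x * Real.exp (u x) + (1 - p x) :=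
    fun x _ => by ring
  rw [Finset.prod_congr rfl this, Finset.prod_add]
  unfold EE wt
  refine Finset.sum_congr rfl fun A _ => ?_
  beta_reduce
  rw [Finset.prod_mul_distrib, Real.exp_sum]
  ring

lemma tail {p : ι → ℝ} {S : Finset ι} (h0 : ∀ x ∈ S, 0 ≤ p x) (h1 : ∀ x ∈ S, p x ≤ 1)
    (c : ι → ℝ) (r V T : ℝ) (hr : 0 ≤ r) (hc : ∀ e ∈ S, |r * c e| ≤ 1)
    (hV : ∑ e ∈ S, p e * (r * c e) ^ 2 ≤ V) :
    Pr p S (fun A => T ≤ ∑ e ∈ A, c e - ∑ e ∈ S, p e * c e) ≤ Real.exp (V - r * T) := by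
  set K : ℝ := ∑ e ∈ S, p e * (r * c e) with hK
  have hK' : r * ∑ e ∈ S, p e * c e = K := by
    rw [hK, Finset.mul_sum]
    exact Finset.sum_congr rfl fun e _ => by ring
  have e1 : ∀ A ⊆ S, T ≤ ∑ e ∈ A, c e - ∑ e ∈ S, p e * c e →
      Real.exp (r * T) ≤ Real.exp (-K) * Real.exp (∑ e ∈ A, r * c e) := by
    intro A _ h
    rw [← Real.exp_add, ← Finset.mul_sum]
    refine Real.exp_le_exp.2 ?_
    have := mul_le_mul_of_nonneg_left h hr
    linarith
  refine (Pr_mono h0 h1 e1).trans ((Pr_ge_le h0 h1 (F := fun A =>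
    Real.exp (-K) * Real.exp (∑ e ∈ A, r * c e)) (fun A _ => by positivity)
    (Real.exp_pos _)).trans ?_)
  rw [div_le_iff₀ (Real.exp_pos _), ← Real.exp_add, EE_mul, EE_exp]
  have e2 : ∏ e ∈ S, (1 + p e * (Real.exp (r * c e) - 1))
      ≤ Real.exp (∑ e ∈ S, (p e * (r * c e) + p e * (r * c e) ^ 2)) := by
    rw [Real.exp_sum]
    refine Finset.prod_le_prod (fun e he => ?_) (fun e he => ?_)
    · have a1 := mul_nonneg (h0 e he) (Real.exp_pos (r * c e)).le
      have a2 := h1 e he
      nlinarith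
    · have a1 := Real.add_one_le_exp (p e * (r * c e) + p e * (r * c e) ^ 2)
      have a2 := (abs_le.1 (Real.abs_exp_sub_one_sub_id_le (hc e he))).2
      have a3 := mul_le_mul_of_nonneg_left a2 (h0 e he)
      nlinarith
  rw [Finset.sum_add_distrib, ← hK] at e2
  calc Real.exp (-K) * ∏ e ∈ S, (1 + p e * (Real.exp (r * c e) - 1))
      ≤ Real.exp (-K) * Real.exp (K + ∑ e ∈ S, p e * (r * c e) ^ 2) :=
        mul_le_mul_of_nonneg_left e2 (Real.exp_pos _).le
    _ = Real.exp (∑ e ∈ S, p e * (r * c e) ^ 2) := by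
        rw [← Real.exp_add]; congr 1; ring
    _ ≤ _ := Real.exp_le_exp.2 (by linarith)

lemma tail2 {p : ι → ℝ} {S : Finset ι} (h0 : ∀ x ∈ S, 0 ≤ p x) (h1 : ∀ x ∈ S, p x ≤ 1)
    (c : ι → ℝ) (r V T : ℝ) (hr : 0 ≤ r) (hc : ∀ e ∈ S, |r * c e| ≤ 1)
    (hV : ∑ e ∈ S, p e * (r * c e) ^ 2 ≤ V) :
    Pr p S (fun A => T ≤ |∑ e ∈ A, c e - ∑ e ∈ S, p e * c e|)
      ≤ 2 * Real.exp (V - r * T) := by
  have e1 := tail h0 h1 c r V T hr hc hV
  have e2 := tail h0 h1 (fun e => - c e) r V T hr
    (fun e he => by rw [mul_neg, abs_neg]; exact hc e he)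
    (by
      refine le_trans (le_of_eq ?_) hV
      exact Finset.sum_congr rfl fun e _ => by ring)
  have e3 : ∀ A ⊆ S, T ≤ |∑ e ∈ A, c e - ∑ e ∈ S, p e * c e| →
      (T ≤ ∑ e ∈ A, c e - ∑ e ∈ S, p e * c e ∨
        T ≤ ∑ e ∈ A, - c e - ∑ e ∈ S, p e * - c e) := by
    intro A _ h
    have e4 : ∑ e ∈ A, - c e - ∑ e ∈ S, p e * - c e
        = -(∑ e ∈ A, c e - ∑ e ∈ S, p e * c e) := by
      simp only [mul_neg, Finset.sum_neg_distrib]
      ring
    rw [e4]
    exact le_abs.1 h
  refine (Pr_mono h0 h1 e3).trans ((Pr_or_le h0 h1 _ _).trans ?_)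
  linarith

end general

section main

variable {n : ℕ}

lemma card_prs_le (n : ℕ) : 2 * ((prs n).card : ℝ) ≤ n * n := by
  have h := dsum (n := n) (fun _ _ => 1) (A := prs n) (Finset.Subset.refl _)
  have h2 : ∑ e ∈ prs n, cc (fun _ _ : Fin n => (1 : ℝ)) e = 2 * (prs n).card := by
    rw [Finset.sum_congr rfl (g := fun _ => (2 : ℝ))]
    · rw [Finset.sum_const, nsmul_eq_mul, mul_comm]
    · intro e _
      induction e using Sym2.ind with
      | _ u v => rw [cc_mk]; norm_num
  rw [← h2, ← h]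
  calc ∑ i : Fin n, ∑ k : Fin n, (if Adj (prs n) i k then (1 : ℝ) else 0)
      ≤ ∑ _i : Fin n, ∑ _k : Fin n, (1 : ℝ) := by
        refine Finset.sum_le_sum fun i _ => Finset.sum_le_sum fun k _ => ?_
        split_ifs <;> norm_num
    _ = n * n := by simp

lemma pe_val (a b : ℝ) (σ : Fin n → Bool) (i k : Fin n) :
    pe n a b σ s(i, k) = (a + b) / 2 / n + (a - b) / 2 / n * (lab σ i * lab σ k) := by
  change (if σ i = σ k then a / n else b / n) = _
  unfold lab
  cases σ i <;> cases σ k <;> simp <;> ring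

lemma form {a b : ℝ} (hab : 0 < a + b) (σ : Fin n → Bool) (A : Finset (Sym2 (Fin n)))
    (x y : Fin n → ℝ) :
    ∑ i, ∑ k, (if Adj A i k then x i * y k else 0)
      - (a + b) / 2 / n * ((∑ i, x i) * ∑ k, y k)
      - (a + b) / 2 * ((a - b) / (a + b)) / n * ((∑ i, lab σ i * x i) * ∑ k, lab σ k * y k)
    = ∑ i, ∑ k, ((if Adj A i k then 1 else 0) - pe n a b σ s(i, k)) * (x i * y k) := by
  have e0 : (a + b) / 2 * ((a - b) / (a + b)) = (a - b) / 2 := by field_simp
  rw [e0, Finset.sum_mul_sum, Finset.sum_mul_sum]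
  simp only [Finset.mul_sum, ← Finset.sum_sub_distrib]
  refine Finset.sum_congr rfl fun i _ => Finset.sum_congr rfl fun k _ => ?_
  rw [pe_val]
  by_cases h : Adj A i k
  · rw [if_pos h, if_pos h]; ring
  · rw [if_neg h, if_neg h]; ring

lemma split {A : Finset (Sym2 (Fin n))} (hA : A ⊆ prs n) (p : Sym2 (Fin n) → ℝ)
    (g : Fin n → Fin n → ℝ) :
    ∑ i, ∑ k, ((if Adj A i k then 1 else 0) - p s(i, k)) * g i k
    = (∑ e ∈ A, cc g e - ∑ e ∈ prs n, p e * cc g e) - ∑ i, p s(i, i) * g i i := by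
  have e1 : ∑ e ∈ prs n, p e * cc g e = ∑ e ∈ prs n, cc (fun i k => p s(i, k) * g i k) e := by
    refine Finset.sum_congr rfl fun e _ => ?_
    induction e using Sym2.ind with
    | _ u v =>
      rw [cc_mk, cc_mk, Sym2.eq_swap (a := v) (b := u)]
      ring
  have e2 : ∑ i, p s(i, i) * g i i
      = ∑ i, ∑ k, (if i = k then p s(i, k) * g i k else 0) := by
    refine Finset.sum_congr rfl fun i _ => ?_
    rw [Finset.sum_ite_eq, if_pos (mem_univ _)]
  rw [e1, e2, ← dsum g hA, ← dsum (fun i k => p s(i, k) * g i k) (Finset.Subset.refl _)]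
  simp only [← Finset.sum_sub_distrib]
  refine Finset.sum_congr rfl fun i _ => Finset.sum_congr rfl fun k _ => ?_
  have e3 : Adj (prs n) i k ↔ i ≠ k := ⟨fun h => h.1, fun h => ⟨h, mem_prs.2 h⟩⟩
  by_cases h : i = k
  · have h1 : ¬ Adj A i k := fun h' => h'.1 h
    have h2 : ¬ Adj (prs n) i k := fun h' => h'.1 h
    rw [if_neg h1, if_neg h1, if_neg h2, if_pos h]; ring
  · rw [if_pos (e3.2 h), if_neg h]
    by_cases h3 : Adj A i k
    · rw [if_pos h3, if_pos h3]; ring
    · rw [if_neg h3, if_neg h3]; ring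

lemma one_pair {a b : ℝ} (hb : 0 ≤ b) (hab : b ≤ a) (h8 : 8 ≤ a + b) (hn : 0 < n) (han : a ≤ n)
    (σ : Fin n → Bool) (x y : Fin n → Bool) :
    Pr (pe n a b σ) (prs n) (fun A => 9 * Real.sqrt ((a + b) / 2) * n
      < |∑ i, ∑ k, ((if Adj A i k then 1 else 0) - pe n a b σ s(i, k)) * (sb (x i) * sb (y k))|)
    ≤ 2 * Real.exp (-(4 * n)) := by
  have hn' : (0 : ℝ) < n := by exact_mod_cast hn
  have ha : 0 ≤ a := hb.trans hab
  have hp : ∀ e, 0 ≤ pe n a b σ e ∧ pe n a b σ e ≤ a / n := by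
    intro e
    induction e using Sym2.ind with
    | _ u v =>
      change 0 ≤ (if σ u = σ v then a / n else b / n) ∧
        (if σ u = σ v then a / n else b / n) ≤ a / n
      split_ifs
      · exact ⟨by positivity, le_rfl⟩
      · exact ⟨by positivity, div_le_div_of_nonneg_right hab hn'.le⟩
  have hp0 : ∀ e ∈ prs n, 0 ≤ pe n a b σ e := fun e _ => (hp e).1
  have hp1 : ∀ e ∈ prs n, pe n a b σ e ≤ 1 := fun e _ =>
    (hp e).2.trans ((div_le_one hn').2 han)
  set d := (a + b) / 2 with hd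
  have hd4 : 4 ≤ d := by rw [hd]; linarith
  have had : a ≤ 2 * d := by rw [hd]; linarith
  set q := Real.sqrt d with hq
  have hq2 : q ^ 2 = d := Real.sq_sqrt (by linarith)
  have hq0 : 2 ≤ q := by
    rw [hq]
    exact Real.le_sqrt_of_sq_le (by linarith)
  have hqp : 0 < q := by linarith
  set g : Fin n → Fin n → ℝ := fun i k => sb (x i) * sb (y k) with hg
  have hg1 : ∀ i k, |g i k| = 1 := by
    intro i k
    rw [hg]
    simp only [abs_mul, sb_abs, mul_one]
  have hc : ∀ e, |cc g e| ≤ 2 := by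
    intro e
    induction e using Sym2.ind with
    | _ u v =>
      rw [cc_mk]
      refine (abs_add_le _ _).trans ?_
      rw [hg1, hg1]; norm_num
  have hrc : ∀ e, |1 / q * cc g e| ≤ 2 / q := by
    intro e
    rw [abs_mul, abs_of_pos (by positivity : 0 < 1 / q)]
    calc 1 / q * |cc g e| ≤ 1 / q * 2 := mul_le_mul_of_nonneg_left (hc e) (by positivity)
      _ = 2 / q := by ring
  have key := tail2 hp0 hp1 (cc g) (1 / q) (4 * n) (8 * q * n) (by positivity)
    (fun e _ => (hrc e).trans ((div_le_one hqp).2 hq0)) (by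
      have h1 : ∀ e ∈ prs n, pe n a b σ e * (1 / q * cc g e) ^ 2 ≤ a / n * (4 / d) := by
        intro e _
        refine mul_le_mul (hp e).2 ?_ (sq_nonneg _) (by positivity)
        rw [← sq_abs]
        calc |1 / q * cc g e| ^ 2 ≤ (2 / q) ^ 2 :=
              pow_le_pow_left₀ (abs_nonneg _) (hrc e) 2
          _ = 4 / d := by rw [div_pow, hq2]; norm_num
      refine (Finset.sum_le_sum h1).trans ?_
      rw [Finset.sum_const, nsmul_eq_mul]
      have h2 := card_prs_le n
      have h3 : a / n * (4 / d) = a * 4 / (n * d) := by rw [div_mul_div_comm]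
      rw [h3, mul_div_assoc', div_le_iff₀ (by positivity)]
      have h4 : ((prs n).card : ℝ) * (a * 4) ≤ (n * n / 2) * ((2 * d) * 4) := by
        refine mul_le_mul (by linarith) (by linarith) (by positivity) (by positivity)
      linarith)
  have e1 : 4 * (n : ℝ) - 1 / q * (8 * q * n) = -(4 * n) := by field_simp; ring
  rw [e1] at key
  refine (Pr_mono hp0 hp1 (fun A hA h => ?_)).trans key
  rw [split hA (pe n a b σ) g] at h
  have h5 : |∑ i, pe n a b σ s(i, i) * g i i| ≤ a := by
    refine (Finset.abs_sum_le_sum_abs _ _).trans ?_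
    calc ∑ i, |pe n a b σ s(i, i) * g i i| ≤ ∑ _i : Fin n, a / n := by
          refine Finset.sum_le_sum fun i _ => ?_
          rw [abs_mul, hg1, mul_one, abs_of_nonneg (hp _).1]
          exact (hp _).2
      _ = a := by simp; field_simp
  have h6 := abs_sub (∑ e ∈ A, cc g e - ∑ e ∈ prs n, pe n a b σ e * cc g e)
    (∑ i, pe n a b σ s(i, i) * g i i)
  have h7 : a ≤ q * n := by nlinarith
  nlinarith

end main

end DP

open DP in
theorem st_DiscP : StDiscP := by
  intro a b δ hb hab h8 hδ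
  obtain ⟨N1, hN1⟩ := exists_nat_ge a
  obtain ⟨N2, hN2⟩ := exists_pow_lt_of_lt_one (show (0 : ℝ) < δ / 2 by positivity)
    (show (1 / 4 : ℝ) < 1 by norm_num)
  refine ⟨max (max N1 N2) 1, fun n hn σ => ?_⟩
  have hn1 : N1 ≤ n := (le_max_left _ _).trans ((le_max_left _ _).trans hn)
  have hn2 : N2 ≤ n := (le_max_right _ _).trans ((le_max_left _ _).trans hn)
  have hn3 : 0 < n := (le_max_right (max N1 N2) 1).trans hn
  have han : a ≤ n := hN1.trans (by exact_mod_cast hn1)
  have hn' : (0 : ℝ) < n := by exact_mod_cast hn3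
  have ha : 0 ≤ a := hb.trans hab
  have hp : ∀ e, 0 ≤ pe n a b σ e ∧ pe n a b σ e ≤ 1 := by
    intro e
    have h1 : a / n ≤ 1 := (div_le_one hn').2 han
    have h2 : b / n ≤ a / n := div_le_div_of_nonneg_right hab hn'.le
    induction e using Sym2.ind with
    | _ u v =>
      change 0 ≤ (if σ u = σ v then a / n else b / n) ∧
        (if σ u = σ v then a / n else b / n) ≤ 1
      split_ifs
      · exact ⟨by positivity, h1⟩
      · exact ⟨by positivity, h2.trans h1⟩
  have hp0 : ∀ e ∈ prs n, 0 ≤ pe n a b σ e := fun e _ => (hp e).1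
  have hp1 : ∀ e ∈ prs n, pe n a b σ e ≤ 1 := fun e _ => (hp e).2
  have h1 : ∀ A ⊆ prs n, ¬ Disc A σ ((a + b) / 2) ((a - b) / (a + b)) →
      ∃ z ∈ (univ : Finset ((Fin n → Bool) × (Fin n → Bool))),
        9 * Real.sqrt ((a + b) / 2) * n < |∑ i, ∑ k, ((if Adj A i k then 1 else 0)
          - pe n a b σ s(i, k)) * (sb (z.1 i) * sb (z.2 k))| := by
    intro A _ h
    by_contra hcon
    push Not at hcon
    apply h
    intro x y hx hy
    rw [form (by linarith : 0 < a + b)]
    exact bil (fun i k => (if Adj A i k then 1 else 0) - pe n a b σ s(i, k)) _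
      (fun x y => hcon (x, y) (mem_univ _)) x y hx hy
  refine (Pr_mono hp0 hp1 h1).trans ((Pr_exists_le hp0 hp1 _ _).trans ?_)
  refine (Finset.sum_le_sum fun z _ => one_pair hb hab h8 hn3 han σ z.1 z.2).trans ?_
  rw [Finset.sum_const, nsmul_eq_mul, card_univ]
  have hcard : (Fintype.card ((Fin n → Bool) × (Fin n → Bool)) : ℝ) = 4 ^ n := by
    rw [Fintype.card_prod, Fintype.card_fun, Fintype.card_bool, Fintype.card_fin]
    push_cast
    rw [← mul_pow]; norm_num
  rw [hcard]
  have he : Real.exp (-(4 * (n : ℝ))) ≤ (1 / 16) ^ n := by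
    have h2 : Real.exp (-(4 * (n : ℝ))) = (Real.exp (-1) ^ 4) ^ n := by
      rw [← pow_mul, ← Real.exp_nat_mul]
      congr 1
      push_cast
      ring
    rw [h2]
    refine pow_le_pow_left₀ (by positivity) ?_ n
    have h3 : Real.exp (-1) ≤ 1 / 2 := by
      rw [Real.exp_neg, ← one_div]
      refine one_div_le_one_div_of_le (by norm_num) ?_
      have := Real.add_one_le_exp 1
      linarith
    calc Real.exp (-1) ^ 4 ≤ (1 / 2) ^ 4 := pow_le_pow_left₀ (Real.exp_pos _).le h3 4
      _ = 1 / 16 := by norm_num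
  calc (4 : ℝ) ^ n * (2 * Real.exp (-(4 * n))) ≤ 4 ^ n * (2 * (1 / 16) ^ n) := by gcongr
    _ = 2 * (1 / 4) ^ n := by
        rw [mul_left_comm, ← mul_pow]; norm_num
    _ ≤ 2 * (1 / 4) ^ N2 := by
        have := pow_le_pow_of_le_one (by norm_num : (0 : ℝ) ≤ 1 / 4) (by norm_num) hn2
        linarith
    _ ≤ δ := by linarith

end

end Pool.Agent.Helper60.BP
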