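import Pool.Agent.Helper60.BP.StAsm

/-! BPB module Early: bounded times. -/

set_option autoImplicit false

namespace Pool.Agent.Helper60.BP

open MeasureTheory Finset Pool.Agent.Helper87.BP Pool.Agent.Helper42.BPX

open Classical

theorem sg_abs_Early {n : ℕ} (hn : 0 < n) (f : ℝ → ℝ) (A : Finset (Sym2 (Fin n)))
    (h0 : Fin n → Fin n → ℝ) (σ : Fin n → Bool) (t : ℕ) : |sg f A h0 σ t| ≤ 1 := by
  have hn0 : (0 : ℝ) < n := by exact_mod_cast hn
  unfold sg
  rw [abs_div, abs_of_pos hn0, div_le_one hn0]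
  refine (Finset.abs_sum_le_sum_abs _ _).trans ?_
  calc ∑ i : Fin n, |lab σ i * Real.sign (fd f A h0 t i)| ≤ ∑ _i : Fin n, (1 : ℝ) := by
        refine Finset.sum_le_sum fun i _ => ?_
        rw [abs_mul]
        have h1 : |lab σ i| = 1 := by
          unfold lab; split_ifs <;> simp
        have h2 : |Real.sign (fd f A h0 t i)| ≤ 1 := by
          rcases Real.sign_apply_eq (fd f A h0 t i) with h | h | h <;> rw [h] <;> simp
        rw [h1, one_mul]
        exact h2
    _ = n := by simp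

theorem graph_Early (hfl : StFlip) (hp : StPairs) (hc : StCoin) (ho : StOv) (hm : StMeas)
    (n : ℕ) (hn : 0 < n) (A : Finset (Sym2 (Fin n))) (σ : Fin n → Bool) (f : ℝ → ℝ)
    (hfm : Measurable f) (hfo : ∀ x, f (-x) = -f x) (ε : ℝ) (hε : 0 < ε) (t Δ : ℕ) (hΔ : 1 ≤ Δ) :
    (volume : Measure (Rest n → unitInterval)).real {r | ε ≤ |ov f A σ t r|}
      ≤ 4 / (ε ^ 2 * n) + 4 / ε ^ 2 * (((2 * t + 1) * (Δ : ℝ) ^ (2 * t)) / n
        + (2 * t + 1) ^ 2 * (Δ : ℝ) ^ (2 * t) / n * (hd A Δ : ℝ)) := by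
  have hn0 : (0 : ℝ) < n := by exact_mod_cast hn
  obtain ⟨hm1, -, -, -, hm2, -⟩ := hm n A σ f t hfm
  set S1 : Set (Rest n → unitInterval) := {r | ε / 2 * n ≤
    |∑ i ∈ univ.filter (fun i => fd f A (initR r) t i = 0), coinR r i * lab σ i|} with hS1
  set S2 : Set (Rest n → unitInterval) := {r | ε / 2 ≤ |sg f A (initR r) σ t|} with hS2
  have hsub : {r : Rest n → unitInterval | ε ≤ |ov f A σ t r|} ⊆ S1 ∪ S2 := by
    intro r hr
    have h1 := ho n A σ f t r
    have h2 : ε ≤ |ov f A σ t r| := hr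
    by_cases h3 : ε / 2 ≤ |sg f A (initR r) σ t|
    · exact Or.inr h3
    · left
      rw [not_le] at h3
      show ε / 2 * n ≤ _
      rw [← le_div_iff₀ hn0]
      linarith
  have hle : (volume : Measure (Rest n → unitInterval)).real {r | ε ≤ |ov f A σ t r|} ≤
      (volume : Measure (Rest n → unitInterval)).real S1 +
      (volume : Measure (Rest n → unitInterval)).real S2 :=
    (measureReal_mono hsub).trans (measureReal_union_le _ _)
  have hb1 : (volume : Measure (Rest n → unitInterval)).real S1 ≤ 4 / (ε ^ 2 * n) := by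
    refine (hc n σ (ε / 2) (fun r => univ.filter (fun i => fd f A (initR r) t i = 0)) hn
      (by positivity) ?_ ?_).trans (le_of_eq ?_)
    · intro i
      have : {r : Rest n → unitInterval | i ∈ univ.filter (fun i => fd f A (initR r) t i = 0)} =
          (fun r : Rest n → unitInterval => fd f A (initR r) t i) ⁻¹' {0} := by
        ext r
        simp
      rw [this]
      exact hm1 i (measurableSet_singleton 0)
    · intro r r' h
      have h1 : initR r = initR r' := by
        funext k i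
        simp only [initR, h (k, i)]
      simp only [h1]
    · field_simp
      norm_num
  have hb2 : (volume : Measure (Rest n → unitInterval)).real S2 ≤
      4 / ε ^ 2 * ∫ r : Rest n → unitInterval, sg f A (initR r) σ t ^ 2 := by
    have hint : Integrable (fun r : Rest n → unitInterval => sg f A (initR r) σ t ^ 2) := by
      refine Integrable.of_bound (hm2.pow_const 2).aestronglyMeasurable 1 ?_
      refine Filter.Eventually.of_forall fun r => ?_
      have h1 := sg_abs_Early hn f A (initR r) σ t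
      rw [Real.norm_eq_abs, abs_pow]
      exact pow_le_one₀ (abs_nonneg _) h1
    have h1 := mul_meas_ge_le_integral_of_nonneg (μ := (volume : Measure (Rest n → unitInterval)))
      (f := fun r => sg f A (initR r) σ t ^ 2)
      (Filter.Eventually.of_forall fun r => sq_nonneg _) hint ((ε / 2) ^ 2)
    have h2 : {x : Rest n → unitInterval | (ε / 2) ^ 2 ≤ sg f A (initR x) σ t ^ 2} = S2 := by
      ext r
      simp only [hS2, Set.mem_setOf_eq]
      rw [← sq_abs (sg f A (initR r) σ t)]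
      exact pow_le_pow_iff_left₀ (by positivity) (abs_nonneg _) (by norm_num)
    rw [h2] at h1
    rw [div_mul_eq_mul_div, le_div_iff₀ (by positivity)]
    nlinarith [h1]
  have hb3 := hfl n A σ f t hfm hfo
  have hb4 : ((univ.filter (fun x : Fin n × Fin n =>
        ¬ Disjoint (ballt A t x.1) (ballt A t x.2))).card : ℝ) ≤
      n * ((2 * t + 1) * (Δ : ℝ) ^ (2 * t)) +
        n * ((2 * t + 1) ^ 2 * (Δ : ℝ) ^ (2 * t) * (hd A Δ : ℝ)) := by
    have := hp n A t Δ hΔ
    exact_mod_cast this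
  have hb5 : ∫ r : Rest n → unitInterval, sg f A (initR r) σ t ^ 2 ≤
      ((2 * t + 1) * (Δ : ℝ) ^ (2 * t)) / n
        + (2 * t + 1) ^ 2 * (Δ : ℝ) ^ (2 * t) / n * (hd A Δ : ℝ) := by
    refine hb3.trans ?_
    rw [div_le_iff₀ (by positivity)]
    refine hb4.trans (le_of_eq ?_)
    field_simp
  have hb6 := mul_le_mul_of_nonneg_left hb5 (show (0 : ℝ) ≤ 4 / ε ^ 2 by positivity)
  linarith

theorem st_Early (hl : StLink) (hf : StF) (hfl : StFlip) (hp : StPairs) (hc : StCoin) (ho : StOv)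
    (hm : StMeas) (hpp : StPP) : StEarly := by
  intro a b ε δ hb hab hθ hε hδ t
  have hθ0 : 0 < (a - b) / (a + b) := div_pos (by linarith) (by linarith)
  have hF := hf ((a - b) / (a + b)) hθ0 hθ
  generalize hff : fBP ((a - b) / (a + b)) = f at hF
  have ha : 0 < a := by linarith
  -- choice of the degree bound
  have hlim : Filter.Tendsto (fun m : ℕ => 4 / ε ^ 2 * ((2 * t + 1) ^ 2 * Real.exp (3 * a)) *
      ((m : ℝ) ^ (2 * t) / 2 ^ m)) Filter.atTop (nhds 0) := by
    have h1 := (tendsto_pow_const_div_const_pow_of_one_lt (2 * t) (r := (2 : ℝ))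
      (by norm_num)).const_mul (4 / ε ^ 2 * ((2 * t + 1) ^ 2 * Real.exp (3 * a)))
    rw [mul_zero] at h1
    exact h1
  obtain ⟨Δ, hΔ1, hΔ⟩ := ((hlim.eventually (ge_mem_nhds (half_pos hδ))).and
    (Filter.eventually_ge_atTop 1)).exists
  obtain ⟨N, hN⟩ := exists_nat_ge (max a
    ((4 / ε ^ 2 * (1 + (2 * t + 1) * (Δ : ℝ) ^ (2 * t))) / (δ / 2)))
  refine ⟨N + 1, fun n hn => ?_⟩
  have hnN : (N : ℝ) ≤ n := by
    have : N ≤ n := by omega
    exact_mod_cast this
  have hn0' : 0 < n := by omega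
  have hn0 : (0 : ℝ) < n := by exact_mod_cast hn0'
  have han : a ≤ n := (le_max_left _ _).trans (hN.trans hnN)
  have hbig : (4 / ε ^ 2 * (1 + (2 * t + 1) * (Δ : ℝ) ^ (2 * t))) / (δ / 2) ≤ n :=
    (le_max_right _ _).trans (hN.trans hnN)
  rw [div_le_iff₀ (by positivity)] at hbig
  rw [hl n t a b ε hb.le hab.le han hn0', hff]
  have hterm : ∀ σ : Fin n → Bool, EE (pe n a b σ) (prs n) (fun A =>
      (volume : Measure (Rest n → unitInterval)).real {r | ε ≤ |ov f A σ t r|}) ≤ δ := by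
    intro σ
    have hPP := hpp n a b σ hb.le hab.le han hn0'
    refine (EE_mono (fun x _ => hPP.nn x) (fun x _ => hPP.le1 x)
      (fun A _ => graph_Early hfl hp hc ho hm n hn0' A σ f hF.meas hF.odd ε hε t Δ hΔ)).trans ?_
    rw [EE_add, EE_const, EE_mul, EE_add, EE_const, EE_mul]
    have h1 := EE_hd hPP hn0' Δ
    have h2 : (2 * t + 1) ^ 2 * (Δ : ℝ) ^ (2 * t) / n *
        EE (pe n a b σ) (prs n) (fun A => (hd A Δ : ℝ)) ≤
        (2 * t + 1) ^ 2 * (Δ : ℝ) ^ (2 * t) / n * (n * (Real.exp (3 * a) / 2 ^ Δ)) :=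
      mul_le_mul_of_nonneg_left h1 (by positivity)
    have h3 : 4 / ε ^ 2 * ((2 * t + 1) ^ 2 * (Δ : ℝ) ^ (2 * t) / n *
        (n * (Real.exp (3 * a) / 2 ^ Δ))) ≤ δ / 2 := by
      refine le_trans (le_of_eq ?_) hΔ1
      field_simp
    have h4 : 4 / (ε ^ 2 * n) + 4 / ε ^ 2 * (((2 * t + 1) * (Δ : ℝ) ^ (2 * t)) / n) ≤ δ / 2 := by
      have h5 : 4 / (ε ^ 2 * n) + 4 / ε ^ 2 * (((2 * t + 1) * (Δ : ℝ) ^ (2 * t)) / n) =
          (4 / ε ^ 2 * (1 + (2 * t + 1) * (Δ : ℝ) ^ (2 * t))) / n := by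
        field_simp
      rw [h5, div_le_iff₀ hn0]
      linarith
    have h6 := mul_le_mul_of_nonneg_left h2 (show (0 : ℝ) ≤ 4 / ε ^ 2 by positivity)
    rw [mul_add]
    linarith
  rw [div_le_iff₀ (by positivity)]
  calc ∑ σ : Fin n → Bool, EE (pe n a b σ) (prs n) (fun A =>
      (volume : Measure (Rest n → unitInterval)).real {r | ε ≤ |ov f A σ t r|})
      ≤ ∑ _σ : Fin n → Bool, δ := Finset.sum_le_sum fun σ _ => hterm σ
    _ = δ * 2 ^ n := by
      rw [Finset.sum_const, Finset.card_univ, nsmul_eq_mul]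
      simp [mul_comm]

end Pool.Agent.Helper60.BP
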