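import Pool.Agent.Helper60.BP.St

/-!
# Analytic properties of `fBP θ`
-/

set_option autoImplicit false

namespace Pool.Agent.Helper60.BP

open MeasureTheory Finset Pool.Agent.Helper87.BP Pool.Agent.Helper42.BPX

noncomputable section

open Classical

lemma f_hasDeriv_tanh (x : ℝ) : HasDerivAt Real.tanh (1 / Real.cosh x ^ 2) x := by
  have h : Real.tanh = fun x => Real.sinh x / Real.cosh x := by
    funext x; exact Real.tanh_eq_sinh_div_cosh x
  rw [h]
  have hc : Real.cosh x ≠ 0 := (Real.cosh_pos x).ne'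
  have := (Real.hasDerivAt_sinh x).div (Real.hasDerivAt_cosh x) hc
  refine this.congr_deriv ?_
  have h1 := Real.cosh_sq x
  congr 1
  nlinarith

lemma f_one_sub_tanh_sq (x : ℝ) : 1 - Real.tanh x ^ 2 = 1 / Real.cosh x ^ 2 := by
  rw [Real.tanh_eq_sinh_div_cosh, div_pow]
  have hc : Real.cosh x ≠ 0 := (Real.cosh_pos x).ne'
  have h1 := Real.cosh_sq x
  field_simp
  nlinarith

lemma f_hasDeriv_artanh {u : ℝ} (h1 : -1 < u) (h2 : u < 1) :
    HasDerivAt Real.artanh (1 / (1 - u ^ 2)) u := by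
  have hp : 0 < 1 - u := by linarith
  have hq : 0 < 1 + u := by linarith
  have e : (fun x => 1 / 2 * Real.log ((1 + x) / (1 - x))) =ᶠ[nhds u] Real.artanh := by
    filter_upwards [Ioo_mem_nhds h1 h2] with x hx
    exact (Real.artanh_eq_half_log ⟨hx.1.le, hx.2.le⟩).symm
  refine HasDerivAt.congr_of_eventuallyEq ?_ e.symm
  have d1 : HasDerivAt (fun x : ℝ => (1 + x) / (1 - x))
      ((1 * (1 - u) - (1 + u) * (-1)) / (1 - u) ^ 2) u := by
    have a1 : HasDerivAt (fun x : ℝ => 1 + x) 1 u := (hasDerivAt_id u).const_add 1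
    have a2 : HasDerivAt (fun x : ℝ => 1 - x) (-1) u := (hasDerivAt_id u).const_sub 1
    exact a1.div a2 hp.ne'
  have d2 := (d1.log (div_pos hq hp).ne').const_mul (1 / 2)
  refine d2.congr_deriv ?_
  have hpq : 1 - u ^ 2 ≠ 0 := by nlinarith
  have := hp.ne'
  have := hq.ne'
  field_simp
  ring

lemma f_tanh_strictMono : StrictMono Real.tanh := by
  intro x y hxy
  by_contra h
  push Not at h
  have := Real.artanh_le_artanh (Real.neg_one_lt_tanh y) (Real.tanh_lt_one x) h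
  rw [Real.artanh_tanh, Real.artanh_tanh] at this
  linarith

/-- the derivative of `fBP θ` -/
def f_der (θ x : ℝ) : ℝ := 1 / (1 - (θ * Real.tanh x) ^ 2) * (θ * (1 / Real.cosh x ^ 2))

lemma f_hasDeriv {θ : ℝ} (h0 : 0 < θ) (h1 : θ ≤ 1) (x : ℝ) :
    HasDerivAt (fBP θ) (f_der θ x) x := by
  have hm := mul_tanh_mem (θ := θ) (abs_le.2 ⟨by linarith, h1⟩) x
  exact (f_hasDeriv_artanh hm.1 hm.2).comp x ((f_hasDeriv_tanh x).const_mul θ)

lemma f_der_le {θ : ℝ} (h0 : 0 < θ) (h1 : θ ≤ 1) (x : ℝ) : f_der θ x ≤ θ := by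
  unfold f_der
  rw [← f_one_sub_tanh_sq]
  have ht := (sq_lt_one_iff_abs_lt_one (Real.tanh x)).mpr (Real.abs_tanh_lt_one x)
  have h2 : 0 ≤ Real.tanh x ^ 2 := sq_nonneg _
  have h3 : θ ^ 2 ≤ 1 := by nlinarith
  have h4 : θ ^ 2 * Real.tanh x ^ 2 ≤ Real.tanh x ^ 2 := by nlinarith
  have hp : 0 < 1 - (θ * Real.tanh x) ^ 2 := by
    rw [mul_pow]; linarith
  rw [one_div, inv_mul_le_iff₀ hp]
  nlinarith

lemma f_der_ge {θ : ℝ} (h0 : 0 < θ) (h1 : θ ≤ 1) (x : ℝ) : θ / Real.cosh x ^ 2 ≤ f_der θ x := by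
  unfold f_der
  have ht := (sq_lt_one_iff_abs_lt_one (Real.tanh x)).mpr (Real.abs_tanh_lt_one x)
  have h3 : θ ^ 2 ≤ 1 := by nlinarith
  have h2 : 0 ≤ Real.tanh x ^ 2 := sq_nonneg _
  have h4' : θ ^ 2 * Real.tanh x ^ 2 ≤ Real.tanh x ^ 2 := by nlinarith
  have hp : 0 < 1 - (θ * Real.tanh x) ^ 2 := by
    rw [mul_pow]; linarith
  have h4 : 1 ≤ 1 / (1 - (θ * Real.tanh x) ^ 2) := by
    rw [le_div_iff₀ hp]
    nlinarith [sq_nonneg (θ * Real.tanh x)]
  have h5 : 0 ≤ θ * (1 / Real.cosh x ^ 2) := by positivity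
  calc θ / Real.cosh x ^ 2 = 1 * (θ * (1 / Real.cosh x ^ 2)) := by ring
    _ ≤ _ := by
      exact mul_le_mul_of_nonneg_right h4 h5

lemma f_der_nonneg {θ : ℝ} (h0 : 0 < θ) (h1 : θ ≤ 1) (x : ℝ) : 0 ≤ f_der θ x :=
  le_trans (by positivity) (f_der_ge h0 h1 x)

lemma f_slope {θ : ℝ} (h0 : 0 < θ) (h1 : θ ≤ 1) {x y : ℝ} (hxy : x < y) :
    ∃ c, x < c ∧ c < y ∧ fBP θ y - fBP θ x = f_der θ c * (y - x) := by
  obtain ⟨c, hc, he⟩ := exists_hasDerivAt_eq_slope (fBP θ) (f_der θ) hxy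
    (fun z _ => (f_hasDeriv h0 h1 z).continuousAt.continuousWithinAt)
    (fun z _ => f_hasDeriv h0 h1 z)
  refine ⟨c, hc.1, hc.2, ?_⟩
  rw [he, div_mul_cancel₀]
  exact (sub_pos.2 hxy).ne'

lemma f_artanh_slope {θ : ℝ} (h0 : 0 < θ) (h1 : θ < 1) :
    ∃ c, 0 < c ∧ c < θ ∧ Real.artanh θ = 1 / (1 - c ^ 2) * θ := by
  obtain ⟨c, hc, he⟩ := exists_hasDerivAt_eq_slope Real.artanh (fun u => 1 / (1 - u ^ 2)) h0
    (fun z hz => (f_hasDeriv_artanh (by linarith [hz.1]) (by linarith [hz.2])).continuousAt.continuousWithinAt)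
    (fun z hz => f_hasDeriv_artanh (by linarith [hz.1]) (by linarith [hz.2]))
  refine ⟨c, hc.1, hc.2, ?_⟩
  rw [he, Real.artanh_zero, sub_zero, sub_zero, div_mul_cancel₀]
  exact h0.ne'

lemma f_le_artanh {θ : ℝ} (h0 : 0 < θ) (h1 : θ < 1) : θ ≤ Real.artanh θ := by
  obtain ⟨c, hc0, hc1, he⟩ := f_artanh_slope h0 h1
  rw [he]
  have hp : 0 < 1 - c ^ 2 := by nlinarith
  have h4 : 1 ≤ 1 / (1 - c ^ 2) := by
    rw [le_div_iff₀ hp]
    nlinarith
  nlinarith

lemma f_artanh_le {θ : ℝ} (h0 : 0 < θ) (h1 : θ ≤ 1 / 100) :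
    Real.artanh θ ≤ (101 / 100) * θ := by
  obtain ⟨c, hc0, hc1, he⟩ := f_artanh_slope h0 (by linarith)
  rw [he]
  have hp : 0 < 1 - c ^ 2 := by nlinarith
  have h4 : 1 / (1 - c ^ 2) ≤ 101 / 100 := by
    rw [div_le_iff₀ hp]
    nlinarith
  nlinarith

lemma f_tanh_two : (91 : ℝ) / 100 ≤ Real.tanh 2 := by
  rw [Real.tanh_eq]
  have h1 : (2.7 : ℝ) < Real.exp 1 := lt_trans (by norm_num) Real.exp_one_gt_d9
  have h2 : Real.exp 2 = Real.exp 1 * Real.exp 1 := by rw [← Real.exp_add]; norm_num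
  have h3 : (7 : ℝ) ≤ Real.exp 2 := by rw [h2]; nlinarith
  have h4 : Real.exp (-2) = (Real.exp 2)⁻¹ := Real.exp_neg 2
  rw [h4]
  have h5 : (Real.exp 2)⁻¹ ≤ 1 / 7 := by
    rw [one_div]
    exact inv_anti₀ (by norm_num) h3
  have h6 : 0 < (Real.exp 2)⁻¹ := by positivity
  rw [le_div_iff₀ (by linarith)]
  linarith

lemma f_abs_lt {θ : ℝ} (h0 : 0 < θ) (h1 : θ < 1) (x : ℝ) : |fBP θ x| < Real.artanh θ := by
  have key : ∀ x, fBP θ x < Real.artanh θ := by
    intro x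
    unfold fBP
    have hm := mul_tanh_mem (θ := θ) (abs_le.2 ⟨by linarith, h1.le⟩) x
    apply Real.artanh_lt_artanh hm.1 h1
    nlinarith [Real.tanh_lt_one x]
  rw [abs_lt]
  refine ⟨?_, key x⟩
  have h2 := key (-x)
  rw [fBP_odd θ x (abs_le.2 ⟨by linarith, h1.le⟩)] at h2
  linarith

lemma f_image {θ : ℝ} (h0 : 0 < θ) (h1 : θ < 1) :
    fBP θ '' Set.univ = Set.Ioo (-(Real.artanh θ)) (Real.artanh θ) := by
  ext v
  constructor
  · rintro ⟨x, _, rfl⟩
    exact abs_lt.1 (f_abs_lt h0 h1 x)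
  · rintro ⟨hv1, hv2⟩
    have ht : Real.tanh (Real.artanh θ) = θ := Real.tanh_artanh ⟨by linarith, h1⟩
    have a2 : Real.tanh v < θ := by
      rw [← ht]; exact f_tanh_strictMono hv2
    have a1 : -θ < Real.tanh v := by
      rw [← ht, ← Real.tanh_neg]; exact f_tanh_strictMono hv1
    refine ⟨Real.artanh (Real.tanh v / θ), trivial, ?_⟩
    unfold fBP
    have b1 : -1 < Real.tanh v / θ := by rw [lt_div_iff₀ h0]; linarith
    have b2 : Real.tanh v / θ < 1 := by rw [div_lt_iff₀ h0]; linarith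
    rw [Real.tanh_artanh ⟨b1, b2⟩, mul_div_cancel₀ _ h0.ne', Real.artanh_tanh]

lemma f_strictMono {θ : ℝ} (h0 : 0 < θ) (h1 : θ < 1) : StrictMono (fBP θ) := by
  intro x y hxy
  unfold fBP
  have hx := mul_tanh_mem (θ := θ) (abs_le.2 ⟨by linarith, h1.le⟩) x
  have hy := mul_tanh_mem (θ := θ) (abs_le.2 ⟨by linarith, h1.le⟩) y
  apply Real.artanh_lt_artanh hx.1 hy.2
  exact mul_lt_mul_of_pos_left (f_tanh_strictMono hxy) h0

lemma f_cv {θ : ℝ} (h0 : 0 < θ) (h1 : θ < 1) (G : ℝ → ENNReal) (hG : Measurable G) :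
    ∫⁻ v in Set.Ioo (-(Real.artanh θ)) (Real.artanh θ), G v
      ≤ ENNReal.ofReal θ * ∫⁻ x, G (fBP θ x) := by
  rw [← f_image h0 h1, lintegral_image_eq_lintegral_abs_deriv_mul MeasurableSet.univ
    (fun x _ => (f_hasDeriv h0 h1.le x).hasDerivWithinAt) (f_strictMono h0 h1).injective.injOn,
    setLIntegral_univ]
  have e := lintegral_const_mul (μ := volume) (ENNReal.ofReal θ) (hG.comp (measurable_fBP θ))
  refine le_trans (lintegral_mono (fun x => ?_)) e.le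
  refine mul_le_mul_left ?_ _
  rw [abs_of_nonneg (f_der_nonneg h0 h1.le x)]
  exact ENNReal.ofReal_le_ofReal (f_der_le h0 h1.le x)

theorem st_F : StF := by
  intro θ h0 h1
  have h1' : θ < 1 := by linarith
  have ha : |θ| ≤ 1 := abs_le.2 ⟨by linarith, h1'.le⟩
  refine
    { θpos := h0
      θle := h1
      Lge := f_le_artanh h0 h1'
      Lle := f_artanh_le h0 h1
      odd := fun x => fBP_odd θ x ha
      mono := f_strictMono h0 h1'
      lip := ?_
      bdd := f_abs_lt h0 h1'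
      low := ?_
      big := ?_
      meas := measurable_fBP θ
      cv := fun G hG => f_cv h0 h1' G hG }
  · intro x y hxy
    rcases hxy.eq_or_lt with h | h
    · subst h; simp
    · obtain ⟨c, _, _, he⟩ := f_slope h0 h1'.le h
      rw [he]
      exact mul_le_mul_of_nonneg_right (f_der_le h0 h1'.le c) (by linarith)
  · intro B x y hx hy hxy
    rcases hxy.eq_or_lt with h | h
    · subst h; simp
    · obtain ⟨c, hc1, hc2, he⟩ := f_slope h0 h1'.le h
      rw [he]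
      refine mul_le_mul_of_nonneg_right (le_trans ?_ (f_der_ge h0 h1'.le c)) (by linarith)
      have hcB : |c| ≤ |B| := by
        have hB : 0 ≤ B := le_trans (abs_nonneg x) hx
        rw [abs_of_nonneg hB, abs_le]
        rw [abs_le] at hx hy
        constructor
        · linarith
        · linarith
      have h2 : Real.cosh c ≤ Real.cosh B := Real.cosh_le_cosh.2 hcB
      have h3 : 0 < Real.cosh c := Real.cosh_pos c
      have h4 : Real.cosh c ^ 2 ≤ Real.cosh B ^ 2 := by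
        apply pow_le_pow_left₀ h3.le h2
      exact div_le_div_of_nonneg_left h0.le (by positivity) h4
  · intro x hx
    have h2 : fBP θ 2 ≤ fBP θ x := (f_strictMono h0 h1').monotone hx
    have h3 : θ * Real.tanh 2 ≤ fBP θ 2 := by
      unfold fBP
      have hm := mul_tanh_mem (θ := θ) ha 2
      apply f_le_artanh _ hm.2
      have := f_tanh_two
      positivity
    have h4 := f_tanh_two
    have h5 := f_artanh_le h0 h1
    nlinarith

end

end Pool.Agent.Helper60.BP
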