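import Pool.Agent.Helper60.BP.St

set_option autoImplicit false

/-! Module Fd: the fields are bounded on average. -/

namespace Pool.Agent.Helper60.BP

open MeasureTheory Finset Pool.Agent.Helper87.BP Pool.Agent.Helper42.BPX

open Classical

theorem st_Fd (h : StDisc) : StFd := by
  intro n A σ f d θ K Rc vt h0 s hC
  have hL0 : 0 ≤ Real.artanh θ := hC.fp.θpos.le.trans hC.fp.Lge
  have h1 : (de A : ℝ) ≤ 2 * d * n :=
    (h n A σ d vt hC.par.dbig (hC.hvt.trans hC.fp.θle) hC.disc).1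
  have h2 : ∀ i, |fd f A h0 s i| ≤ Real.artanh θ * (nb A i).card := by
    intro i
    rw [fd, field_eq]
    refine (abs_sum_le_sum_abs _ _).trans ?_
    calc ∑ k ∈ nb A i, |f (msg f (Adj A) h0 s k i)|
        ≤ ∑ k ∈ nb A i, Real.artanh θ := sum_le_sum fun k _ => (hC.fp.bdd _).le
      _ = _ := by rw [sum_const, nsmul_eq_mul, mul_comm]
  calc ∑ i, |fd f A h0 s i| ≤ ∑ i, Real.artanh θ * (nb A i).card := sum_le_sum fun i _ => h2 i
    _ = Real.artanh θ * (de A : ℝ) := by rw [← mul_sum, de]; push_cast; rfl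
    _ ≤ Real.artanh θ * (2 * d * n) := mul_le_mul_of_nonneg_left h1 hL0
    _ = _ := by ring

end Pool.Agent.Helper60.BP
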