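import Pool.Agent.Helper60.BP.St

set_option autoImplicit false

/-! Module Flip: bounded times, the signs at distant vertices are independent and symmetric. -/

namespace Pool.Agent.Helper60.BP

open MeasureTheory Finset Pool.Agent.Helper87.BP Pool.Agent.Helper42.BPX

noncomputable section

open Classical

variable {n : ℕ}

private lemma nbs_mono_Flip {A : Finset (Sym2 (Fin n))} {B B' : Finset (Fin n)} (h : B ⊆ B') :
    nbs A B ⊆ nbs A B' := by
  intro i hi
  simp only [nbs, mem_filter, mem_univ, true_and] at hi ⊢
  obtain ⟨v, hv, hvi⟩ := hi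
  exact ⟨v, h hv, hvi⟩

private lemma nbq_step_Flip {A : Finset (Sym2 (Fin n))} {k j : Fin n} (h : Adj A k j) (q : ℕ) :
    nbq A q {k} ⊆ nbq A (q + 1) {j} := by
  induction q with
  | zero =>
    intro i hi
    have hi' : i ∈ ({k} : Finset (Fin n)) := hi
    rw [mem_singleton] at hi'
    subst hi'
    show i ∈ nbs A (nbq A 0 {j})
    simp only [nbs, mem_filter, mem_univ, true_and]
    exact ⟨j, by show j ∈ ({j} : Finset (Fin n)); exact mem_singleton_self j, h.symm⟩
  | succ q ih =>
    exact nbs_mono_Flip ih

private lemma ball_step_Flip {A : Finset (Sym2 (Fin n))} {k j : Fin n} (h : Adj A k j) (t : ℕ) :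
    ballt A t k ⊆ ballt A (t + 1) j := by
  intro l hl
  simp only [ballt, mem_biUnion, mem_range] at hl ⊢
  obtain ⟨q, hq, hl⟩ := hl
  exact ⟨q + 1, by omega, nbq_step_Flip h q hl⟩

private lemma mem_ball_Flip (A : Finset (Sym2 (Fin n))) (t : ℕ) (j : Fin n) : j ∈ ballt A t j := by
  simp only [ballt, mem_biUnion, mem_range]
  exact ⟨0, by omega, by show j ∈ ({j} : Finset (Fin n)); exact mem_singleton_self j⟩

/-- Locality of the messages. -/
private lemma msg_loc_Flip (A : Finset (Sym2 (Fin n))) (f : ℝ → ℝ) (h0 h0' : Fin n → Fin n → ℝ)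
    (t : ℕ) : ∀ k j, Adj A k j → (∀ a l, l ∈ ballt A t j → h0 a l = h0' a l) →
      msg f (Adj A) h0 t k j = msg f (Adj A) h0' t k j := by
  induction t with
  | zero =>
    intro k j _ h
    exact h k j (mem_ball_Flip A 0 j)
  | succ t ih =>
    intro k j hkj h
    simp only [msg]
    refine sum_congr rfl fun a ha => ?_
    rw [mem_filter] at ha
    rw [ih a k ha.2.1 fun b l hl => h b l (ball_step_Flip hkj t hl)]

private lemma fd_loc_Flip (A : Finset (Sym2 (Fin n))) (f : ℝ → ℝ) (h0 h0' : Fin n → Fin n → ℝ)
    (t : ℕ) (i : Fin n) (h : ∀ a l, l ∈ ballt A t i → h0 a l = h0' a l) :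
    fd f A h0 t i = fd f A h0' t i := by
  unfold fd field
  refine sum_congr rfl fun k hk => ?_
  rw [mem_filter] at hk
  rw [msg_loc_Flip A f h0 h0' t k i hk.2 h]

/-- Flip the messages into the vertices of `W`. -/
private def flp_Flip (W : Finset (Fin n)) (r : Rest n → unitInterval) : Rest n → unitInterval :=
  fun c => (match c with
    | Sum.inl (_, l) => if l ∈ W then unitInterval.symm else id
    | Sum.inr _ => id) (r c)

private lemma mp_Flip (W : Finset (Fin n)) :
    MeasurePreserving (flp_Flip (n := n) W) volume volume := by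
  refine volume_preserving_pi (fun c => ?_)
  rcases c with ⟨k, l⟩ | i
  · by_cases h : l ∈ W
    · simp only [h, if_true]
      exact unitInterval.measurePreserving_symm
    · simp only [h, if_false]
      exact MeasurePreserving.id _
  · exact MeasurePreserving.id _

private lemma init_Flip (W : Finset (Fin n)) (r : Rest n → unitInterval) (k l : Fin n) :
    initR (flp_Flip W r) k l = if l ∈ W then -initR r k l else initR r k l := by
  unfold initR flp_Flip
  by_cases h : l ∈ W
  · simp only [h, if_true, unitInterval.coe_symm_eq]
    ring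
  · simp only [h, if_false, id]

private lemma meas_msg_Flip {f : ℝ → ℝ} (hf : Measurable f) (R : Fin n → Fin n → Prop) (t : ℕ) :
    ∀ i j, Measurable (fun r : Rest n → unitInterval => msg f R (initR r) t i j) := by
  induction t with
  | zero =>
    intro i j
    simp only [msg]
    unfold initR
    have := measurable_coordR (n := n) (Sum.inl (i, j))
    fun_prop
  | succ t ih =>
    intro i j
    simp only [msg]
    exact Finset.measurable_fun_sum _ (fun k _ => hf.comp (ih k i))

private lemma meas_fd_Flip {f : ℝ → ℝ} (hf : Measurable f) (A : Finset (Sym2 (Fin n))) (t : ℕ)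
    (i : Fin n) : Measurable (fun r : Rest n → unitInterval => fd f A (initR r) t i) := by
  unfold fd field
  exact Finset.measurable_fun_sum _ (fun k _ => hf.comp (meas_msg_Flip hf _ t k i))

private lemma meas_sign_Flip : Measurable Real.sign := by
  unfold Real.sign
  refine Measurable.ite (measurableSet_lt measurable_id measurable_const) measurable_const ?_
  exact Measurable.ite (measurableSet_lt measurable_const measurable_id) measurable_const
    measurable_const

private lemma sign_le_Flip (x : ℝ) : |Real.sign x| ≤ 1 := by
  rcases Real.sign_apply_eq x with h | h | h <;> rw [h] <;> norm_num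

theorem st_Flip : StFlip := by
  intro n A σ f t hf hodd
  set s : Fin n → (Rest n → unitInterval) → ℝ := fun i r => Real.sign (fd f A (initR r) t i)
    with hs
  have hsm : ∀ i, Measurable (s i) := fun i => meas_sign_Flip.comp (meas_fd_Flip hf A t i)
  have hs1 : ∀ i r, |s i r| ≤ 1 := fun i r => sign_le_Flip _
  have hint : ∀ i j, Integrable (fun r => s i r * s j r)
      (volume : Measure (Rest n → unitInterval)) := by
    intro i j
    refine Integrable.of_bound ((hsm i).mul (hsm j)).aestronglyMeasurable 1 ?_
    refine Filter.Eventually.of_forall fun r => ?_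
    rw [Real.norm_eq_abs, abs_mul]
    exact mul_le_one₀ (hs1 i r) (abs_nonneg _) (hs1 j r)
  have hone : ∀ i j, |∫ r, s i r * s j r| ≤ 1 := by
    intro i j
    have h1 := norm_integral_le_of_norm_le_const (μ := (volume : Measure (Rest n → unitInterval)))
      (f := fun r => s i r * s j r) (C := 1) (Filter.Eventually.of_forall fun r => by
        rw [Real.norm_eq_abs, abs_mul]
        exact mul_le_one₀ (hs1 i r) (abs_nonneg _) (hs1 j r))
    simpa using h1
  have hzero : ∀ i j, Disjoint (ballt A t i) (ballt A t j) → ∫ r, s i r * s j r = 0 := by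
    intro i j hd
    set W := ballt A t i with hW
    have e1 : ∀ r, s i (flp_Flip W r) = -s i r := by
      intro r
      simp only [hs]
      have h1 : fd f A (initR (flp_Flip W r)) t i = fd f A (fun a l => -initR r a l) t i := by
        refine fd_loc_Flip A f _ _ t i fun a l hl => ?_
        rw [init_Flip, if_pos hl]
      have h2 : fd f A (fun a l => -initR r a l) t i = -fd f A (initR r) t i := by
        unfold fd
        exact Pool.Agent.Helper87.BP.field_neg hodd _ _ t i
      rw [h1, h2, Real.sign_neg]
    have e2 : ∀ r, s j (flp_Flip W r) = s j r := by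
      intro r
      simp only [hs]
      have h1 : fd f A (initR (flp_Flip W r)) t j = fd f A (initR r) t j := by
        refine fd_loc_Flip A f _ _ t j fun a l hl => ?_
        rw [init_Flip, if_neg]
        intro hl'
        exact (Finset.disjoint_left.1 hd hl') hl
      rw [h1]
    have hmp := mp_Flip (n := n) W
    have h3 : ∫ r, s i (flp_Flip W r) * s j (flp_Flip W r) = ∫ r, s i r * s j r := by
      have h4 := integral_map (μ := (volume : Measure (Rest n → unitInterval)))
        hmp.measurable.aemeasurable (f := fun r => s i r * s j r)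
        ((hsm i).mul (hsm j)).aestronglyMeasurable
      rw [hmp.map_eq] at h4
      exact h4.symm
    simp only [e1, e2, neg_mul] at h3
    rw [integral_neg] at h3
    linarith
  have hlab : ∀ i, |lab σ i| ≤ 1 := by
    intro i
    unfold lab
    split_ifs <;> norm_num
  have hsq : ∀ r, sg f A (initR r) σ t ^ 2 =
      (∑ x : Fin n × Fin n, lab σ x.1 * lab σ x.2 * (s x.1 r * s x.2 r)) / n ^ 2 := by
    intro r
    unfold sg
    rw [div_pow, sq (∑ i, lab σ i * Real.sign (fd f A (initR r) t i)), Finset.sum_mul_sum,
      Fintype.sum_prod_type]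
    congr 1
    refine sum_congr rfl fun i _ => sum_congr rfl fun j _ => ?_
    simp only [hs]
    ring
  simp only [hsq]
  rw [integral_div, integral_finsetSum _ (fun x _ => (hint x.1 x.2).const_mul _)]
  rw [Finset.card_filter]
  push_cast
  refine div_le_div_of_nonneg_right ?_ (by positivity)
  refine sum_le_sum fun x _ => ?_
  rw [integral_const_mul]
  by_cases h : Disjoint (ballt A t x.1) (ballt A t x.2)
  · rw [hzero _ _ h, mul_zero, if_neg (not_not.2 h)]
  · rw [if_pos h]
    refine (le_abs_self _).trans ?_
    rw [abs_mul, abs_mul]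
    exact mul_le_one₀ (mul_le_one₀ (hlab _) (abs_nonneg _) (hlab _)) (abs_nonneg _) (hone _ _)

end

end Pool.Agent.Helper60.BP
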