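import Pool.Agent.Helper60.BP.StAsm
import Pool.Agent.Helper42.BPX.Good

set_option autoImplicit false

namespace Pool.Agent.Helper60.BP

open MeasureTheory Finset Pool.Agent.Helper87.BP Pool.Agent.Helper42.BPX

noncomputable section

open Classical

/-- The edge probabilities of the block model. -/
lemma pp_pe {n : ℕ} {a b : ℝ} (hb : 0 < b) (hba : b < a) (hr : (a - b) / (a + b) ≤ 1 / 100)
    (hn : 0 < n) (han : a ≤ n) (σ : Fin n → Bool) :
    PP n (1.01 * ((a + b) / 2)) (0.99 * ((a + b) / 2)) (pe n a b σ) := by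
  have hn' : (0 : ℝ) < n := by exact_mod_cast hn
  have hab : 0 < a + b := by linarith
  rw [div_le_iff₀ hab] at hr
  have h1 : a ≤ 1.01 * ((a + b) / 2) := by linarith
  have h2 : 0.99 * ((a + b) / 2) ≤ b := by linarith
  have key : ∀ e : Sym2 (Fin n), pe n a b σ e = a / n ∨ pe n a b σ e = b / n := by
    intro e
    induction e with | _ i j =>
    show (if σ i = σ j then a / (n : ℝ) else b / n) = a / n ∨
      (if σ i = σ j then a / (n : ℝ) else b / n) = b / n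
    split_ifs <;> simp
  have hle : b / n ≤ a / n := div_le_div_of_nonneg_right hba.le hn'.le
  refine ⟨fun e => ?_, fun e => ?_, fun e => ?_, fun e => ?_⟩
  · have ha : 0 < a := hb.trans hba
    rcases key e with h | h <;> rw [h] <;> positivity
  · have : a / n ≤ 1 := by rw [div_le_one hn']; exact han
    rcases key e with h | h <;> rw [h] <;> linarith
  · have : a / n ≤ 1.01 * ((a + b) / 2) / n := div_le_div_of_nonneg_right h1 hn'.le
    rcases key e with h | h <;> rw [h] <;> linarith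
  · have : 0.99 * ((a + b) / 2) / n ≤ b / n := div_le_div_of_nonneg_right h2 hn'.le
    rcases key e with h | h <;> rw [h] <;> linarith

theorem st_GP : StGP := by
  obtain ⟨d1, hd1, hz⟩ := zw_small Pool.Agent.Helper91.BP.hExpd
  obtain ⟨k0, hk0⟩ := Pool.Agent.Helper91.BP.hExpd
  refine ⟨2 * max d1 (40 * (k0 + 1)), fun a b hb hba hD hr => ?_⟩
  set d := (a + b) / 2 with hdef
  have hdd : max d1 (40 * (k0 + 1)) ≤ d := by rw [hdef]; linarith
  have hdd1 : d1 ≤ d := (le_max_left _ _).trans hdd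
  have hdd2 : 40 * ((k0 : ℝ) + 1) ≤ d := (le_max_right _ _).trans hdd
  have hd0 : 1000000 ≤ d := hd1.trans hdd1
  obtain ⟨N0, hN0⟩ := exists_nat_gt a
  have hpp : ∀ n : ℕ, N0 + 1 ≤ n → ∀ σ : Fin n → Bool, PP n (1.01 * d) (0.99 * d) (pe n a b σ) := by
    intro n hn σ
    have : (N0 : ℝ) ≤ n := by exact_mod_cast (by omega : N0 ≤ n)
    exact pp_pe hb hba hr (by omega) (by linarith) σ
  set K := ⌈d / 40⌉₊ with hK
  have hK1 : d / 40 ≤ K := Nat.le_ceil _
  have hK2 : (K : ℝ) < d / 40 + 1 := Nat.ceil_lt_add_one (by linarith)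
  have hKpos : 1 ≤ K := by
    have : (1 : ℝ) ≤ K := by linarith
    exact_mod_cast this
  have hkk : k0 ≤ K := by
    have : (k0 : ℝ) ≤ K := by linarith
    exact_mod_cast this
  obtain ⟨k, hk⟩ : ∃ k, K = k + 1 := ⟨K - 1, by omega⟩
  have hDD : ((⌈d / 2⌉₊ : ℕ) : ℝ) ≤ d / 2 + 1 := (Nat.ceil_lt_add_one (by linarith)).le
  refine ⟨fun δ hδ => ?_, fun ε1 δ hε1 hδ => ?_, fun C δ r hC hδ => ?_⟩
  · obtain ⟨N, hN⟩ := hk0 (1.01 * d) K hkk (by linarith) (by linarith) δ hδ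
    refine ⟨N + N0 + 1, fun n hn σ => ?_⟩
    have hp := hpp n (by omega) σ
    exact hN n (by omega) _ hp.nn hp.le1 hp.up
  · obtain ⟨r0, hr0⟩ := hz d ⌈d / 2⌉₊ k hdd1 hDD (by rw [hk] at hK1; push_cast at hK1; exact hK1)
      (ε1 * δ) (by positivity)
    obtain ⟨N, hN⟩ := hr0 r0 le_rfl
    refine ⟨r0, N + N0 + 1, fun n hn σ => ?_⟩
    have hp := hpp n (by omega) σ
    have h1 := hN n (by omega) _ hp
    have h2 := Pr_gt_le hp.nn hp.le1 (n := n) (by omega)
      (F := fun A => ((zw A (cl A ⌈d / 2⌉₊ (k + 1)) r0).card : ℝ)) (fun A => by positivity)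
      hε1 h1 le_rfl
    refine le_trans (le_of_eq ?_) h2
    refine Pr_congr fun A _ => ?_
    rw [not_le]
    unfold ZZ
    rw [← hK, hk]
  · have hlim := tendsto_pow_const_div_const_pow_of_one_lt (r + 1) (show (1 : ℝ) < 2 by norm_num)
    have hev := hlim.eventually (gt_mem_nhds (show (0 : ℝ) < δ / (C * Real.exp (3 * (1.01 * d)))
      by positivity))
    obtain ⟨Δ, hΔ1, hΔ⟩ := (hev.and (Filter.eventually_ge_atTop 1)).exists
    refine ⟨Δ, N0 + 1, hΔ, fun n hn σ => ?_⟩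
    have hp := hpp n (by omega) σ
    have hn0 : 0 < n := by omega
    have hn' : (0 : ℝ) < n := by exact_mod_cast hn0
    have h0 : ∀ e ∈ prs n, 0 ≤ pe n a b σ e := fun e _ => hp.nn e
    have h1 : ∀ e ∈ prs n, pe n a b σ e ≤ 1 := fun e _ => hp.le1 e
    have h2 : Pr (pe n a b σ) (prs n) (fun A => (n : ℝ) < C * (Δ : ℝ) ^ (r + 1) * (hd A Δ : ℝ))
        ≤ Pr (pe n a b σ) (prs n) (fun A => (n : ℝ) ≤ C * (Δ : ℝ) ^ (r + 1) * (hd A Δ : ℝ)) :=
      Pr_mono h0 h1 fun A _ h => h.le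
    refine h2.trans ((Pr_ge_le h0 h1 (F := fun A => C * (Δ : ℝ) ^ (r + 1) * (hd A Δ : ℝ))
      (fun A _ => by positivity) hn').trans ?_)
    rw [EE_mul, div_le_iff₀ hn']
    have h3 := EE_hd hp hn0 Δ
    have h4 : C * (Δ : ℝ) ^ (r + 1) * EE (pe n a b σ) (prs n) (fun A => (hd A Δ : ℝ))
        ≤ C * (Δ : ℝ) ^ (r + 1) * (n * (Real.exp (3 * (1.01 * d)) / 2 ^ Δ)) :=
      mul_le_mul_of_nonneg_left h3 (by positivity)
    refine h4.trans ?_
    have h5 : C * (Δ : ℝ) ^ (r + 1) * (n * (Real.exp (3 * (1.01 * d)) / 2 ^ Δ))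
        = (C * Real.exp (3 * (1.01 * d))) * ((Δ : ℝ) ^ (r + 1) / 2 ^ Δ) * n := by ring
    rw [h5]
    refine mul_le_mul_of_nonneg_right ?_ hn'.le
    have h6 : (C * Real.exp (3 * (1.01 * d))) * ((Δ : ℝ) ^ (r + 1) / 2 ^ Δ)
        ≤ (C * Real.exp (3 * (1.01 * d))) * (δ / (C * Real.exp (3 * (1.01 * d)))) :=
      mul_le_mul_of_nonneg_left hΔ1.le (by positivity)
    refine h6.trans (le_of_eq ?_)
    have : C * Real.exp (3 * (1.01 * d)) ≠ 0 := by positivity
    field_simp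

end

end Pool.Agent.Helper60.BP
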