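import Pool.Agent.Helper60.BP.St

set_option autoImplicit false

namespace Pool.Agent.Helper60.BP

open MeasureTheory Finset Pool.Agent.Helper87.BP Pool.Agent.Helper42.BPX

open Classical

namespace GrowM

lemma phi_mono {h τ τ' : ℝ} (hh : |h| ≤ 1) (h0 : 0 ≤ τ) (h1 : τ ≤ τ') (h2 : τ' < 1) :
    phi τ h ≤ phi τ' h := by
  obtain ⟨ha, hb⟩ := abs_le.1 hh
  have hp : 0 < 1 + τ * h := by nlinarith
  have hp' : 0 < 1 + τ' * h := by nlinarith
  unfold phi
  rw [div_le_div_iff₀ hp hp']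
  nlinarith [mul_nonneg (sub_nonneg.2 h1) (by nlinarith : (0 : ℝ) ≤ 1 - h * h)]

lemma htl_mono {n : ℕ} {A : Finset (Sym2 (Fin n))} {h0 : Fin n → Fin n → ℝ} {τ τ' : ℝ}
    (hh : ∀ k i, |h0 k i| ≤ 1) (h : 0 ≤ τ) (h1 : τ ≤ τ') (h2 : τ' < 1) (k i : Fin n) :
    htl A τ h0 k i ≤ htl A τ' h0 k i := by
  unfold htl
  split_ifs
  · exact phi_mono (hh k i) h h1 h2
  · exact le_rfl

end GrowM

open GrowM in
/-- growth as long as both trajectories are unsaturated -/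
theorem st_Grow (hD0 : StD0) (hD1 : StD1) (hU : StU) : StGrow := by
  intro n A σ f d θ K Rc vt h0 τ τ' S hC hh hHS ht htt ht1 hu hu' S'
  have hL : 0 < Real.artanh θ := lt_of_lt_of_le hC.fp.θpos hC.fp.Lge
  have hd : 0 < d := lt_of_lt_of_le (by norm_num) hC.par.dbig
  have hc0 : 0 ≤ cD0 d θ (Real.artanh θ) := by
    unfold cD0
    have := hC.fp.θpos
    positivity
  have hl0 : 0 ≤ lam d θ Rc := by
    have := hC.par.hlam4
    linarith
  induction S' with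
  | zero =>
    intro _
    obtain ⟨E, hE, hD⟩ := hD0 n A σ f d θ K Rc vt h0 τ τ' hC hh hHS ht htt ht1
    exact ⟨E, hE, by rw [pow_zero, mul_one]; exact hD⟩
  | succ s ih =>
    intro hs
    obtain ⟨E, hE, hD⟩ := ih (by omega)
    have g1 := hU n A σ f d θ K Rc vt (htl A τ h0) s hC (hu s (by omega))
    have g2 := hU n A σ f d θ K Rc vt (htl A τ' h0) s hC (hu' s (by omega))
    obtain ⟨E', hE', hD'⟩ := hD1 n A σ f d θ K Rc vt (htl A τ h0) (htl A τ' h0)
      (cD0 d θ (Real.artanh θ) * (τ' - τ) * lam d θ Rc ^ s) E (s + 1) hC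
      (fun k i _ => htl_mono hh ht htt ht1 k i)
      (mul_nonneg (mul_nonneg hc0 (sub_nonneg.2 htt)) (pow_nonneg hl0 _)) hE hD g1 g2
    refine ⟨E', hE', ?_⟩
    have e : lam d θ Rc * (cD0 d θ (Real.artanh θ) * (τ' - τ) * lam d θ Rc ^ s) =
        cD0 d θ (Real.artanh θ) * (τ' - τ) * lam d θ Rc ^ (s + 1) := by ring
    rw [e] at hD'
    exact hD'

end Pool.Agent.Helper60.BP
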