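import Pool.Agent.Helper60.BP.St

set_option autoImplicit false

namespace Pool.Agent.Helper60.BP

open MeasureTheory Finset Pool.Agent.Helper87.BP Pool.Agent.Helper42.BPX

open Classical

section general

variable {Ω κ : Type*} [MeasurableSpace Ω] {μ : Measure Ω} [IsProbabilityMeasure μ]

/-- Chebyshev for pairwise independent variables in `[0, 1]`. -/
lemma cheb_HS (s : Finset κ) (X : κ → Ω → ℝ) (hm : ∀ i ∈ s, Measurable (X i))
    (h0 : ∀ i ω, 0 ≤ X i ω) (h1 : ∀ i ω, X i ω ≤ 1)
    (hi : Set.Pairwise ↑s fun i j => ProbabilityTheory.IndepFun (X i) (X j) μ) {t : ℝ}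
    (ht : 0 < t) :
    μ.real {ω | t ≤ |∑ i ∈ s, X i ω - ∑ i ∈ s, ∫ ω', X i ω' ∂μ|} ≤ s.card / (4 * t ^ 2) := by
  have hL : ∀ i ∈ s, MemLp (X i) 2 μ := fun i his =>
    memLp_of_bounded (a := 0) (b := 1) (Filter.Eventually.of_forall fun ω => ⟨h0 i ω, h1 i ω⟩)
      (hm i his).aestronglyMeasurable 2
  have hint : ∀ i ∈ s, Integrable (X i) μ := fun i his =>
    (hL i his).integrable (by norm_num)
  have hv := ProbabilityTheory.IndepFun.variance_sum hL hi
  have hvi : ∀ i ∈ s, ProbabilityTheory.variance (X i) μ ≤ 1 / 4 := fun i his => by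
    have := ProbabilityTheory.variance_le_sq_of_bounded (μ := μ) (a := 0) (b := 1) (X := X i)
      (Filter.Eventually.of_forall fun ω => ⟨h0 i ω, h1 i ω⟩) (hm i his).aemeasurable
    norm_num at this ⊢
    exact this
  have hv2 : ProbabilityTheory.variance (∑ i ∈ s, X i) μ ≤ s.card / 4 := by
    rw [hv]
    refine (Finset.sum_le_sum hvi).trans ?_
    rw [sum_const, nsmul_eq_mul]
    linarith
  have hLs : MemLp (∑ i ∈ s, X i) 2 μ := memLp_finsetSum' s hL
  have hch := ProbabilityTheory.meas_ge_le_variance_div_sq hLs ht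
  have he : ∫ ω, (∑ i ∈ s, X i) ω ∂μ = ∑ i ∈ s, ∫ ω', X i ω' ∂μ := by
    simp only [Finset.sum_apply]
    exact integral_finsetSum s hint
  have hset : {ω | t ≤ |(∑ i ∈ s, X i) ω - ∫ ω', (∑ i ∈ s, X i) ω' ∂μ|}
      = {ω | t ≤ |∑ i ∈ s, X i ω - ∑ i ∈ s, ∫ ω', X i ω' ∂μ|} := by
    rw [he]; simp only [Finset.sum_apply]
  rw [hset] at hch
  have h3 : μ.real {ω | t ≤ |∑ i ∈ s, X i ω - ∑ i ∈ s, ∫ ω', X i ω' ∂μ|}
      ≤ ProbabilityTheory.variance (∑ i ∈ s, X i) μ / t ^ 2 := by
    have h4 : 0 ≤ ProbabilityTheory.variance (∑ i ∈ s, X i) μ / t ^ 2 :=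
      div_nonneg (ProbabilityTheory.variance_nonneg _ _) (by positivity)
    unfold Measure.real
    exact ENNReal.toReal_le_of_le_ofReal h4 hch
  refine h3.trans ?_
  rw [div_le_div_iff₀ (by positivity) (by positivity)]
  nlinarith [sq_nonneg t]

end general

variable {n : ℕ}

/-- indicator of a small initial message -/
noncomputable def bs_HS (k i : Fin n) (r : Rest n → unitInterval) : ℝ :=
  if |initR r k i| ≤ 1 / 2 then 1 else 0

lemma meas_initR_HS (k i : Fin n) :
    Measurable (fun r : Rest n → unitInterval => initR r k i) := by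
  unfold initR
  exact ((measurable_coordR (Sum.inl (k, i))).const_mul 2).sub_const 1

lemma meas_bs_HS (k i : Fin n) : Measurable (bs_HS k i) := by
  unfold bs_HS
  refine Measurable.ite ?_ measurable_const measurable_const
  exact measurableSet_le ((meas_initR_HS k i).abs) measurable_const

lemma bs0_HS (k i : Fin n) (r : Rest n → unitInterval) : 0 ≤ bs_HS k i r := by
  unfold bs_HS; split_ifs <;> norm_num

lemma bs1_HS (k i : Fin n) (r : Rest n → unitInterval) : bs_HS k i r ≤ 1 := by
  unfold bs_HS; split_ifs <;> norm_num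

lemma int_bs_HS (k i : Fin n) : ∫ r : Rest n → unitInterval, bs_HS k i r = 1 / 2 := by
  have h1 : ∀ r : Rest n → unitInterval, bs_HS k i r
      = Set.indicator ((fun r : Rest n → unitInterval => r (Sum.inl (k, i))) ⁻¹'
        (Set.Icc (⟨1 / 4, by norm_num, by norm_num⟩ : unitInterval)
          ⟨3 / 4, by norm_num, by norm_num⟩)) (fun _ => (1 : ℝ)) r := by
    intro r
    unfold bs_HS initR
    rw [Set.indicator_apply]
    congr 1
    rw [Set.mem_preimage, Set.mem_Icc, abs_le]
    rw [← Subtype.coe_le_coe, ← Subtype.coe_le_coe]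
    apply propext
    constructor
    · rintro ⟨h1, h2⟩
      constructor
      · show (1 / 4 : ℝ) ≤ _
        linarith
      · show _ ≤ (3 / 4 : ℝ)
        linarith
    · rintro ⟨h1, h2⟩
      have h1' : (1 / 4 : ℝ) ≤ (r (Sum.inl (k, i)) : ℝ) := h1
      have h2' : (r (Sum.inl (k, i)) : ℝ) ≤ 3 / 4 := h2
      constructor <;> linarith
  simp only [h1]
  have hmp : MeasurePreserving (fun r : Rest n → unitInterval => r (Sum.inl (k, i))) volume volume :=
    measurePreserving_eval (fun _ : Rest n => (volume : Measure unitInterval)) (Sum.inl (k, i))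
  rw [integral_indicator_const _ (hmp.measurable measurableSet_Icc)]
  unfold Measure.real
  rw [hmp.measure_preimage measurableSet_Icc.nullMeasurableSet, unitInterval.volume_Icc]
  rw [ENNReal.toReal_ofReal (by norm_num)]
  norm_num

lemma dep_bs_HS (k i : Fin n) :
    DependsOn (bs_HS k i) ((({Sum.inl (k, i)} : Finset (Rest n)) : Set (Rest n))) := by
  intro x y h
  have := h (Sum.inl (k, i)) (by simp)
  unfold bs_HS initR
  rw [this]

/-- the number of small initial messages into `i` -/
lemma card_HS (A : Finset (Sym2 (Fin n))) (r : Rest n → unitInterval) (i : Fin n) :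
    (((univ.filter (fun k => Adj A k i ∧ |initR r k i| ≤ 1 / 2)).card : ℕ) : ℝ)
      = ∑ k ∈ nb A i, bs_HS k i r := by
  rw [card_filter]
  push_cast
  have h1 : nb A i = univ.filter (fun k => Adj A k i) := by
    ext k
    simp [mem_nb, adj_comm]
  rw [h1, sum_filter]
  refine sum_congr rfl fun k _ => ?_
  unfold bs_HS
  by_cases h : Adj A k i <;> simp [h]

/-- indicator of few small messages into `i` -/
noncomputable def XX_HS (A : Finset (Sym2 (Fin n))) (d : ℝ) (i : Fin n)
    (r : Rest n → unitInterval) : ℝ := if ∑ k ∈ nb A i, bs_HS k i r < d / 8 + 1 then 1 else 0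

lemma meas_sum_HS (A : Finset (Sym2 (Fin n))) (i : Fin n) :
    Measurable (fun r : Rest n → unitInterval => ∑ k ∈ nb A i, bs_HS k i r) :=
  Finset.measurable_fun_sum _ fun k _ => meas_bs_HS k i

lemma meas_XX_HS (A : Finset (Sym2 (Fin n))) (d : ℝ) (i : Fin n) : Measurable (XX_HS A d i) := by
  unfold XX_HS
  exact Measurable.ite (measurableSet_lt (meas_sum_HS A i) measurable_const) measurable_const
    measurable_const

lemma dep_XX_HS (A : Finset (Sym2 (Fin n))) (d : ℝ) (i : Fin n) :
    DependsOn (XX_HS A d i)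
      (((univ.image (fun k : Fin n => (Sum.inl (k, i) : Rest n))) : Finset (Rest n)) : Set (Rest n)) := by
  intro x y h
  have : ∀ k, bs_HS k i x = bs_HS k i y := by
    intro k
    have := h (Sum.inl (k, i)) (by simp)
    unfold bs_HS initR
    rw [this]
  unfold XX_HS
  simp only [this]

lemma int_XX_HS (A : Finset (Sym2 (Fin n))) {d : ℝ} (hd : 10 ^ 10 ≤ d) (i : Fin n)
    (hdeg : d / 2 ≤ ((nb A i).card : ℝ)) :
    ∫ r : Rest n → unitInterval, XX_HS A d i r ≤ 1 / 1000 := by
  set D : ℝ := ((nb A i).card : ℝ) with hD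
  have hDbig : 10 ^ 9 ≤ D := by
    have : (10 : ℝ) ^ 9 ≤ d / 2 := by norm_num at hd ⊢; linarith
    linarith
  have hc := cheb_HS (μ := (volume : Measure (Rest n → unitInterval))) (nb A i)
    (fun k r => bs_HS k i r) (fun k _ => meas_bs_HS k i) (fun k r => bs0_HS k i r)
    (fun k r => bs1_HS k i r) (by
      intro k _ k' _ hkk
      refine indep_of_dependsOn (meas_bs_HS k i) (meas_bs_HS k' i) ?_ (dep_bs_HS k i)
        (dep_bs_HS k' i)
      rw [Finset.disjoint_singleton]
      intro h
      apply hkk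
      have := Sum.inl.inj h
      exact (Prod.ext_iff.1 this).1) (t := D / 8) (by positivity)
  have hE : ∑ k ∈ nb A i, ∫ r : Rest n → unitInterval, bs_HS k i r = D / 2 := by
    rw [sum_congr rfl (fun k _ => int_bs_HS k i), sum_const, nsmul_eq_mul]; ring
  rw [hE] at hc
  have h1 : ∫ r : Rest n → unitInterval, XX_HS A d i r
      = (volume : Measure (Rest n → unitInterval)).real
        {r | ∑ k ∈ nb A i, bs_HS k i r < d / 8 + 1} := by
    have h2 : ∀ r : Rest n → unitInterval, XX_HS A d i r
        = Set.indicator {r | ∑ k ∈ nb A i, bs_HS k i r < d / 8 + 1} (fun _ => (1 : ℝ)) r := by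
      intro r
      unfold XX_HS
      rw [Set.indicator_apply]
      rfl
    simp only [h2]
    rw [integral_indicator_const _ (measurableSet_lt (meas_sum_HS A i) measurable_const)]
    simp
  rw [h1]
  have h3 : {r : Rest n → unitInterval | ∑ k ∈ nb A i, bs_HS k i r < d / 8 + 1}
      ⊆ {r | D / 8 ≤ |∑ k ∈ nb A i, bs_HS k i r - D / 2|} := by
    intro r hr
    have hr' : ∑ k ∈ nb A i, bs_HS k i r < d / 8 + 1 := hr
    show D / 8 ≤ |∑ k ∈ nb A i, bs_HS k i r - D / 2|
    rw [abs_sub_comm]
    refine le_trans ?_ (le_abs_self _)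
    have : d / 8 ≤ D / 4 := by linarith
    have h5 : (1 : ℝ) ≤ D / 8 := by
      rw [le_div_iff₀ (by norm_num)]
      norm_num at hDbig ⊢; linarith
    linarith
  refine (measureReal_mono h3).trans (hc.trans ?_)
  rw [div_le_div_iff₀ (by positivity) (by norm_num)]
  have h6 : (16 * 1000 : ℝ) ≤ D := by norm_num at hDbig ⊢; linarith
  nlinarith

theorem st_HS_aux : StHS := by
  intro δ hδ
  obtain ⟨N, hN⟩ := exists_nat_gt (100 / δ)
  refine ⟨N + 1, fun n hn A d hd hlow => ?_⟩
  have hnR : (0 : ℝ) < n := by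
    have : 0 < n := by omega
    exact_mod_cast this
  set G : Finset (Fin n) := univ.filter (fun i => d / 2 ≤ ((nb A i).card : ℝ)) with hG
  have hc := cheb_HS (μ := (volume : Measure (Rest n → unitInterval))) G
    (fun i r => XX_HS A d i r) (fun i _ => meas_XX_HS A d i)
    (fun i r => by unfold XX_HS; split_ifs <;> norm_num)
    (fun i r => by unfold XX_HS; split_ifs <;> norm_num) (by
      intro i _ j _ hij
      refine indep_of_dependsOn (meas_XX_HS A d i) (meas_XX_HS A d j) ?_ (dep_XX_HS A d i)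
        (dep_XX_HS A d j)
      rw [Finset.disjoint_left]
      intro x hx hx'
      rw [mem_image] at hx hx'
      obtain ⟨k, _, rfl⟩ := hx
      obtain ⟨k', _, hk'⟩ := hx'
      apply hij
      have := Sum.inl.inj hk'
      exact ((Prod.ext_iff.1 this).2).symm) (t := (n : ℝ) / 10) (by positivity)
  have hE : ∑ i ∈ G, ∫ r : Rest n → unitInterval, XX_HS A d i r ≤ n / 1000 := by
    refine (sum_le_sum (g := fun _ => (1 : ℝ) / 1000) fun i hi =>
      int_XX_HS A hd i (mem_filter.1 hi).2).trans ?_
    rw [sum_const, nsmul_eq_mul]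
    have : (G.card : ℝ) ≤ n := by
      have := card_le_univ G
      rw [Fintype.card_fin] at this
      exact_mod_cast this
    linarith
  have h3 : {r : Rest n → unitInterval | ¬ HS A (initR r) d}
      ⊆ {r | (n : ℝ) / 10 ≤ |∑ i ∈ G, XX_HS A d i r
        - ∑ i ∈ G, ∫ r' : Rest n → unitInterval, XX_HS A d i r'|} := by
    intro r hr
    have hr' : (n : ℝ) / 8 < ((univ.filter (fun i =>
      ((univ.filter (fun k => Adj A k i ∧ |initR r k i| ≤ 1 / 2)).card : ℝ) < d / 8 + 1)).card : ℝ) :=
        not_le.1 hr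
    show (n : ℝ) / 10 ≤ _
    refine le_trans ?_ (le_abs_self _)
    have h4 : ((univ.filter (fun i =>
      ((univ.filter (fun k => Adj A k i ∧ |initR r k i| ≤ 1 / 2)).card : ℝ) < d / 8 + 1)).card : ℝ)
        = ∑ i, XX_HS A d i r := by
      rw [card_filter]
      push_cast
      refine sum_congr rfl fun i _ => ?_
      unfold XX_HS
      rw [card_HS]
    have h5 : ∑ i, XX_HS A d i r = ∑ i ∈ G, XX_HS A d i r
        + ∑ i ∈ univ.filter (fun i => ¬ d / 2 ≤ ((nb A i).card : ℝ)), XX_HS A d i r := by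
      rw [hG, Finset.sum_filter_add_sum_filter_not]
    have h6 : ∑ i ∈ univ.filter (fun i => ¬ d / 2 ≤ ((nb A i).card : ℝ)), XX_HS A d i r
        ≤ n / 2000 := by
      refine (sum_le_sum (g := fun _ => (1 : ℝ)) fun i _ => ?_).trans ?_
      · unfold XX_HS; split_ifs <;> norm_num
      · rw [sum_const, nsmul_eq_mul, mul_one]
        simpa only [not_le] using hlow
    rw [h4, h5] at hr'
    linarith
  refine (measureReal_mono h3).trans (hc.trans ?_)
  have hGn : (G.card : ℝ) ≤ n := by
    have := card_le_univ G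
    rw [Fintype.card_fin] at this
    exact_mod_cast this
  have h7 : (100 : ℝ) / δ < n := by
    refine hN.trans_le ?_
    have : N ≤ n := by omega
    exact_mod_cast this
  rw [div_lt_iff₀ hδ] at h7
  rw [div_le_iff₀ (by positivity)]
  nlinarith

theorem st_HS (_hm : StMeas) : StHS := st_HS_aux

end Pool.Agent.Helper60.BP
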