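import Pool.Agent.Helper60.BP.St
import Pool.Agent.Helper42.BPX.Clo

set_option autoImplicit false

namespace Pool.Agent.Helper60.BP

open MeasureTheory Finset Pool.Agent.Helper87.BP Pool.Agent.Helper42.BPX

open Classical

namespace LevAux

variable {n : ℕ}

lemma msg_le {f : ℝ → ℝ} (hf : Monotone f) (A : Finset (Sym2 (Fin n))) {h0 h0' : Fin n → Fin n → ℝ}
    (h : ∀ k i, Adj A k i → h0 k i ≤ h0' k i) (t : ℕ) :
    ∀ k i, Adj A k i → msg f (Adj A) h0 t k i ≤ msg f (Adj A) h0' t k i := by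
  induction t with
  | zero => intro k i hki; exact h k i hki
  | succ t ih =>
    intro k i hki
    rw [msg_succ, msg_succ]
    refine sum_le_sum fun l hl => hf (ih l k ?_)
    exact (mem_nb.1 (mem_of_mem_erase hl)).symm

lemma markov {F : Fin n → ℝ} {R ζ C : ℝ} (hR : 0 < R) (hC : ∑ i, |F i| ≤ C) (hζ : C = ζ * R) :
    ((univ.filter (fun i => R < |F i|)).card : ℝ) ≤ ζ := by
  have h1 : ((univ.filter (fun i => R < |F i|)).card : ℝ) * R ≤ ∑ i, |F i| := by
    calc ((univ.filter (fun i => R < |F i|)).card : ℝ) * R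
        = ∑ i ∈ univ.filter (fun i => R < |F i|), R := by rw [sum_const, nsmul_eq_mul]
      _ ≤ ∑ i ∈ univ.filter (fun i => R < |F i|), |F i| :=
          sum_le_sum fun i hi => (mem_filter.1 hi).2.le
      _ ≤ ∑ i, |F i| := sum_le_sum_of_subset_of_nonneg (filter_subset _ _)
          fun i _ _ => abs_nonneg _
  have h2 : ((univ.filter (fun i => R < |F i|)).card : ℝ) * R ≤ ζ * R := h1.trans (hC.trans hζ.le)
  exact le_of_mul_le_mul_right h2 hR

/-- one step -/
lemma stp {f : ℝ → ℝ} {θ L : ℝ} (hfp : FP f θ L) (A : Finset (Sym2 (Fin n)))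
    {h0 h0' : Fin n → Fin n → ℝ} (h : ∀ k i, Adj A k i → h0 k i ≤ h0' k i) {g R : ℝ}
    {Z : Finset (Fin n)} {s : ℕ} (hDL : DL f A h0 h0' g Z s) {i : Fin n}
    (h1 : |fd f A h0 s i| ≤ R) (h2 : |fd f A h0' s i| ≤ R)
    (h3 : 2 ≤ (nb A i \ Z).card) (i' : Fin n) (hi' : Adj A i i') :
    θ / Real.cosh (R + 1) ^ 2 * g ≤ xm f A h0' (s + 1) i i' - xm f A h0 (s + 1) i i' := by
  have hL1 : L ≤ 1 := by have := hfp.Lle; have := hfp.θle; linarith
  have hmem : i' ∈ nb A i := mem_nb.2 hi'
  have hms : ∀ u : Fin n → Fin n → ℝ, msg f (Adj A) u (s + 1) i i' =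
      fd f A u s i - f (msg f (Adj A) u s i' i) := by
    intro u
    have e1 : fd f A u s i = ∑ k ∈ nb A i, f (msg f (Adj A) u s k i) := field_eq f A u s i
    rw [msg_succ, e1, ← add_sum_erase _ _ hmem]
    ring
  have hb : ∀ u : Fin n → Fin n → ℝ, |fd f A u s i| ≤ R →
      |msg f (Adj A) u (s + 1) i i'| ≤ R + 1 := by
    intro u hu
    rw [hms]
    have := hfp.bdd (msg f (Adj A) u s i' i)
    calc |fd f A u s i - f (msg f (Adj A) u s i' i)|
        ≤ |fd f A u s i| + |f (msg f (Adj A) u s i' i)| := abs_sub _ _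
      _ ≤ R + 1 := by linarith
  have hle := msg_le hfp.mono.monotone A h (s + 1) i i' hi'
  have hlow := hfp.low (R + 1) _ _ (hb h0 h1) (hb h0' h2) hle
  have hθ : 0 ≤ θ / Real.cosh (R + 1) ^ 2 := by
    have := hfp.θpos
    positivity
  refine le_trans (mul_le_mul_of_nonneg_left ?_ hθ) hlow
  -- the difference of the messages
  obtain ⟨k0, hk0, hne⟩ : ∃ k0 ∈ nb A i \ Z, k0 ≠ i' := by
    by_contra hcon
    push Not at hcon
    have : (nb A i \ Z).card ≤ 1 := card_le_one.2 fun a ha b hb => (hcon a ha).trans (hcon b hb).symm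
    omega
  rw [mem_sdiff] at hk0
  have hk0' : k0 ∈ (nb A i).erase i' := mem_erase.2 ⟨hne, hk0.1⟩
  rw [msg_succ, msg_succ, ← sum_sub_distrib]
  have hnn : ∀ k ∈ (nb A i).erase i', 0 ≤ f (msg f (Adj A) h0' s k i) - f (msg f (Adj A) h0 s k i) := by
    intro k hk
    have := hfp.mono.monotone (msg_le hfp.mono.monotone A h s k i
      (mem_nb.1 (mem_of_mem_erase hk)).symm)
    linarith
  refine le_trans (hDL k0 hk0.2 i (mem_nb.1 hk0.1).symm) ?_
  exact single_le_sum (f := fun k => f (msg f (Adj A) h0' s k i) - f (msg f (Adj A) h0 s k i)) hnn hk0'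

end LevAux

theorem st_Lev (h : StDisc) (hf : StFd) : StLev := by
  intro n A σ f d θ K Rc vt h0 h0' g ζ E s hC hE hord hg hζ hζ' hEc hDL j hj
  have hfp := hC.fp
  set L := Real.artanh θ with hL
  have hd : (10 : ℝ) ^ 10 ≤ d := hC.par.dbig
  have hd0 : 0 < d := lt_of_lt_of_le (by norm_num) hd
  have hL0 : 0 < L := lt_of_lt_of_le hfp.θpos hfp.Lge
  have hn0 : (0 : ℝ) ≤ n := Nat.cast_nonneg n
  have hvt : |vt| ≤ 1 / 100 := hC.hvt.trans hfp.θle
  obtain ⟨-, hlow, hout⟩ := h n A σ d vt hd hvt hC.disc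
  set R : ℝ := 2 * d * L / ζ with hR
  have hR0 : 0 < R := by positivity
  set κ : ℝ := θ / Real.cosh (R + 1) ^ 2 with hκ
  have hκ0 : 0 ≤ κ := by
    have := hfp.θpos
    positivity
  -- fields
  have hfield : ∀ (u : Fin n → Fin n → ℝ) (s : ℕ),
      ((univ.filter (fun i => R < |fd f A u s i|)).card : ℝ) ≤ ζ * n := by
    intro u s
    refine LevAux.markov hR0 (hf n A σ f d θ K Rc vt u s hC) ?_
    rw [hR, ← hL]
    field_simp
  -- the closure
  set k := ⌈d / 40⌉₊ with hk
  set Q := low A ⌈d / 2⌉₊ with hQ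
  have hQc : (Q.card : ℝ) ≤ n / 2000 := by
    refine le_trans ?_ hlow
    have : Q ⊆ univ.filter (fun i => ((nb A i).card : ℝ) < d / 2) := by
      intro i hi
      rw [hQ, low, mem_filter] at hi
      exact mem_filter.2 ⟨mem_univ _, Nat.lt_ceil.1 hi.2⟩
    exact_mod_cast card_le_card this
  have hQn : Q.card * 2000 ≤ n := by
    have : (Q.card : ℝ) * 2000 ≤ n := by linarith
    exact_mod_cast this
  have hZc : 9 * (ZZ A d).card ≤ 10 * Q.card := by
    rw [ZZ, cl_eq_clo, ← hQ]
    exact card_clo hE (by omega)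
  have hZr : ((ZZ A d).card : ℝ) ≤ n / 1800 := by
    have h1 : (9 : ℝ) * ((ZZ A d).card : ℝ) ≤ 10 * (Q.card : ℝ) := by exact_mod_cast hZc
    linarith
  have hcl := closed_cl A ⌈d / 2⌉₊ ⌈d / 40⌉₊
  have hsubr : ∀ {S T : Finset (Fin n)}, S ⊆ T → (S.card : ℝ) ≤ T.card := fun h => by
    exact_mod_cast card_le_card h
  -- induction
  have key : ∀ j : ℕ, 1 ≤ j → ∃ E' : Finset (Fin n),
      (E'.card : ℝ) ≤ (20 / 9 * ζ + 1 / 10 ^ j) * n ∧ (E'.card : ℝ) ≤ n / 1000 ∧
      DL f A h0 h0' (κ ^ j * g) (ZZ A d ∪ E') (s + j) := by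
    intro j hj
    induction j, hj using Nat.le_induction with
    | base =>
      set E1 := univ.filter (fun i => R < |fd f A h0 s i|) with hE1
      set E2 := univ.filter (fun i => R < |fd f A h0' s i|) with hE2
      set E3 := univ.filter (fun i => ((nb A i \ (E ∪ ZZ A d)).card : ℝ) < d / 4 + 1) with hE3
      have c3 : (E3.card : ℝ) ≤ n / 2000 := by
        apply hout
        have : ((E ∪ ZZ A d).card : ℝ) ≤ E.card + (ZZ A d).card := by
          exact_mod_cast card_union_le _ _
        linarith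
      have hcard : ((E1 ∪ E2 ∪ E3).card : ℝ) ≤ E1.card + E2.card + E3.card := by
        have h1 := card_union_le (E1 ∪ E2) E3
        have h2 := card_union_le E1 E2
        exact_mod_cast h1.trans (by omega)
      have c1 := hfield h0 s
      have c2 := hfield h0' s
      refine ⟨E1 ∪ E2 ∪ E3, ?_, ?_, ?_⟩
      · have : 0 ≤ ζ * n := by positivity
        nlinarith
      · nlinarith
      · intro i hi i' hi'
        simp only [mem_union, not_or] at hi
        obtain ⟨_, ⟨hi1, hi2⟩, hi3⟩ := hi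
        rw [pow_one]
        refine LevAux.stp hfp A hord (Z := E ∪ ZZ A d) ?_ ?_ ?_ ?_ i' hi'
        · intro k' hk' i'' hi''
          exact hDL k' (fun h => hk' (mem_union_left _ h)) i'' hi''
        · by_contra hcon
          exact hi1 (mem_filter.2 ⟨mem_univ _, not_le.1 hcon⟩)
        · by_contra hcon
          exact hi2 (mem_filter.2 ⟨mem_univ _, not_le.1 hcon⟩)
        · by_contra hcon
          apply hi3
          refine mem_filter.2 ⟨mem_univ _, ?_⟩
          have : ((nb A i \ (E ∪ ZZ A d)).card : ℝ) ≤ 1 := by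
            exact_mod_cast Nat.lt_succ_iff.1 (not_le.1 hcon)
          linarith
    | succ j hj ih =>
      obtain ⟨E', hE'1, hE'2, hE'3⟩ := ih
      set E1 := univ.filter (fun i => R < |fd f A h0 (s + j) i|) with hE1
      set E2 := univ.filter (fun i => R < |fd f A h0' (s + j) i|) with hE2
      set E3 := many A k E' with hE3
      have c3 : (10 : ℝ) * (E3.card : ℝ) ≤ E'.card := by
        have hm : E'.card ≤ n / 500 := by
          have : (E'.card : ℝ) * 1000 ≤ n := by linarith
          have h2 : E'.card * 1000 ≤ n := by exact_mod_cast this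
          omega
        exact_mod_cast hE E' hm
      have hcard : ((E1 ∪ E2 ∪ E3).card : ℝ) ≤ E1.card + E2.card + E3.card := by
        have h1 := card_union_le (E1 ∪ E2) E3
        have h2 := card_union_le E1 E2
        exact_mod_cast h1.trans (by omega)
      have c1 := hfield h0 (s + j)
      have c2 := hfield h0' (s + j)
      refine ⟨E1 ∪ E2 ∪ E3, ?_, ?_, ?_⟩
      · have h10 : (1 : ℝ) / 10 ^ (j + 1) = 1 / 10 ^ j / 10 := by
          rw [pow_succ]; field_simp
        rw [h10]
        nlinarith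
      · nlinarith
      · intro i hi i' hi'
        simp only [mem_union, not_or] at hi
        obtain ⟨hiZ, ⟨hi1, hi2⟩, hi3⟩ := hi
        have : κ ^ (j + 1) * g = κ * (κ ^ j * g) := by rw [pow_succ]; ring
        rw [this]
        refine LevAux.stp hfp A hord (Z := ZZ A d ∪ E') hE'3 ?_ ?_ ?_ i' hi'
        · by_contra hcon
          exact hi1 (mem_filter.2 ⟨mem_univ _, not_le.1 hcon⟩)
        · by_contra hcon
          exact hi2 (mem_filter.2 ⟨mem_univ _, not_le.1 hcon⟩)
        · have g1 : ¬ (nb A i).card < ⌈d / 2⌉₊ := by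
            intro hlt
            exact hiZ (hcl.1 (by rw [low, mem_filter]; exact ⟨mem_univ _, hlt⟩))
          have g1' : d / 2 ≤ ((nb A i).card : ℝ) := Nat.ceil_le.1 (not_lt.1 g1)
          have g2 : (nb A i ∩ ZZ A d).card < k := by
            by_contra hcon
            exact hiZ (hcl.2 i (not_lt.1 hcon))
          have g3 : (nb A i ∩ E').card < k := by
            by_contra hcon
            exact hi3 (mem_many.2 (not_lt.1 hcon))
          have g2' : ((nb A i ∩ ZZ A d).card : ℝ) < d / 40 := Nat.lt_ceil.1 g2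
          have g3' : ((nb A i ∩ E').card : ℝ) < d / 40 := Nat.lt_ceil.1 g3
          have g4 : (nb A i).card ≤ (nb A i \ (ZZ A d ∪ E')).card + (nb A i ∩ ZZ A d).card
              + (nb A i ∩ E').card := by
            have e1 : nb A i ⊆ (nb A i \ (ZZ A d ∪ E')) ∪ (nb A i ∩ ZZ A d) ∪ (nb A i ∩ E') := by
              intro x hx
              simp only [mem_union, mem_sdiff, mem_inter]
              tauto
            have e2 := card_le_card e1
            have e3 := card_union_le ((nb A i \ (ZZ A d ∪ E')) ∪ (nb A i ∩ ZZ A d)) (nb A i ∩ E')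
            have e4 := card_union_le (nb A i \ (ZZ A d ∪ E')) (nb A i ∩ ZZ A d)
            omega
          have g4' : ((nb A i).card : ℝ) ≤ (nb A i \ (ZZ A d ∪ E')).card
              + (nb A i ∩ ZZ A d).card + (nb A i ∩ E').card := by exact_mod_cast g4
          have g5 : (2 : ℝ) ≤ ((nb A i \ (ZZ A d ∪ E')).card : ℝ) := by linarith
          exact_mod_cast g5
  obtain ⟨E', h1, -, h3⟩ := key j hj
  refine ⟨E', h1.trans ?_, h3⟩
  apply mul_le_mul_of_nonneg_right _ hn0
  linarith

end Pool.Agent.Helper60.BP
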