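import Pool.Agent.Helper60.BP.St

set_option autoImplicit false

/-! Measurability of the functionals of the initial messages and coins (module Meas). -/

namespace Pool.Agent.Helper60.BP

open MeasureTheory Finset Pool.Agent.Helper87.BP Pool.Agent.Helper42.BPX

open Classical

private lemma meas_initR {n : ℕ} (i j : Fin n) :
    Measurable (fun r : Rest n → unitInterval => initR r i j) := by
  unfold initR
  have := measurable_coordR (n := n) (Sum.inl (i, j))
  fun_prop

private lemma meas_coinR {n : ℕ} (i : Fin n) :
    Measurable (fun r : Rest n → unitInterval => coinR r i) := by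
  unfold coinR
  exact Measurable.ite (measurableSet_lt (measurable_coordR _) measurable_const) measurable_const
    measurable_const

private lemma meas_fd {n : ℕ} (A : Finset (Sym2 (Fin n))) {f : ℝ → ℝ} (t : ℕ) (hf : Measurable f)
    (i : Fin n) : Measurable (fun r : Rest n → unitInterval => fd f A (initR r) t i) := by
  unfold fd
  exact measurable_field (R := fun _ => Adj A) hf (fun i j => MeasurableSet.const _)
    (fun i j => meas_initR i j) t i

private lemma meas_card {Ω ι : Type*} [MeasurableSpace Ω] (s : Finset ι) (P : Ω → ι → Prop)
    [∀ ω, DecidablePred (P ω)] (h : ∀ i ∈ s, MeasurableSet {ω | P ω i}) :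
    Measurable (fun ω => (((s.filter (fun i => P ω i)).card : ℕ) : ℝ)) := by
  have e : (fun ω => (((s.filter (fun i => P ω i)).card : ℕ) : ℝ))
      = fun ω => ∑ i ∈ s, (if P ω i then (1 : ℝ) else 0) := by
    funext ω
    rw [card_filter]
    push_cast
    refine sum_congr rfl (fun i _ => ?_)
    split_ifs <;> rfl
  rw [e]
  apply Finset.measurable_fun_sum
  intro i hi
  exact Measurable.ite (h i hi) measurable_const measurable_const

theorem st_Meas : StMeas := by
  intro n A σ f t hf
  have hfd := fun (s : ℕ) (i : Fin n) => meas_fd A s hf i
  refine ⟨hfd t, ?_, ?_, ?_, ?_, ?_⟩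
  · intro d K L
    have : {r : Rest n → unitInterval | Uns f A (initR r) d K L t}
        = ⋂ s, ⋂ (_ : s < t),
          {r : Rest n → unitInterval | |∑ i, f (fd f A (initR r) s i)| ≤ K * L * n / Real.sqrt d} := by
      ext r
      simp [Uns]
    rw [this]
    refine MeasurableSet.iInter (fun s => MeasurableSet.iInter (fun _ => ?_))
    refine measurableSet_le ?_ measurable_const
    exact (Finset.measurable_fun_sum (univ : Finset (Fin n)) (fun i _ => hf.comp (hfd s i))).abs
  · intro x η
    refine measurableSet_le measurable_const ?_
    unfold Nη
    refine meas_card (univ : Finset (Fin n)) (fun (r : Rest n → unitInterval) (i : Fin n) =>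
      fd f A (initR r) t i ≠ 0 ∧ |f (fd f A (initR r) t i)| < η) (fun i _ => ?_)
    refine MeasurableSet.inter ?_ ?_
    · exact (measurableSet_eq_fun (hfd t i) measurable_const).compl
    · exact measurableSet_lt (hf.comp (hfd t i)).abs measurable_const
  · intro d
    unfold HS
    refine measurableSet_le ?_ measurable_const
    refine meas_card (univ : Finset (Fin n)) (fun (r : Rest n → unitInterval) (i : Fin n) =>
      ((univ.filter (fun k => Adj A k i ∧ |initR r k i| ≤ 1 / 2)).card : ℝ) < d / 8 + 1)
      (fun i _ => ?_)
    refine measurableSet_lt ?_ measurable_const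
    refine meas_card (univ : Finset (Fin n)) (fun (r : Rest n → unitInterval) (k : Fin n) =>
      Adj A k i ∧ |initR r k i| ≤ 1 / 2) (fun k _ => ?_)
    by_cases h : Adj A k i
    · simp only [h, true_and]
      exact measurableSet_le (meas_initR k i).abs measurable_const
    · simp only [h, false_and]
      exact MeasurableSet.const _
  · unfold sg
    refine Measurable.div_const (Finset.measurable_fun_sum _ (fun i _ => ?_)) _
    refine Measurable.const_mul ?_ _
    have hs : Measurable Real.sign := by
      unfold Real.sign
      exact Measurable.ite (measurableSet_lt measurable_id measurable_const) measurable_const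
        (Measurable.ite (measurableSet_lt measurable_const measurable_id) measurable_const
          measurable_const)
    exact hs.comp (hfd t i)
  · unfold ov
    refine Measurable.div_const (Finset.measurable_fun_sum _ (fun i _ => ?_)) _
    refine Measurable.mul_const ?_ _
    exact measurable_est (R := fun _ => Adj A) hf (fun i j => MeasurableSet.const _)
      (fun i j => meas_initR i j) (fun i => meas_coinR i) t i

end Pool.Agent.Helper60.BP
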