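import Pool.Agent.Helper60.BP.StAsm

/-! BPB module Num: numerical estimate in the unsaturated regime. -/

set_option autoImplicit false

namespace Pool.Agent.Helper60.BP

open MeasureTheory Finset Pool.Agent.Helper87.BP Pool.Agent.Helper42.BPX

open Classical

theorem succ_le_two_pow_Num (t : ℕ) : t + 1 ≤ 2 ^ t := by
  induction t with
  | zero => norm_num
  | succ k ih =>
    have : 1 ≤ 2 ^ k := Nat.one_le_two_pow
    rw [pow_succ]
    omega

/-- The core estimate. -/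
theorem core_Num (C1 δ M s x y w : ℝ) (hC1 : 0 < C1) (hδ : 0 < δ) (hM : 0 < M) (hs : 0 < s)
    (hx : 0 ≤ x) (hy : 0 ≤ y) (hw : 0 ≤ w) (hxs : x ≤ C1 * s) (hyx : y ^ 4 ≤ x)
    (hwx : w ^ 2 ≤ x) (hbig : C1 ^ 3 * M ^ 4 / δ ^ 4 ≤ s) : M * (w * y) ≤ δ * s := by
  have h0 : 0 ≤ M * (w * y) := by positivity
  have h1 : 0 ≤ δ * s := by positivity
  rw [← pow_le_pow_iff_left₀ h0 h1 (n := 4) (by norm_num)]
  have h2 : (w * y) ^ 4 ≤ x ^ 3 := by
    calc (w * y) ^ 4 = (w ^ 2) ^ 2 * y ^ 4 := by ring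
      _ ≤ x ^ 2 * x := by
        apply mul_le_mul _ hyx (by positivity) (by positivity)
        exact pow_le_pow_left₀ (by positivity) hwx 2
      _ = x ^ 3 := by ring
  have h3 : x ^ 3 ≤ (C1 * s) ^ 3 := pow_le_pow_left₀ hx hxs 3
  rw [div_le_iff₀ (by positivity)] at hbig
  calc (M * (w * y)) ^ 4 = M ^ 4 * (w * y) ^ 4 := by ring
    _ ≤ M ^ 4 * (C1 * s) ^ 3 := by
      apply mul_le_mul_of_nonneg_left (h2.trans h3) (by positivity)
    _ = (C1 ^ 3 * M ^ 4) * s ^ 3 := by ring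
    _ ≤ (s * δ ^ 4) * s ^ 3 := mul_le_mul_of_nonneg_right hbig (by positivity)
    _ = (δ * s) ^ 4 := by ring

theorem st_Num : StNum := by
  intro d θ K Rc C c J C1 δ j2 hP hC hc hJ hC1 hδ
  have hθ := hP.θpos
  have hd : (0 : ℝ) < d := lt_of_lt_of_le (by norm_num) hP.dbig
  have hlam : 4 ≤ lam d θ Rc := hP.hlam4
  have hρ4 := hP.hlam
  have hρ1 := hP.hA1
  generalize hl : lam d θ Rc = l at *
  have hl0 : 0 < l := by linarith
  have hA : AA d θ = AA d θ / l * l := by field_simp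
  generalize hρ : AA d θ / l = ρ at *
  have hch := Real.cosh_pos 1
  generalize Real.cosh 1 = ch at *
  set u : ℝ := θ / ch ^ 2 with hu
  have hu0 : 0 < u := by positivity
  set M : ℝ := max (C * C1 / u) (C * J * l ^ j2 / c) with hM
  have hM0 : 0 < M := lt_of_lt_of_le (by positivity) (le_max_left _ _)
  obtain ⟨N, hN⟩ := exists_nat_ge ((C1 ^ 3 * M ^ 4 / δ ^ 4) ^ 2)
  refine ⟨N + 1, ?_⟩
  intro n hn t ht hx
  have hn0 : (0 : ℝ) < n := by
    have : 0 < n := by omega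
    exact_mod_cast this
  have hs0 : 0 < Real.sqrt n := Real.sqrt_pos.2 hn0
  have hss : Real.sqrt n * Real.sqrt n = n := Real.mul_self_sqrt hn0.le
  have hbig : C1 ^ 3 * M ^ 4 / δ ^ 4 ≤ Real.sqrt n := by
    apply Real.le_sqrt_of_sq_le
    refine hN.trans ?_
    have : N ≤ n := by omega
    exact_mod_cast this
  generalize hs : Real.sqrt n = s at *
  have hρ0 : 0 < ρ := by linarith
  have hyx : (ρ ^ t) ^ 4 ≤ l ^ t := by
    rw [← pow_mul, mul_comm, pow_mul]
    exact pow_le_pow_left₀ (by positivity) hρ4 t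
  have hwx : ((t : ℝ) + 1) ^ 2 ≤ l ^ t := by
    have h1 : ((t : ℝ) + 1) ≤ 2 ^ t := by exact_mod_cast succ_le_two_pow_Num t
    calc ((t : ℝ) + 1) ^ 2 ≤ ((2 : ℝ) ^ t) ^ 2 := pow_le_pow_left₀ (by positivity) h1 2
      _ = 4 ^ t := by rw [← pow_mul, mul_comm, pow_mul]; norm_num
      _ ≤ l ^ t := pow_le_pow_left₀ (by norm_num) hlam t
  have hcore := core_Num C1 δ M s (l ^ t) (ρ ^ t) ((t : ℝ) + 1) hC1 hδ hM0 hs0 (by positivity)
    (by positivity) (by positivity) hx hyx hwx hbig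
  have hAt : AA d θ ^ t = ρ ^ t * l ^ t := by
    rw [hA, mul_pow]
  have hlt : l ^ t = l ^ (t - j2) * l ^ j2 := by
    rw [← pow_add]; congr 1; omega
  have hv0 : 0 < c / (J * s) * l ^ (t - j2) := by positivity
  rw [← hss]
  rcases min_choice u (c / (J * s) * l ^ (t - j2)) with h | h
  · rw [h, div_le_iff₀ (by positivity), hAt]
    have h1 : C * C1 / u ≤ M := le_max_left _ _
    rw [div_le_iff₀ hu0] at h1
    have hq : 0 ≤ ((t : ℝ) + 1) * ρ ^ t := by positivity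
    calc C * ((t : ℝ) + 1) * (ρ ^ t * l ^ t) = C * (((t : ℝ) + 1) * ρ ^ t) * l ^ t := by ring
      _ ≤ C * (((t : ℝ) + 1) * ρ ^ t) * (C1 * s) :=
        mul_le_mul_of_nonneg_left hx (by positivity)
      _ = (C * C1) * ((((t : ℝ) + 1) * ρ ^ t) * s) := by ring
      _ ≤ (M * u) * ((((t : ℝ) + 1) * ρ ^ t) * s) :=
        mul_le_mul_of_nonneg_right h1 (by positivity)
      _ = (M * (((t : ℝ) + 1) * ρ ^ t)) * (u * s) := by ring
      _ ≤ (δ * s) * (u * s) := mul_le_mul_of_nonneg_right hcore (by positivity)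
      _ = δ * (s * s * u) := by ring
  · rw [h, div_le_iff₀ (by positivity), hAt]
    have h1 : C * J * l ^ j2 / c ≤ M := le_max_right _ _
    rw [div_le_iff₀ hc] at h1
    have h2 : δ * (s * s * (c / (J * s) * l ^ (t - j2))) =
        (δ * s) * (c / J * l ^ (t - j2)) := by
      field_simp
    rw [h2]
    calc C * ((t : ℝ) + 1) * (ρ ^ t * l ^ t)
        = (C * J * l ^ j2) * ((((t : ℝ) + 1) * ρ ^ t) * (l ^ (t - j2) / J)) := by
          rw [hlt]; field_simp
      _ ≤ (M * c) * ((((t : ℝ) + 1) * ρ ^ t) * (l ^ (t - j2) / J)) :=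
        mul_le_mul_of_nonneg_right h1 (by positivity)
      _ = (M * (((t : ℝ) + 1) * ρ ^ t)) * (c / J * l ^ (t - j2)) := by ring
      _ ≤ (δ * s) * (c / J * l ^ (t - j2)) := mul_le_mul_of_nonneg_right hcore (by positivity)

end Pool.Agent.Helper60.BP
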