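import Pool.Agent.Helper60.BP.St

/-! Module Ov: overlap of the estimate and of the signs. -/

set_option autoImplicit false

namespace Pool.Agent.Helper60.BP

open MeasureTheory Finset Pool.Agent.Helper87.BP Pool.Agent.Helper42.BPX

noncomputable section

open Classical

theorem st_Ov : StOv := by
  intro n A σ f t r
  have key : ∀ i : Fin n, est f (Adj A) (initR r) (coinR r) t i * lab σ i
      = lab σ i * Real.sign (fd f A (initR r) t i)
        + (if fd f A (initR r) t i = 0 then coinR r i * lab σ i else 0) := by
    intro i
    unfold est tieSign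
    have e : field f (Adj A) (initR r) t i = fd f A (initR r) t i := rfl
    rw [e]
    rcases lt_trichotomy (fd f A (initR r) t i) 0 with h | h | h
    · rw [if_neg (not_lt.2 h.le), if_pos h, Real.sign_of_neg h, if_neg h.ne]
      ring
    · rw [h, if_neg (lt_irrefl _), if_neg (lt_irrefl _), Real.sign_zero, if_pos rfl]
      ring
    · rw [if_pos h, Real.sign_of_pos h, if_neg h.ne']
      ring
  have hsum : ov f A σ t r = sg f A (initR r) σ t
      + (∑ i ∈ univ.filter (fun i => fd f A (initR r) t i = 0), coinR r i * lab σ i) / n := by
    unfold ov sg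
    rw [Finset.sum_congr rfl (fun i _ => key i), Finset.sum_add_distrib, Finset.sum_filter,
      add_div]
  rw [hsum]
  refine (abs_add_le _ _).trans ?_
  rw [abs_div (∑ i ∈ univ.filter (fun i => fd f A (initR r) t i = 0), coinR r i * lab σ i)]
  rw [abs_of_nonneg (Nat.cast_nonneg n : (0 : ℝ) ≤ (n : ℝ))]

end

end Pool.Agent.Helper60.BP
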