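import Pool.Agent.Helper60.BP.St

/-!
# The edge probabilities of the block model
-/

set_option autoImplicit false

namespace Pool.Agent.Helper60.BP

open MeasureTheory Finset Pool.Agent.Helper87.BP Pool.Agent.Helper42.BPX

noncomputable section

open Classical

theorem st_PP : StPP := by
  intro n a b σ hb hba han hn
  have hn' : (0 : ℝ) < n := by exact_mod_cast hn
  have h1 : b / n ≤ a / n := div_le_div_of_nonneg_right hba hn'.le
  have h0 : 0 ≤ b / n := div_nonneg hb hn'.le
  have h2 : a / n ≤ 1 := (div_le_one hn').2 han
  have key : ∀ e : Sym2 (Fin n), b / n ≤ pe n a b σ e ∧ pe n a b σ e ≤ a / n := by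
    intro e
    induction e using Sym2.ind with
    | _ x y =>
      change b / n ≤ (if σ x = σ y then a / n else b / n) ∧
        (if σ x = σ y then a / n else b / n) ≤ a / n
      split_ifs
      · exact ⟨h1, le_rfl⟩
      · exact ⟨le_rfl, h1⟩
  exact ⟨fun e => h0.trans (key e).1, fun e => (key e).2.trans h2, fun e => (key e).2,
    fun e => (key e).1⟩

end

end Pool.Agent.Helper60.BP
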