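import Pool.Agent.Helper60.BP.St

set_option autoImplicit false

/-! Module Pairs: the number of pairs of vertices with intersecting balls. -/

namespace Pool.Agent.Helper60.BP

open MeasureTheory Finset Pool.Agent.Helper87.BP Pool.Agent.Helper42.BPX

open Classical

private lemma pairs_nbs_mono {n : ℕ} (A : Finset (Sym2 (Fin n))) {B C : Finset (Fin n)}
    (h : B ⊆ C) : nbs A B ⊆ nbs A C := by
  intro i hi
  simp only [nbs, mem_filter, mem_univ, true_and] at hi ⊢
  obtain ⟨v, hv, hvi⟩ := hi
  exact ⟨v, h hv, hvi⟩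

/-- `v ∈ nbq A q {i}` is symmetric in `v` and `i`; more generally a walk of length `q` from `i` to
`v` followed by a walk of length `p` from `j` to `v` (reversed) is a walk from `i` to `j`. -/
private lemma pairs_walk {n : ℕ} (A : Finset (Sym2 (Fin n))) {i : Fin n} (j : Fin n) :
    ∀ (p q : ℕ) (v : Fin n), v ∈ nbq A q {i} → v ∈ nbq A p {j} → j ∈ nbq A (q + p) {i} := by
  intro p
  induction p with
  | zero =>
    intro q v hq hp
    have : v = j := by simpa [nbq] using hp
    subst this
    exact hq
  | succ p ih =>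
    intro q v hq hp
    have hp' : v ∈ nbs A (nbq A p {j}) := hp
    simp only [nbs, mem_filter, mem_univ, true_and] at hp'
    obtain ⟨w, hw, hwv⟩ := hp'
    have hw' : w ∈ nbq A (q + 1) {i} := by
      show w ∈ nbs A (nbq A q {i})
      simp only [nbs, mem_filter, mem_univ, true_and]
      exact ⟨v, hq, hwv.symm⟩
    have := ih (q + 1) w hw' hw
    rw [show q + (p + 1) = q + 1 + p by ring]
    exact this

theorem st_Pairs : StPairs := by
  intro n A t Δ hΔ
  set H := hd A Δ with hH
  have key : ∀ i : Fin n, (univ.filter (fun j : Fin n =>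
      ¬ Disjoint (ballt A t i) (ballt A t j))).card ≤
        (2 * t + 1) * Δ ^ (2 * t) + (2 * t + 1) ^ 2 * Δ ^ (2 * t) * H := by
    intro i
    have hsub : (univ.filter (fun j : Fin n => ¬ Disjoint (ballt A t i) (ballt A t j)))
        ⊆ (range (2 * t + 1)).biUnion (fun q => nbq A q {i}) := by
      intro j hj
      simp only [mem_filter, mem_univ, true_and] at hj
      rw [Finset.not_disjoint_iff] at hj
      obtain ⟨v, hv1, hv2⟩ := hj
      simp only [ballt, mem_biUnion, mem_range] at hv1 hv2
      obtain ⟨q, hq, hv1⟩ := hv1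
      obtain ⟨p, hp, hv2⟩ := hv2
      rw [mem_biUnion]
      exact ⟨q + p, mem_range.2 (by omega), pairs_walk A j p q v hv1 hv2⟩
    calc (univ.filter (fun j : Fin n => ¬ Disjoint (ballt A t i) (ballt A t j))).card
        ≤ ((range (2 * t + 1)).biUnion (fun q => nbq A q {i})).card := card_le_card hsub
      _ ≤ ∑ q ∈ range (2 * t + 1), (nbq A q {i}).card := card_biUnion_le
      _ ≤ ∑ _q ∈ range (2 * t + 1), Δ ^ (2 * t) * (1 + (2 * t) * H) := by
          refine Finset.sum_le_sum fun q hq => ?_
          have hq' : q ≤ 2 * t := by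
            have := mem_range.1 hq
            omega
          have h1 := card_nbq_le A hΔ {i} q
          rw [card_singleton] at h1
          refine h1.trans (Nat.mul_le_mul (Nat.pow_le_pow_right hΔ hq') ?_)
          exact Nat.add_le_add_left (Nat.mul_le_mul_right _ hq') _
      _ = (2 * t + 1) * (Δ ^ (2 * t) * (1 + (2 * t) * H)) := by
          rw [Finset.sum_const, card_range, smul_eq_mul]
      _ ≤ (2 * t + 1) * Δ ^ (2 * t) + (2 * t + 1) ^ 2 * Δ ^ (2 * t) * H := by
          have h2 : 2 * t ≤ 2 * t + 1 := Nat.le_succ _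
          calc (2 * t + 1) * (Δ ^ (2 * t) * (1 + (2 * t) * H))
              = (2 * t + 1) * Δ ^ (2 * t) + (2 * t + 1) * (2 * t) * Δ ^ (2 * t) * H := by ring
            _ ≤ (2 * t + 1) * Δ ^ (2 * t) + (2 * t + 1) ^ 2 * Δ ^ (2 * t) * H := by
                refine Nat.add_le_add_left ?_ _
                refine Nat.mul_le_mul_right _ (Nat.mul_le_mul_right _ ?_)
                rw [pow_two]
                exact Nat.mul_le_mul_left _ h2
  have hsplit : (univ.filter (fun x : Fin n × Fin n =>
      ¬ Disjoint (ballt A t x.1) (ballt A t x.2))).card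
      = ∑ i : Fin n, (univ.filter (fun j : Fin n =>
          ¬ Disjoint (ballt A t i) (ballt A t j))).card := by
    simp only [Finset.card_filter]
    rw [← Finset.univ_product_univ, Finset.sum_product]
  rw [hsplit]
  calc ∑ i : Fin n, (univ.filter (fun j : Fin n =>
          ¬ Disjoint (ballt A t i) (ballt A t j))).card
      ≤ ∑ _i : Fin n, ((2 * t + 1) * Δ ^ (2 * t) + (2 * t + 1) ^ 2 * Δ ^ (2 * t) * H) :=
        Finset.sum_le_sum fun i _ => key i
    _ = n * ((2 * t + 1) * Δ ^ (2 * t)) + n * ((2 * t + 1) ^ 2 * Δ ^ (2 * t) * H) := by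
        rw [Finset.sum_const, card_univ, Fintype.card_fin, smul_eq_mul]
        ring

end Pool.Agent.Helper60.BP
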