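import Pool.Agent.Helper60.BP.St

/-! Existence of the parameters. -/

set_option autoImplicit false

namespace Pool.Agent.Helper60.BP

open MeasureTheory Finset Pool.Agent.Helper87.BP Pool.Agent.Helper42.BPX

open Classical

namespace ParAux

lemma artanh_ge {θ : ℝ} (h0 : 0 < θ) (h1 : θ ≤ 1 / 100) : θ ≤ Real.artanh θ := by
  rw [Real.artanh_eq_half_log ⟨by linarith, by linarith⟩,
    Real.log_div (by linarith) (by linarith)]
  have hs := Real.hasSum_log_sub_log_of_abs_lt_one (x := θ) (by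
    rw [abs_of_pos h0]; linarith)
  have := sum_le_hasSum {0} (fun i _ => by positivity) hs
  simp at this
  linarith

lemma artanh_le {θ : ℝ} (h0 : 0 < θ) (h1 : θ ≤ 1 / 100) : Real.artanh θ ≤ (101 / 100) * θ := by
  rw [Real.artanh_eq_half_log ⟨by linarith, by linarith⟩,
    Real.log_div (by linarith) (by linarith)]
  have e1 : Real.log (1 + θ) ≤ θ := by
    have := Real.log_le_sub_one_of_pos (x := 1 + θ) (by linarith)
    linarith
  have e2 : - Real.log (1 - θ) ≤ (102 / 100) * θ := by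
    rw [← Real.log_inv]
    have h2 := Real.log_le_sub_one_of_pos (x := (1 - θ)⁻¹) (by
      apply inv_pos.2; linarith)
    have h3 : (1 - θ)⁻¹ - 1 ≤ (102 / 100) * θ := by
      have hp : 0 < 1 - θ := by linarith
      have : (1 - θ)⁻¹ - 1 = θ / (1 - θ) := by field_simp; ring
      rw [this, div_le_iff₀ hp]
      nlinarith
    linarith
  linarith

end ParAux

open ParAux in
theorem st_Par : StPar := by
  intro K0 hK0
  set K : ℝ := 6000 * K0 with hKdef
  set Rc : ℝ := 16 * (K * (2 * K0) + 3 * K0 * (2 * K0) + 9 * (2 * K0)) with hRdef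
  set C : ℝ := Real.cosh (Rc + 1) ^ 2 with hCdef
  have hC : 1 ≤ C := by
    rw [hCdef]; exact one_le_pow₀ (Real.one_le_cosh _)
  set B : ℝ := 4 * C * (16 * K0 * C) ^ 4 with hBdef
  have hKC : 1 ≤ K0 * C := by nlinarith
  have hB : 16 * C ≤ B := by
    have : (4 : ℝ) ≤ (16 * K0 * C) ^ 4 := by
      have h16 : 16 ≤ 16 * K0 * C := by nlinarith
      calc (4 : ℝ) ≤ 16 ^ 4 := by norm_num
        _ ≤ _ := pow_le_pow_left₀ (by norm_num) h16 4
    rw [hBdef]; nlinarith
  have hB0 : 0 ≤ B := by linarith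
  refine ⟨K, Rc, 10 ^ 10 + 10 ^ 4 * K0 + B ^ 2, fun d θ hd hθ hk1 hk2 => ?_⟩
  have hd1 : (10 : ℝ) ^ 10 ≤ d := by nlinarith [sq_nonneg B]
  have hd2 : 10 ^ 4 * K0 ≤ d := by nlinarith [sq_nonneg B]
  have hd3 : B ^ 2 ≤ d := by nlinarith
  have hdpos : 0 < d := by linarith [show (0 : ℝ) < 10 ^ 10 by norm_num]
  have hθ1 : θ ≤ 1 / 100 := by
    by_contra hc
    push Not at hc
    have : (1 / 100 : ℝ) ^ 2 < θ ^ 2 := by
      apply pow_lt_pow_left₀ hc (by norm_num) (by norm_num)
    nlinarith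
  set s : ℝ := Real.sqrt d with hs
  have hs0 : 0 < s := Real.sqrt_pos.2 hdpos
  have hss : s * s = d := Real.mul_self_sqrt hdpos.le
  have hsB : B ≤ s := by
    rw [hs]; exact Real.le_sqrt_of_sq_le hd3
  set L : ℝ := Real.artanh θ with hL
  have hL1 : θ ≤ L := artanh_ge hθ hθ1
  have hL2 : L ≤ (101 / 100) * θ := artanh_le hθ hθ1
  set q : ℝ := θ * s with hq
  have hqq : q * q = θ ^ 2 * d := by rw [hq, ← hss]; ring
  have hq0 : 0 < q := by positivity
  have hq1 : 1 ≤ q := by nlinarith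
  have hq2 : q ≤ K0 := by nlinarith
  set T : ℝ := s * L with hT
  have hT1 : q ≤ T := by rw [hq, hT]; nlinarith
  have hT2 : T ≤ (101 / 100) * q := by rw [hq, hT]; nlinarith
  have hdL : θ * d * L = q * T := by rw [hq, hT, ← hss]; ring
  have hθd : B ≤ θ * d := by
    have : θ * d = q * s := by rw [hq, ← hss]; ring
    rw [this]; nlinarith
  have hθd0 : 0 < θ * d := by positivity
  have hlamdef : lam d θ Rc = θ * d / (4 * C) := rfl
  have hCpos : 0 < C := by linarith
  have hAl : AA d θ / lam d θ Rc = 16 * (θ ^ 2 * d) * C := by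
    rw [hlamdef, AA]; field_simp; ring
  have hqT : q * T ≤ K0 * T := by nlinarith
  constructor
  · exact hθ
  · exact hθ1
  · exact hk1
  · exact hd1
  · positivity
  · rw [hRdef]; nlinarith
  · have e1 : 9 * s * L = 9 * T := by rw [hT]; ring
    have e2 : 2 * θ * d * L = 2 * (q * T) := by rw [← hdL]; ring
    have e3 : K * s * L = K * T := by rw [hT]; ring
    rw [e1, e2, e3, hdL, hKdef]
    nlinarith
  · have e1 : 9 * s * L = 9 * T := by rw [hT]; ring
    have e2 : 3 * θ * d * L = 3 * (q * T) := by rw [← hdL]; ring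
    have e3 : K * s * L = K * T := by rw [hT]; ring
    rw [e1, e2, e3, hRdef]
    have hT3 : T ≤ 2 * K0 := by linarith
    have hK : 0 ≤ K := by positivity
    have f1 : K * T ≤ K * (2 * K0) := mul_le_mul_of_nonneg_left hT3 hK
    have f2 : q * T ≤ K0 * (2 * K0) := mul_le_mul hq2 hT3 (by linarith) (by linarith)
    linarith
  · rw [hAl, hlamdef, le_div_iff₀ (by positivity)]
    have h1 : 16 * (θ ^ 2 * d) * C ≤ 16 * K0 * C := by nlinarith
    have h2 : (16 * (θ ^ 2 * d) * C) ^ 4 ≤ (16 * K0 * C) ^ 4 :=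
      pow_le_pow_left₀ (by positivity) h1 4
    calc (16 * (θ ^ 2 * d) * C) ^ 4 * (4 * C) ≤ (16 * K0 * C) ^ 4 * (4 * C) :=
          mul_le_mul_of_nonneg_right h2 (by positivity)
      _ = B := by rw [hBdef]; ring
      _ ≤ θ * d := hθd
  · rw [hlamdef, le_div_iff₀ (by positivity)]
    linarith
  · rw [hAl]
    nlinarith [mul_le_mul hk1 hC (by norm_num) (by positivity)]

end Pool.Agent.Helper60.BP
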