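import Pool.Agent.Helper60.BPM.U

set_option autoImplicit false

namespace Pool.Agent.Helper60.BP

open MeasureTheory Finset Pool.Agent.Helper87.BP Pool.Agent.Helper42.BPX

open Classical

theorem core_S (K d L θ n c F : ℝ) (hd : 0 < d) (hL : 0 < L) (hθ : 0 < θ) (hK : 0 < K)
    (hn : 0 < n) (hc : 0 ≤ c)
    (hp : 9 * Real.sqrt d * L + 2 * θ * d * L
      ≤ (1 / 500) * (K * Real.sqrt d * L - θ * d * L - 3))
    (hF : K * L * n / Real.sqrt d < F)
    (hb : d / n * (c * F) ≤ 3 * c + (d * θ * L * c + 9 * Real.sqrt d * L * n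
      + 2 * θ * d * L * n)) : 500 * c ≤ n := by
  have hsd : 0 < Real.sqrt d := Real.sqrt_pos.2 hd
  have h1 : d / n * (c * (K * L * n / Real.sqrt d)) ≤ d / n * (c * F) := by
    gcongr
  have h2 : d / n * (c * (K * L * n / Real.sqrt d)) = c * (K * Real.sqrt d * L) := by
    have : d / n * (c * (K * L * n / Real.sqrt d)) = (n / n) * (c * (K * L * (d / Real.sqrt d))) := by
      ring
    rw [this, div_self hn.ne', Real.div_sqrt]
    ring
  have hB : 0 < K * Real.sqrt d * L - θ * d * L - 3 := by
    have : 0 < 9 * Real.sqrt d * L + 2 * θ * d * L := by positivity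
    linarith
  have h3 : c * (K * Real.sqrt d * L - θ * d * L - 3)
      ≤ n * (9 * Real.sqrt d * L + 2 * θ * d * L) := by
    rw [h2] at h1
    nlinarith [h1.trans hb]
  have h4 : n * (9 * Real.sqrt d * L + 2 * θ * d * L)
      ≤ n * ((1 / 500) * (K * Real.sqrt d * L - θ * d * L - 3)) :=
    mul_le_mul_of_nonneg_left hp hn.le
  have h5 : (500 * c) * (K * Real.sqrt d * L - θ * d * L - 3)
      ≤ n * (K * Real.sqrt d * L - θ * d * L - 3) := by
    linarith
  exact le_of_mul_le_mul_right h5 hB

theorem st_S (h : StDisc) : StS := by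
  intro n A σ f d θ K Rc vt h0 s hc
  set L := Real.artanh θ with hL
  have hθ := hc.fp.θpos
  have hLp : 0 < L := lt_of_lt_of_le hθ hc.fp.Lge
  have hd : 0 < d := lt_of_lt_of_le (by norm_num) hc.par.dbig
  have hK := hc.par.Kpos
  rcases Nat.eq_zero_or_pos n with hn | hn
  · subst hn
    constructor <;> intro _ <;> simp
  have hnR : (0 : ℝ) < n := by exact_mod_cast hn
  have gen : ∀ (ε : ℝ), (ε = 1 ∨ ε = -1) →
      K * L * n / Real.sqrt d < ε * ∑ i, f (fd f A h0 s i) →
      (univ.filter (fun i => ε * fd f A h0 (s + 1) i < 3)).card ≤ n / 500 := by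
    intro ε hε hF
    set Q := univ.filter (fun i => ε * fd f A h0 (s + 1) i < 3) with hQ
    set x : Fin n → ℝ := fun i => if i ∈ Q then ε else 0 with hx
    have hea : |ε| = 1 := by rcases hε with rfl | rfl <;> simp
    have hee : ε * ε = 1 := by rcases hε with rfl | rfl <;> simp
    have hxa : ∀ i, |x i| ≤ 1 := by
      intro i; simp only [hx]; split_ifs
      · exact hea.le
      · simp
    have k1 := key_U h h0 s hc x hxa
    have e1 : ∑ i, |x i| = (Q.card : ℝ) := by
      have : ∀ i, |x i| = if i ∈ Q then (1 : ℝ) else 0 := by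
        intro i; simp only [hx]; split_ifs
        · exact hea
        · simp
      simp only [this]
      rw [Finset.sum_ite_mem]
      simp
    have e2 : ∑ i, x i = Q.card * ε := by
      simp only [hx]
      rw [Finset.sum_ite_mem]
      simp
    have e3 : ∑ i, x i * fd f A h0 (s + 1) i ≤ 3 * Q.card := by
      have : ∀ i, x i * fd f A h0 (s + 1) i = if i ∈ Q then ε * fd f A h0 (s + 1) i else 0 := by
        intro i; simp only [hx]; split_ifs <;> simp
      simp only [this]
      rw [Finset.sum_ite_mem, Finset.univ_inter, mul_comm, ← nsmul_eq_mul]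
      refine Finset.sum_le_card_nsmul _ _ _ fun i hi => ?_
      exact (mem_filter.1 hi).2.le
    rw [e1, e2] at k1
    have k2 := (abs_le.1 k1).1
    have k3 : d / n * ((Q.card : ℝ) * (ε * ∑ i, f (fd f A h0 s i)))
        ≤ 3 * Q.card + (d * θ * L * Q.card + 9 * Real.sqrt d * L * n + 2 * θ * d * L * n) := by
      have e4 : d / n * ((Q.card : ℝ) * (ε * ∑ i, f (fd f A h0 s i)))
          = d / n * ((Q.card : ℝ) * ε * ∑ i, f (fd f A h0 s i)) := by ring
      rw [e4]
      linarith
    have k4 := core_S K d L θ n Q.card _ hd hLp hθ hK hnR (Nat.cast_nonneg _) hc.par.hK hF k3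
    rw [Nat.le_div_iff_mul_le (by norm_num)]
    have : ((Q.card * 500 : ℕ) : ℝ) ≤ (n : ℝ) := by
      push_cast
      linarith
    exact_mod_cast this
  constructor
  · intro hF
    have := gen 1 (Or.inl rfl) (by rw [one_mul]; exact hF)
    simpa using this
  · intro hF
    have := gen (-1) (Or.inr rfl) (by linarith)
    simpa using this

end Pool.Agent.Helper60.BP
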