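import Pool.Agent.Helper60.BP.StAsm

set_option autoImplicit false

namespace Pool.Agent.Helper60.BP

open MeasureTheory Finset Pool.Agent.Helper87.BP Pool.Agent.Helper42.BPX

noncomputable section

open Classical

theorem st_Sat (h : StS) : StSat := by
  intro n A σ f d θ K Rc vt h0 co r q m' Δ s t hctx hE hco hΔ hm' ht hsat
  have hfp := hctx.fp
  have hpar := hctx.par
  set c := Real.artanh θ with hc
  have hθ := hpar.θpos
  have hcθ : θ ≤ c := hfp.Lge
  have hc0 : 0 < c := hθ.trans_le hcθ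
  have hc1 : c ≤ 1 := by have := hfp.Lle; have := hpar.θle; linarith
  have hd := hpar.dbig
  -- θ d is large
  have hθd : 100000 ≤ θ * d := by
    have h1 : d ≤ (θ * d) ^ 2 := by
      have := hpar.κ1
      calc d = 1 * d := (one_mul d).symm
        _ ≤ θ ^ 2 * d * d := mul_le_mul_of_nonneg_right this (by linarith)
        _ = (θ * d) ^ 2 := by ring
    have h2 : (100000 : ℝ) ^ 2 ≤ (θ * d) ^ 2 := by
      refine le_trans ?_ h1
      norm_num
      linarith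
    exact le_of_sq_le_sq h2 (by positivity)
  have hk2 : ((⌈d / 40⌉₊ : ℕ) : ℝ) ≤ d / 40 + 1 := (Nat.ceil_lt_add_one (by linarith)).le
  have hD1 : d / 2 ≤ ((⌈d / 2⌉₊ : ℕ) : ℝ) := Nat.le_ceil _
  have hs := h n A σ f d θ K Rc vt h0 s hctx
  have hs' : (univ.filter (fun i => field f (Adj A) h0 (s + 1) i < 2 + c)).card ≤ n / 500 ∨
      (univ.filter (fun i => - field f (Adj A) h0 (s + 1) i < 2 + c)).card ≤ n / 500 := by
    rcases lt_abs.1 hsat with h1 | h1
    · left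
      refine le_trans (card_le_card ?_) (hs.1 h1)
      intro i hi
      simp only [mem_filter, mem_univ, true_and, fd] at hi ⊢
      linarith
    · right
      refine le_trans (card_le_card ?_) (hs.2 (by linarith))
      intro i hi
      simp only [mem_filter, mem_univ, true_and, fd] at hi ⊢
      linarith
  have hL : (2 : ℝ) ≤ (((⌈d / 2⌉₊ : ℕ) : ℝ) - 1 - (2 * ⌈d / 40⌉₊ : ℕ)) * (9 / 10 * c)
      - (2 * ⌈d / 40⌉₊ : ℕ) * c := by
    push_cast
    have h1 : (((⌈d / 2⌉₊ : ℕ) : ℝ) - 1 - 2 * (⌈d / 40⌉₊ : ℕ)) * (9 / 10 * c)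
        - 2 * ((⌈d / 40⌉₊ : ℕ) : ℝ) * c
        = c * (9 / 10 * (⌈d / 2⌉₊ : ℕ) - 9 / 10 - 38 / 10 * (⌈d / 40⌉₊ : ℕ)) := by ring
    rw [h1]
    have h2 : 9 / 10 * ((⌈d / 2⌉₊ : ℕ) : ℝ) - 9 / 10 - 38 / 10 * (⌈d / 40⌉₊ : ℕ) ≥ d / 10 := by
      linarith
    have h3 : c * (9 / 10 * ((⌈d / 2⌉₊ : ℕ) : ℝ) - 9 / 10 - 38 / 10 * (⌈d / 40⌉₊ : ℕ))
        ≥ θ * (d / 10) := mul_le_mul hcθ h2 (by linarith) hc0.le
    linarith
  exact persist (c := c) (c1 := 9 / 10 * c) (L := 2) hfp.mono hfp.odd (by norm_num)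
    (fun x => (hfp.bdd x).le) (hfp.big 2 le_rfl) (by positivity) hL hE hs' σ hco hΔ hm'
    (by omega)

end

end Pool.Agent.Helper60.BP
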