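import Pool.Agent.Helper60.BP.St
import Pool.Agent.Helper72.BPA.M_CLIP
import Pool.Agent.Helper72.BPA.M_ST

/-! Overlap of the signs and asymmetry profile. -/

set_option autoImplicit false

namespace Pool.Agent.Helper60.BP

open MeasureTheory Finset Pool.Agent.Helper87.BP Pool.Agent.Helper42.BPX

open Classical

namespace SgAux

lemma sign_clip {u η s : ℝ} (hη : 0 < η) (hs : s = Real.sign u) :
    |s - max (-1) (min 1 (u / η))| ≤ if u ≠ 0 ∧ |u| < η then 1 else 0 := by
  rcases lt_trichotomy u 0 with h | h | h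
  · rw [hs, Real.sign_of_neg h]
    have h0 : u / η < 0 := div_neg_of_neg_of_pos h hη
    rw [min_eq_right (by linarith)]
    by_cases hc : |u| < η
    · rw [if_pos ⟨h.ne, hc⟩]
      rcases max_cases (-1 : ℝ) (u / η) with ⟨e, _⟩ | ⟨e, h2⟩
      · rw [e]; simp
      · rw [e, abs_le]; constructor <;> linarith
    · rw [if_neg (fun h => hc h.2)]
      rw [abs_of_neg h] at hc
      push Not at hc
      have : u / η ≤ -1 := by
        rw [div_le_iff₀ hη]; linarith
      rw [max_eq_left this]; simp
  · rw [hs, h]; simp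
  · rw [hs, Real.sign_of_pos h]
    have h0 : 0 < u / η := div_pos h hη
    by_cases hc : |u| < η
    · rw [if_pos ⟨h.ne', hc⟩]
      rw [max_eq_right (le_min (by linarith) (by linarith))]
      rcases min_cases (1 : ℝ) (u / η) with ⟨e, _⟩ | ⟨e, h2⟩
      · rw [e]; simp
      · rw [e, abs_le]; constructor <;> linarith
    · rw [if_neg (fun h => hc h.2)]
      rw [abs_of_pos h] at hc
      push Not at hc
      have : 1 ≤ u / η := by
        rw [le_div_iff₀ hη]; linarith
      rw [min_eq_left this, max_eq_right (by norm_num)]; simp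

lemma lab_abs {n : ℕ} (σ : Fin n → Bool) (i : Fin n) : |lab σ i| = 1 := by
  unfold lab; split_ifs <;> simp

end SgAux

open SgAux in
theorem st_Sg : StSg := by
  intro n A σ f θ L h0 t η hf hη
  have f0 : f 0 = 0 := by
    have := hf.odd 0
    simp at this
    linarith
  have hsign : ∀ x, Real.sign x = Real.sign (f x) := by
    intro x
    rcases lt_trichotomy x 0 with h | h | h
    · have := hf.mono h
      rw [f0] at this
      rw [Real.sign_of_neg h, Real.sign_of_neg this]
    · rw [h, f0]
    · have := hf.mono h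
      rw [f0] at this
      rw [Real.sign_of_pos h, Real.sign_of_pos this]
  obtain ⟨u, hu⟩ : ∃ u : Fin n → ℝ, u = fun i => f (fd f A h0 t i) := ⟨_, rfl⟩
  obtain ⟨Q, hQ⟩ : ∃ Q : ℝ, Q = (∑ i, lab σ i * max (-1) (min 1 (u i / η))) / n := ⟨_, rfl⟩
  have hclip := Pool.Agent.Helper72.BPA.m_clip Pool.Agent.Helper72.BPA.m_st n σ u η hη
  have hZ : ∀ v, Pool.Agent.Helper72.BPA.Zw σ univ u v = Zt f (Adj A) h0 σ t v := by
    intro v
    unfold Pool.Agent.Helper72.BPA.Zw Zt Pool.Agent.Helper72.BPA.st zf
    rw [hu]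
    rfl
  simp_rw [hZ] at hclip
  rw [← hQ] at hclip
  have hAS : 0 ≤ AS f (Adj A) h0 σ t := by
    unfold AS
    exact integral_nonneg fun v => sq_nonneg _
  have h1 : |Q| ≤ Real.sqrt (2 / η) * Real.sqrt (AS f (Adj A) h0 σ t) := by
    rw [← Real.sqrt_mul (by positivity), ← Real.sqrt_sq_eq_abs]
    exact Real.sqrt_le_sqrt hclip
  have h2 : |sg f A h0 σ t - Q| ≤ Nη f A h0 t η / n := by
    have e : sg f A h0 σ t - Q
        = (∑ i, lab σ i * (Real.sign (fd f A h0 t i) - max (-1) (min 1 (u i / η)))) / n := by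
      rw [hQ]
      unfold sg
      rw [← sub_div, ← Finset.sum_sub_distrib]
      congr 1
      refine Finset.sum_congr rfl fun i _ => ?_
      ring
    rw [e, abs_div, Nat.abs_cast]
    refine div_le_div_of_nonneg_right ?_ (Nat.cast_nonneg n)
    refine (Finset.abs_sum_le_sum_abs _ _).trans ?_
    have e2 : ((Nη f A h0 t η : ℕ) : ℝ)
        = ∑ i, if fd f A h0 t i ≠ 0 ∧ |f (fd f A h0 t i)| < η then (1 : ℝ) else 0 := by
      unfold Nη
      rw [Finset.card_filter]
      push_cast
      rfl
    rw [e2]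
    refine Finset.sum_le_sum fun i _ => ?_
    rw [abs_mul, lab_abs, one_mul]
    refine (sign_clip hη ((hsign _).trans (by rw [hu]))).trans (le_of_eq ?_)
    refine if_congr ?_ rfl rfl
    rw [hu]
    refine and_congr_left fun _ => ?_
    refine not_congr ?_
    constructor
    · intro h
      have h3 := hf.mono.injective (h.trans f0.symm)
      exact h3
    · intro h
      change f (fd f A h0 t i) = 0
      rw [h, f0]
  calc |sg f A h0 σ t| = |Q + (sg f A h0 σ t - Q)| := by congr 1; ring
    _ ≤ |Q| + |sg f A h0 σ t - Q| := abs_add_le _ _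
    _ ≤ _ := add_le_add h1 h2

end Pool.Agent.Helper60.BP
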