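import Pool.Agent.Helper60.BP.St

set_option autoImplicit false

namespace Pool.Agent.Helper60.BP

open MeasureTheory Finset Pool.Agent.Helper87.BP Pool.Agent.Helper42.BPX

noncomputable section

open Classical

namespace TL

/-- Density of the tilted uniform variable. -/
def dD (τ v : ℝ) : ℝ := (1 - τ ^ 2) / (1 + τ - 2 * τ * v) ^ 2

/-- Inverse of the tilt. -/
def sS (τ v : ℝ) : ℝ := v * (1 - τ) / (1 + τ - 2 * τ * v)

/-- The tilt of one coordinate. -/
def tT (τ : ℝ) (u : unitInterval) : unitInterval :=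
  Set.projIcc (0 : ℝ) 1 zero_le_one ((phi τ (2 * (u : ℝ) - 1) + 1) / 2)

lemma den_pos {τ v : ℝ} (hτ : |τ| < 1) (h0 : 0 ≤ v) (h1 : v ≤ 1) :
    0 < 1 + τ - 2 * τ * v := by
  obtain ⟨h2, h3⟩ := abs_lt.1 hτ
  rcases le_total v (1 / 2) with h | h
  · nlinarith [mul_nonneg h0 (by linarith : (0 : ℝ) ≤ 1 - τ),
      mul_nonneg (by linarith : (0 : ℝ) ≤ 1 / 2 - v) (by linarith : (0 : ℝ) ≤ 1 + τ)]
  · nlinarith [mul_nonneg (by linarith : (0 : ℝ) ≤ 1 - v) (by linarith : (0 : ℝ) ≤ 1 + τ),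
      mul_nonneg (by linarith : (0 : ℝ) ≤ v - 1 / 2) (by linarith : (0 : ℝ) ≤ 1 - τ)]

lemma den_pos' {τ v : ℝ} (hτ : |τ| < 1) (h0 : 0 ≤ v) (h1 : v ≤ 1) :
    0 < 1 - τ + 2 * τ * v := by
  have := den_pos (τ := -τ) (by rwa [abs_neg]) h0 h1
  linarith

lemma one_sub_sq_pos {τ : ℝ} (hτ : |τ| < 1) : 0 < 1 - τ ^ 2 := by
  obtain ⟨h2, h3⟩ := abs_lt.1 hτ
  nlinarith

lemma sS_mem {τ v : ℝ} (hτ : |τ| < 1) (h0 : 0 ≤ v) (h1 : v ≤ 1) :
    sS τ v ∈ Set.Icc (0 : ℝ) 1 := by
  obtain ⟨h2, h3⟩ := abs_lt.1 hτ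
  have hd := den_pos hτ h0 h1
  constructor
  · exact div_nonneg (mul_nonneg h0 (by linarith)) hd.le
  · rw [sS, div_le_one hd]
    nlinarith [mul_nonneg (by linarith : (0 : ℝ) ≤ 1 - v) (by linarith : (0 : ℝ) ≤ 1 + τ)]

lemma tT_val {τ : ℝ} (hτ : |τ| < 1) (u : unitInterval) :
    ((tT τ u : unitInterval) : ℝ) = (u : ℝ) * (1 + τ) / (1 - τ + 2 * τ * u) := by
  have hd := den_pos' hτ u.2.1 u.2.2
  have h1 : (phi τ (2 * (u : ℝ) - 1) + 1) / 2 = (u : ℝ) * (1 + τ) / (1 - τ + 2 * τ * u) := by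
    have h2 : 1 + τ * (2 * (u : ℝ) - 1) = 1 - τ + 2 * τ * u := by ring
    have hd' := hd.ne'
    rw [phi, h2, div_add_one hd', div_div, div_eq_div_iff (mul_ne_zero hd' two_ne_zero) hd']
    ring
  have h3 : (u : ℝ) * (1 + τ) / (1 - τ + 2 * τ * u) ∈ Set.Icc (0 : ℝ) 1 := by
    have := sS_mem (τ := -τ) (by rwa [abs_neg]) u.2.1 u.2.2
    rw [sS] at this
    have e : (u : ℝ) * (1 - -τ) / (1 + -τ - 2 * -τ * u) =
      (u : ℝ) * (1 + τ) / (1 - τ + 2 * τ * u) := by
      congr 1 <;> ring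
    rwa [e] at this
  rw [tT, h1, Set.projIcc_of_mem _ h3]

lemma tT_cont {τ : ℝ} (hτ : |τ| < 1) : Continuous (tT τ) := by
  have h1 : Continuous fun u : unitInterval => (u : ℝ) * (1 + τ) / (1 - τ + 2 * τ * u) := by
    refine Continuous.div (by fun_prop) (by fun_prop) fun u => ?_
    exact (den_pos' hτ u.2.1 u.2.2).ne'
  refine Continuous.subtype_mk (f := fun u => ((tT τ u : unitInterval) : ℝ)) ?_
    (fun u => (tT τ u).2)
  have : (fun u => ((tT τ u : unitInterval) : ℝ)) =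
      fun u : unitInterval => (u : ℝ) * (1 + τ) / (1 - τ + 2 * τ * u) := by
    funext u
    exact tT_val hτ u
  rw [this]
  exact h1

lemma lint (g : ℝ → ℝ) (hg : ContinuousOn g (Set.Icc 0 1))
    (hg0 : ∀ x ∈ Set.Icc (0 : ℝ) 1, 0 ≤ g x) (a : unitInterval) :
    ∫⁻ u in Set.Iic a, ENNReal.ofReal (g (u : ℝ)) = ENNReal.ofReal (∫ x in (0 : ℝ)..a, g x) := by
  have h1 : ∫⁻ u in Set.Iic a, ENNReal.ofReal (g (u : ℝ)) =
      ∫⁻ x in Set.Icc (0 : ℝ) a, ENNReal.ofReal (g x) := by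
    have := setLIntegral_subtype (μ := (volume : Measure ℝ)) (s := Set.Icc (0 : ℝ) 1)
      measurableSet_Icc (Set.Iic a) (fun x => ENNReal.ofReal (g x))
    rw [Set.image_subtype_val_Icc_Iic] at this
    exact this
  have hint : IntegrableOn g (Set.Icc 0 (a : ℝ)) :=
    (hg.mono (Set.Icc_subset_Icc_right a.2.2)).integrableOn_Icc
  rw [h1, ← ofReal_integral_eq_lintegral_ofReal hint, intervalIntegral.integral_of_le a.2.1,
    integral_Icc_eq_integral_Ioc]
  filter_upwards [ae_restrict_mem measurableSet_Icc] with x hx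
  exact hg0 x ⟨hx.1, hx.2.trans a.2.2⟩

lemma dD_cont {τ : ℝ} (hτ : |τ| < 1) : ContinuousOn (dD τ) (Set.Icc 0 1) := by
  refine ContinuousOn.div (by fun_prop) (by fun_prop) fun x hx => ?_
  exact pow_ne_zero 2 (den_pos hτ hx.1 hx.2).ne'

lemma dD_nonneg {τ : ℝ} (hτ : |τ| < 1) (x : ℝ) : 0 ≤ dD τ x :=
  div_nonneg (one_sub_sq_pos hτ).le (sq_nonneg _)

lemma sS_deriv {τ v : ℝ} (hτ : |τ| < 1) (h0 : 0 ≤ v) (h1 : v ≤ 1) :
    HasDerivAt (sS τ) (dD τ v) v := by
  have hd := den_pos hτ h0 h1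
  have h2 : HasDerivAt (fun v : ℝ => v * (1 - τ)) (1 - τ) v := by
    simpa using (hasDerivAt_id v).mul_const (1 - τ)
  have h3 : HasDerivAt (fun v : ℝ => 1 + τ - 2 * τ * v) (-(2 * τ)) v := by
    simpa using ((hasDerivAt_id v).const_mul (2 * τ)).const_sub (1 + τ)
  have h4 : HasDerivAt (sS τ) _ v := h2.div h3 hd.ne'
  convert h4 using 1
  rw [dD]
  congr 1
  ring

lemma map_tT {τ : ℝ} (hτ : |τ| < 1) : (volume : Measure unitInterval).map (tT τ) =
    (volume : Measure unitInterval).withDensity (fun v => ENNReal.ofReal (dD τ v)) := by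
  refine Measure.ext_of_Iic _ _ fun a => ?_
  rw [Measure.map_apply (tT_cont hτ).measurable measurableSet_Iic,
    withDensity_apply _ measurableSet_Iic,
    lint (dD τ) (dD_cont hτ) (fun x _ => dD_nonneg hτ x)]
  have h1 : tT τ ⁻¹' Set.Iic a = Set.Iic ⟨sS τ a, sS_mem hτ a.2.1 a.2.2⟩ := by
    ext u
    rw [Set.mem_preimage, Set.mem_Iic, Set.mem_Iic, ← Subtype.coe_le_coe, ← Subtype.coe_le_coe,
      tT_val hτ, div_le_iff₀ (den_pos' hτ u.2.1 u.2.2)]
    show _ ↔ (u : ℝ) ≤ sS τ a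
    rw [sS, le_div_iff₀ (den_pos hτ a.2.1 a.2.2)]
    constructor <;> intro h <;> linarith
  rw [h1, unitInterval.volume_Iic]
  congr 1
  show sS τ a = _
  have hsub : ∀ x ∈ Set.uIcc (0 : ℝ) a, 0 ≤ x ∧ x ≤ 1 := by
    intro x hx
    rw [Set.uIcc_of_le a.2.1] at hx
    exact ⟨hx.1, hx.2.trans a.2.2⟩
  rw [intervalIntegral.integral_eq_sub_of_hasDerivAt
    (fun x hx => sS_deriv hτ (hsub x hx).1 (hsub x hx).2)]
  · rw [sS, sS]
    simp
  · refine ContinuousOn.intervalIntegrable ?_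
    exact (dD_cont hτ).mono fun x hx => ⟨(hsub x hx).1, (hsub x hx).2⟩

lemma dD_meas (τ : ℝ) : Measurable fun v : unitInterval => ENNReal.ofReal (dD τ v) := by
  unfold dD
  fun_prop

lemma sq_int {τ : ℝ} (hτ : |τ| < 1) (hτ2 : τ ^ 2 ≤ 1 / 4) :
    ∫⁻ v : unitInterval, ENNReal.ofReal (dD τ v) ^ (2 : ℝ) ≤ ENNReal.ofReal (1 + 2 * τ ^ 2) := by
  have h1 : ∫⁻ v : unitInterval, ENNReal.ofReal (dD τ v) ^ (2 : ℝ) =
      ∫⁻ v, ENNReal.ofReal (dD τ v) ∂((volume : Measure unitInterval).map (tT τ)) := by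
    rw [map_tT hτ, lintegral_withDensity_eq_lintegral_mul _ (dD_meas τ) (dD_meas τ)]
    refine lintegral_congr fun v => ?_
    rw [Pi.mul_apply, ENNReal.rpow_two, sq]
  have hpos := one_sub_sq_pos hτ
  have h2 : ∀ u : unitInterval, dD τ (tT τ u) = (1 - τ + 2 * τ * (u : ℝ)) ^ 2 / (1 - τ ^ 2) := by
    intro u
    have hd := den_pos' hτ u.2.1 u.2.2
    have h3 : 1 + τ - 2 * τ * ((tT τ u : unitInterval) : ℝ) =
        (1 - τ ^ 2) / (1 - τ + 2 * τ * u) := by
      have hd' := hd.ne'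
      rw [tT_val hτ, eq_div_iff hd', sub_mul]
      have e : 2 * τ * ((u : ℝ) * (1 + τ) / (1 - τ + 2 * τ * u)) * (1 - τ + 2 * τ * u) =
        2 * τ * ((u : ℝ) * (1 + τ)) := by
        rw [mul_assoc, div_mul_cancel₀ _ hd']
      rw [e]
      ring
    rw [dD, h3]
    have h4 : (1 : ℝ) - τ ^ 2 ≠ 0 := hpos.ne'
    field_simp
  rw [h1, lintegral_map (dD_meas τ) (tT_cont hτ).measurable]
  have h5 : ∫⁻ u : unitInterval, ENNReal.ofReal (dD τ (tT τ u)) =
      ∫⁻ u in Set.Iic (1 : unitInterval),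
        ENNReal.ofReal ((fun x : ℝ => (1 - τ + 2 * τ * x) ^ 2 / (1 - τ ^ 2)) (u : ℝ)) := by
    have : Set.Iic (1 : unitInterval) = Set.univ := Set.eq_univ_of_forall fun u => u.2.2
    rw [this, Measure.restrict_univ]
    exact lintegral_congr fun u => by rw [h2]
  rw [h5, lint (fun x : ℝ => (1 - τ + 2 * τ * x) ^ 2 / (1 - τ ^ 2)) (by fun_prop) (fun x _ => div_nonneg (sq_nonneg _) hpos.le)]
  refine ENNReal.ofReal_le_ofReal ?_
  have h6 : ∫ x in (0 : ℝ)..((1 : unitInterval) : ℝ), (1 - τ + 2 * τ * x) ^ 2 / (1 - τ ^ 2) =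
      (1 + τ ^ 2 / 3) / (1 - τ ^ 2) := by
    have hF : ∀ x : ℝ, HasDerivAt (fun x : ℝ => ((1 - τ) ^ 2 * x + 2 * τ * (1 - τ) * x ^ 2 +
        4 * τ ^ 2 / 3 * x ^ 3) / (1 - τ ^ 2)) ((1 - τ + 2 * τ * x) ^ 2 / (1 - τ ^ 2)) x := by
      intro x
      have a1 := (hasDerivAt_id x).const_mul ((1 - τ) ^ 2)
      have a2 := (hasDerivAt_pow 2 x).const_mul (2 * τ * (1 - τ))
      have a3 := (hasDerivAt_pow 3 x).const_mul (4 * τ ^ 2 / 3)
      have a4 : HasDerivAt (fun x : ℝ => ((1 - τ) ^ 2 * x + 2 * τ * (1 - τ) * x ^ 2 +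
        4 * τ ^ 2 / 3 * x ^ 3) / (1 - τ ^ 2)) _ x := ((a1.add a2).add a3).div_const (1 - τ ^ 2)
      convert a4 using 1
      push_cast
      ring
    rw [intervalIntegral.integral_eq_sub_of_hasDerivAt (fun x _ => hF x)
      (Continuous.intervalIntegrable (by fun_prop) _ _)]
    rw [Set.Icc.coe_one]
    ring
  rw [h6, div_le_iff₀ hpos]
  nlinarith [sq_nonneg τ, mul_nonneg (sq_nonneg τ) (by linarith : (0 : ℝ) ≤ 1 / 4 - τ ^ 2)]

section pi

variable {κ X : Type} [Fintype κ] [MeasurableSpace X] (μ : Measure X) [IsProbabilityMeasure μ]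

lemma lint_pi (g : κ → X → ENNReal) (hg : ∀ c, Measurable (g c)) :
    ∫⁻ r, ∏ c, g c (r c) ∂(Measure.pi fun _ : κ => μ) = ∏ c, ∫⁻ x, g c x ∂μ := by
  have h := ProbabilityTheory.lintegral_prod_eq_prod_lintegral_of_indepFun
    (μ := Measure.pi fun _ : κ => μ) univ
    (fun c r => g c (r c)) (ProbabilityTheory.iIndepFun_pi (fun c => (hg c).aemeasurable))
    (fun c => (hg c).comp (measurable_pi_apply c))
  rw [h]
  exact Finset.prod_congr rfl fun c _ =>
    (measurePreserving_eval (fun _ : κ => μ) c).lintegral_comp (hg c)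

lemma pi_dens (D : κ → X → ENNReal) (hD : ∀ c, Measurable (D c))
    [∀ c, SigmaFinite (μ.withDensity (D c))] :
    Measure.pi (fun c => μ.withDensity (D c)) =
      (Measure.pi (fun _ : κ => μ)).withDensity (fun r => ∏ c, D c (r c)) := by
  refine Measure.pi_eq fun s hs => ?_
  rw [withDensity_apply _ (MeasurableSet.univ_pi hs),
    ← lintegral_indicator (MeasurableSet.univ_pi hs)]
  have h1 : ∀ r : κ → X, (Set.univ.pi s).indicator (fun r => ∏ c, D c (r c)) r =
      ∏ c, (s c).indicator (D c) (r c) := by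
    intro r
    by_cases hr : r ∈ Set.univ.pi s
    · rw [Set.indicator_of_mem hr]
      exact Finset.prod_congr rfl fun c _ => by
        rw [Set.indicator_of_mem (hr c (Set.mem_univ c))]
    · rw [Set.indicator_of_notMem hr]
      rw [Set.mem_univ_pi] at hr
      push Not at hr
      obtain ⟨c, hc⟩ := hr
      refine (Finset.prod_eq_zero (Finset.mem_univ c) ?_).symm
      rw [Set.indicator_of_notMem hc]
  rw [lintegral_congr h1, lint_pi μ (fun c => (s c).indicator (D c))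
    (fun c => (hD c).indicator (hs c))]
  refine Finset.prod_congr rfl fun c _ => ?_
  rw [lintegral_indicator (hs c), withDensity_apply _ (hs c)]

lemma key_pi (T : κ → X → X) (hT : ∀ c, Measurable (T c)) (D : κ → X → ENNReal)
    (hD : ∀ c, Measurable (D c)) (hTD : ∀ c, μ.map (T c) = μ.withDensity (D c))
    (B : Set (κ → X)) (hB : MeasurableSet B) :
    (Measure.pi fun _ : κ => μ) ((fun r c => T c (r c)) ⁻¹' B) ≤
      ((Measure.pi fun _ : κ => μ) B) ^ (1 / 2 : ℝ) *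
        (∏ c, ∫⁻ x, D c x ^ (2 : ℝ) ∂μ) ^ (1 / 2 : ℝ) := by
  have hprob : ∀ c, IsProbabilityMeasure (μ.map (T c)) := fun c =>
    Measure.isProbabilityMeasure_map (hT c).aemeasurable
  have hsf : ∀ c, SigmaFinite (μ.withDensity (D c)) := fun c => by
    rw [← hTD c]
    infer_instance
  have hmeas : Measurable (fun (r : κ → X) c => T c (r c)) :=
    measurable_pi_lambda _ fun c => (hT c).comp (measurable_pi_apply c)
  rw [← Measure.map_apply hmeas hB, Measure.pi_map_pi (fun c => (hT c).aemeasurable)]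
  have h1 : (Measure.pi fun c => μ.map (T c)) = Measure.pi (fun c => μ.withDensity (D c)) := by
    congr 1
    funext c
    exact hTD c
  rw [h1, pi_dens μ D hD, withDensity_apply _ hB, ← lintegral_indicator hB]
  have h2 : ∀ r : κ → X, B.indicator (fun r => ∏ c, D c (r c)) r =
      (B.indicator (fun _ => (1 : ENNReal)) * (fun r : κ → X => ∏ c, D c (r c))) r := by
    intro r
    rw [Pi.mul_apply]
    by_cases hr : r ∈ B
    · rw [Set.indicator_of_mem hr, Set.indicator_of_mem hr, one_mul]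
    · rw [Set.indicator_of_notMem hr, Set.indicator_of_notMem hr, zero_mul]
  rw [lintegral_congr h2]
  have hmD : Measurable fun r : κ → X => ∏ c, D c (r c) :=
    Finset.measurable_prod _ fun c _ => (hD c).comp (measurable_pi_apply c)
  refine (ENNReal.lintegral_mul_le_Lp_mul_Lq _ Real.HolderConjugate.two_two
    ((measurable_const.indicator hB).aemeasurable) hmD.aemeasurable).trans ?_
  refine mul_le_mul' (le_of_eq ?_) (le_of_eq ?_)
  · congr 1
    have h3 : ∀ r : κ → X, B.indicator (fun _ => (1 : ENNReal)) r ^ (2 : ℝ) =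
        B.indicator (fun _ => (1 : ENNReal)) r := by
      intro r
      by_cases hr : r ∈ B
      · rw [Set.indicator_of_mem hr, ENNReal.one_rpow]
      · rw [Set.indicator_of_notMem hr, ENNReal.zero_rpow_of_pos (by norm_num)]
    rw [lintegral_congr h3, lintegral_indicator hB, setLIntegral_one]
  · congr 1
    rw [← lint_pi μ (fun c x => D c x ^ (2 : ℝ)) (fun c => (hD c).pow_const _)]
    refine lintegral_congr fun r => ?_
    rw [← ENNReal.prod_rpow_of_nonneg (by norm_num)]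

end pi

end TL

open TL in
theorem st_Tilt : StTilt := by
  intro n A d τ B hn hd hτ hde hB
  have hn0 : (0 : ℝ) < n := by
    have : (4 : ℝ) ≤ n := by exact_mod_cast hn
    linarith
  have hn4 : (4 : ℝ) ≤ n := by exact_mod_cast hn
  have hτn : τ ^ 2 ≤ 1 / n := by
    have h1 : |τ| ^ 2 ≤ (1 / Real.sqrt n) ^ 2 := pow_le_pow_left₀ (abs_nonneg _) hτ 2
    rw [sq_abs, div_pow, Real.sq_sqrt hn0.le, one_pow] at h1
    exact h1
  have hτ4 : τ ^ 2 ≤ 1 / 4 :=
    hτn.trans (one_div_le_one_div_of_le (by norm_num) hn4)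
  have hτ1 : |τ| < 1 := by
    rw [← sq_lt_one_iff_abs_lt_one]
    linarith
  obtain ⟨P, hP⟩ : ∃ P : Rest n → Prop, (∀ k i, P (Sum.inl (k, i)) ↔ Adj A k i) ∧
      ∀ i, ¬ P (Sum.inr i) :=
    ⟨fun c => Sum.elim (fun p => Adj A p.1 p.2) (fun _ => False) c, fun k i => Iff.rfl,
      fun i h => h⟩
  have h1 : tlt A τ ⁻¹' B = (fun (r : Rest n → unitInterval) c =>
      (if P c then tT τ else id) (r c)) ⁻¹' B := by
    have : tlt A τ = (fun (r : Rest n → unitInterval) c => (if P c then tT τ else id) (r c)) := by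
      funext r c
      rcases c with ⟨k, i⟩ | i
      · by_cases h : Adj A k i
        · rw [if_pos ((hP.1 k i).2 h)]
          simp [tlt, h, tT]
        · rw [if_neg (fun h' => h ((hP.1 k i).1 h'))]
          simp [tlt, h]
      · rw [if_neg (hP.2 i)]
        rfl
    rw [this]
  have hkey := key_pi (volume : Measure unitInterval) (fun c : Rest n => if P c then tT τ else id)
    (fun c => by
      by_cases h : P c
      · rw [if_pos h]
        exact (tT_cont hτ1).measurable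
      · rw [if_neg h]
        exact measurable_id)
    (fun c => if P c then (fun v => ENNReal.ofReal (dD τ v)) else fun _ => 1)
    (fun c => by
      by_cases h : P c
      · rw [if_pos h]
        exact dD_meas τ
      · rw [if_neg h]
        exact measurable_const)
    (fun c => by
      by_cases h : P c
      · rw [if_pos h, if_pos h]
        exact map_tT hτ1
      · rw [if_neg h, if_neg h, Measure.map_id]
        exact withDensity_one.symm) B hB
  rw [← h1, ← volume_pi] at hkey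
  have hprod : ∏ c : Rest n, ∫⁻ x : unitInterval,
      (if P c then (fun v : unitInterval => ENNReal.ofReal (dD τ v)) else fun _ => 1) x ^ (2 : ℝ) ≤
      ENNReal.ofReal (1 + 2 * τ ^ 2) ^ de A := by
    have h2 : ∀ c : Rest n, ∫⁻ x : unitInterval,
        (if P c then (fun v : unitInterval => ENNReal.ofReal (dD τ v)) else fun _ => 1) x ^ (2 : ℝ)
        ≤ if P c then ENNReal.ofReal (1 + 2 * τ ^ 2) else 1 := by
      intro c
      by_cases h : P c
      · rw [if_pos h, if_pos h]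
        exact sq_int hτ1 hτ4
      · rw [if_neg h, if_neg h]
        simp
    refine (Finset.prod_le_prod' fun c _ => h2 c).trans (le_of_eq ?_)
    rw [Fintype.prod_sum_type, Fintype.prod_prod_type]
    have h3 : ∏ i : Fin n, (if P (Sum.inr i) then ENNReal.ofReal (1 + 2 * τ ^ 2) else 1) = 1 :=
      Finset.prod_eq_one fun i _ => by rw [if_neg (hP.2 i)]
    rw [h3, mul_one, de, ← Finset.prod_pow_eq_pow_sum]
    refine Finset.prod_congr rfl fun k _ => ?_
    rw [← Finset.prod_filter, Finset.prod_const]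
    congr 2
    ext i
    rw [Finset.mem_filter, mem_nb, hP.1]
    simp
  have hfin : ((volume : Measure (Rest n → unitInterval)) B) ^ (1 / 2 : ℝ) *
      (ENNReal.ofReal (1 + 2 * τ ^ 2) ^ de A) ^ (1 / 2 : ℝ) ≠ ⊤ := by
    refine ENNReal.mul_ne_top (ENNReal.rpow_ne_top_of_nonneg (by norm_num) (measure_ne_top _ _))
      (ENNReal.rpow_ne_top_of_nonneg (by norm_num) (ENNReal.pow_ne_top ENNReal.ofReal_ne_top))
  have hle := hkey.trans (mul_le_mul' le_rfl (ENNReal.rpow_le_rpow hprod (by norm_num)))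
  have hre := ENNReal.toReal_mono hfin hle
  rw [ENNReal.toReal_mul, ← ENNReal.toReal_rpow, ← ENNReal.toReal_rpow, ENNReal.toReal_pow,
    ENNReal.toReal_ofReal (by positivity), ← Real.sqrt_eq_rpow, ← Real.sqrt_eq_rpow] at hre
  refine hre.trans ?_
  rw [mul_comm]
  refine mul_le_mul_of_nonneg_right ?_ (Real.sqrt_nonneg _)
  rw [Real.sqrt_le_left (Real.exp_pos _).le, ← Real.exp_nat_mul]
  calc (1 + 2 * τ ^ 2) ^ de A ≤ Real.exp (2 * τ ^ 2) ^ de A := by
        refine pow_le_pow_left₀ (by positivity) ?_ _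
        have := Real.add_one_le_exp (2 * τ ^ 2)
        linarith
    _ = Real.exp ((de A : ℕ) * (2 * τ ^ 2)) := (Real.exp_nat_mul _ _).symm
    _ ≤ Real.exp ((2 : ℕ) * (2 * d)) := by
        refine Real.exp_le_exp.2 ?_
        push_cast
        calc (de A : ℝ) * (2 * τ ^ 2) ≤ (2 * d * n) * (2 * (1 / n)) := by
              refine mul_le_mul hde (by linarith) (by positivity) (by positivity)
          _ = 2 * (2 * d) := by field_simp

end

end Pool.Agent.Helper60.BP

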