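import Pool.Agent.Helper60.BP.St

/-! Module TiltAvg: averaging over tilts. -/

set_option autoImplicit false

namespace Pool.Agent.Helper60.BP

open MeasureTheory Finset Pool.Agent.Helper87.BP Pool.Agent.Helper42.BPX

noncomputable section

open Classical

lemma TiltAvg.card_lift (m : ℕ) (p : ℝ → Prop) :
    ((do let a ← range m
         pure (a : ℝ) : Finset ℝ).filter p).card
      = ((range m).filter (fun j : ℕ => p (j : ℝ))).card := by
  have h : (do let a ← range m
               pure (a : ℝ) : Finset ℝ) = (range m).image (fun j : ℕ => (j : ℝ)) := by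
    ext x
    simp [Finset.bind_def, Finset.mem_sup, eq_comm]
  rw [h, Finset.filter_image, Finset.card_image_of_injective _ Nat.cast_injective]

theorem st_TiltAvg (hg : StTiltG) (ht : StTilt) : StTiltAvg := by
  intro n A d J r0 B G hn hd hJ hde hB hG hcount0
  have hcount : ∀ r ∈ G, ((range (J + 1)).filter (fun j : ℕ =>
      tlt A ((j : ℝ) / (J * Real.sqrt n)) r ∈ B)).card ≤ r0 := by
    intro r hr
    have h := hcount0 r hr
    first
      | exact h
      | (rw [TiltAvg.card_lift (J + 1) (fun x : ℝ => tlt A (x / (J * Real.sqrt n)) r ∈ B)] at h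
         exact h)
  set μ : Measure (Rest n → unitInterval) := volume with hμ
  have hn0 : (5 : ℝ) ≤ n := by exact_mod_cast hn
  have hJ0 : (0 : ℝ) < J := by exact_mod_cast hJ
  have hs : 1 < Real.sqrt n := by
    rw [Real.lt_sqrt (by norm_num)]
    linarith
  have hs0 : 0 < Real.sqrt n := by linarith
  have hτle : ∀ j ∈ range (J + 1), |(j : ℝ) / (J * Real.sqrt n)| ≤ 1 / Real.sqrt n := by
    intro j hj
    rw [Finset.mem_range] at hj
    have hjJ : (j : ℝ) ≤ J := by exact_mod_cast Nat.lt_succ_iff.1 hj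
    rw [abs_of_nonneg (by positivity), div_le_div_iff₀ (by positivity) hs0, one_mul]
    exact mul_le_mul_of_nonneg_right hjJ hs0.le
  have hτlt : ∀ j ∈ range (J + 1), |(j : ℝ) / (J * Real.sqrt n)| < 1 := by
    intro j hj
    refine lt_of_le_of_lt (hτle j hj) ?_
    rw [div_lt_one hs0]
    exact hs
  set Bj : ℕ → Set (Rest n → unitInterval) :=
    fun j => tlt A ((j : ℝ) / (J * Real.sqrt n)) ⁻¹' B with hBj
  have hBm : ∀ j ∈ range (J + 1), MeasurableSet (Bj j) := fun j hj =>
    (hg n A _ (hτlt j hj)).1 hB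
  have hsum : ∑ j ∈ range (J + 1), μ.real (Bj j ∩ G) ≤ r0 := by
    have h1 : ∀ j ∈ range (J + 1), μ.real (Bj j ∩ G)
        = ∫ r, (Bj j ∩ G).indicator (1 : (Rest n → unitInterval) → ℝ) r ∂μ := by
      intro j hj
      rw [integral_indicator_one ((hBm j hj).inter hG)]
    have hint : ∀ j ∈ range (J + 1),
        Integrable ((Bj j ∩ G).indicator (1 : (Rest n → unitInterval) → ℝ)) μ := fun j hj =>
      (integrable_const (1 : ℝ)).indicator ((hBm j hj).inter hG)
    rw [Finset.sum_congr rfl h1, ← integral_finset_sum _ hint]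
    have h2 : ∫ _r : Rest n → unitInterval, (r0 : ℝ) ∂μ = r0 := by
      rw [integral_const, probReal_univ, one_smul]
    rw [← h2]
    have hI : Integrable (fun r : Rest n → unitInterval => ∑ j ∈ range (J + 1),
        (Bj j ∩ G).indicator (1 : (Rest n → unitInterval) → ℝ) r) μ :=
      integrable_finset_sum (range (J + 1)) hint
    refine integral_mono hI (integrable_const (r0 : ℝ)) ?_
    intro r
    show ∑ j ∈ range (J + 1), (Bj j ∩ G).indicator (1 : (Rest n → unitInterval) → ℝ) r ≤ (r0 : ℝ)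
    by_cases hr : r ∈ G
    · have h3 := hcount r hr
      have h4 : ∑ j ∈ range (J + 1), (Bj j ∩ G).indicator (1 : (Rest n → unitInterval) → ℝ) r
          = (((range (J + 1)).filter (fun j : ℕ =>
            tlt A ((j : ℝ) / (J * Real.sqrt n)) r ∈ B)).card : ℝ) := by
        rw [Finset.card_filter, Nat.cast_sum]
        apply Finset.sum_congr rfl
        intro j _
        by_cases hj : tlt A ((j : ℝ) / (J * Real.sqrt n)) r ∈ B
        · rw [Set.indicator_of_mem (show r ∈ Bj j ∩ G from ⟨hj, hr⟩), if_pos hj]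
          simp
        · rw [Set.indicator_of_notMem (fun h : r ∈ Bj j ∩ G => hj h.1), if_neg hj]
          simp
      rw [h4]
      exact_mod_cast h3
    · have h4 : ∑ j ∈ range (J + 1), (Bj j ∩ G).indicator (1 : (Rest n → unitInterval) → ℝ) r
          = 0 := by
        refine Finset.sum_eq_zero fun j _ => ?_
        exact Set.indicator_of_notMem (fun h : r ∈ Bj j ∩ G => hr h.2) _
      rw [h4]
      positivity
  have hex : ∃ j ∈ range (J + 1), μ.real (Bj j ∩ G) ≤ (r0 : ℝ) / (J + 1) := by
    by_contra hcon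
    push Not at hcon
    have h5 : ∑ _j ∈ range (J + 1), (r0 : ℝ) / (J + 1)
        < ∑ j ∈ range (J + 1), μ.real (Bj j ∩ G) :=
      Finset.sum_lt_sum_of_nonempty ⟨0, by simp⟩ hcon
    rw [Finset.sum_const, Finset.card_range, nsmul_eq_mul] at h5
    have h6 : ((J + 1 : ℕ) : ℝ) * ((r0 : ℝ) / (J + 1)) = r0 := by
      push_cast
      field_simp
    rw [h6] at h5
    linarith
  obtain ⟨j, hj, hjle⟩ := hex
  obtain ⟨-, hinv, -, -⟩ := hg n A _ (hτlt j hj)
  have hBeq : tlt A (-((j : ℝ) / (J * Real.sqrt n))) ⁻¹' (Bj j) = B := by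
    ext r
    simp only [hBj, Set.mem_preimage]
    rw [hinv r]
  have h7 := ht n A d (-((j : ℝ) / (J * Real.sqrt n))) (Bj j) (by omega) hd
    (by rw [abs_neg]; exact hτle j hj) hde (hBm j hj)
  rw [hBeq] at h7
  refine h7.trans ?_
  refine mul_le_mul_of_nonneg_left (Real.sqrt_le_sqrt ?_) (Real.exp_pos _).le
  have h8 : μ.real (Bj j ∩ G) + μ.real (Bj j \ G) = μ.real (Bj j) :=
    measureReal_inter_add_diff hG (measure_ne_top _ _)
  have h9 : μ.real (Bj j \ G) ≤ μ.real Gᶜ :=
    measureReal_mono (fun r hr => hr.2) (measure_ne_top _ _)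
  rw [← h8]
  exact add_le_add hjle h9

end

end Pool.Agent.Helper60.BP
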