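import Pool.Agent.Helper60.BP.St

/-! Module TiltG: algebra and measurability of the tilt maps. -/

set_option autoImplicit false

namespace Pool.Agent.Helper60.BP

open MeasureTheory Finset Pool.Agent.Helper87.BP Pool.Agent.Helper42.BPX

noncomputable section

open Classical

namespace TiltG

lemma den_pos {τ h : ℝ} (hτ : |τ| < 1) (hh : |h| ≤ 1) : 0 < 1 + τ * h := by
  have h1 : |τ * h| < 1 := by
    rw [abs_mul]
    calc |τ| * |h| ≤ |τ| * 1 := mul_le_mul_of_nonneg_left hh (abs_nonneg _)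
      _ < 1 := by rw [mul_one]; exact hτ
  have := (abs_lt.1 h1).1
  linarith

lemma phi_abs {τ h : ℝ} (hτ : |τ| < 1) (hh : |h| ≤ 1) : |phi τ h| ≤ 1 := by
  have hd := den_pos hτ hh
  have t1 := abs_lt.1 hτ
  have t2 := abs_le.1 hh
  unfold phi
  rw [abs_le]
  constructor
  · rw [le_div_iff₀ hd]
    nlinarith [mul_nonneg (by linarith [t1.1] : (0 : ℝ) ≤ 1 + τ)
      (by linarith [t2.1] : (0 : ℝ) ≤ 1 + h)]
  · rw [div_le_iff₀ hd]
    nlinarith [mul_nonneg (by linarith [t1.2] : (0 : ℝ) ≤ 1 - τ)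
      (by linarith [t2.2] : (0 : ℝ) ≤ 1 - h)]

lemma phi_phi {τ h : ℝ} (hτ : |τ| < 1) (hh : |h| ≤ 1) : phi τ (phi (-τ) h) = h := by
  have hτ' : |-τ| < 1 := by rwa [abs_neg]
  have hd := den_pos hτ' hh
  have hd2 := den_pos hτ (phi_abs hτ' hh)
  have t1 := abs_lt.1 hτ
  have e : phi (-τ) h * (1 + -τ * h) = h + -τ := by
    unfold phi
    rw [div_mul_cancel₀ _ hd.ne']
  set y := phi (-τ) h with hy
  unfold phi
  rw [div_eq_iff hd2.ne']
  linear_combination e

lemma init_abs (x : unitInterval) : |2 * (x : ℝ) - 1| ≤ 1 := by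
  have h0 := x.2.1
  have h1 := x.2.2
  rw [abs_le]
  constructor <;> linarith

lemma coe_proj {x : ℝ} (h0 : 0 ≤ x) (h1 : x ≤ 1) :
    ((Set.projIcc (0 : ℝ) 1 zero_le_one x : unitInterval) : ℝ) = x := by
  rw [Set.projIcc_of_mem zero_le_one ⟨h0, h1⟩]

lemma coe_tl {τ : ℝ} (hτ : |τ| < 1) (x : unitInterval) :
    ((Set.projIcc (0 : ℝ) 1 zero_le_one ((phi τ (2 * (x : ℝ) - 1) + 1) / 2) : unitInterval) : ℝ)
      = (phi τ (2 * (x : ℝ) - 1) + 1) / 2 := by
  have h := abs_le.1 (phi_abs hτ (init_abs x))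
  exact coe_proj (by linarith [h.1]) (by linarith [h.2])

end TiltG

theorem st_TiltG : StTiltG := by
  intro n A τ hτ
  refine ⟨?_, ?_, ?_, ?_⟩
  · rw [measurable_pi_iff]
    rintro (⟨k, i⟩ | i)
    · by_cases hA : Adj A k i
      · simp only [tlt, if_pos hA]
        refine continuous_projIcc.measurable.comp ?_
        have hm : Measurable (fun r : Rest n → unitInterval => (r (Sum.inl (k, i)) : ℝ)) :=
          measurable_coordR (Sum.inl (k, i))
        unfold phi
        exact ((((hm.const_mul 2).sub_const 1).add_const τ).div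
          (((((hm.const_mul 2).sub_const 1).const_mul τ).const_add 1))).add_const 1 |>.div_const 2
      · simp only [tlt, if_neg hA]
        exact measurable_pi_apply _
    · simp only [tlt]
      exact measurable_pi_apply _
  · intro r
    funext c
    rcases c with ⟨k, i⟩ | i
    · by_cases hA : Adj A k i
      · simp only [tlt, if_pos hA]
        have hτ' : |-τ| < 1 := by rwa [abs_neg]
        apply Subtype.ext
        rw [TiltG.coe_tl hτ, TiltG.coe_tl hτ']
        have e : 2 * ((phi (-τ) (2 * ((r (Sum.inl (k, i)) : unitInterval) : ℝ) - 1) + 1) / 2) - 1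
            = phi (-τ) (2 * ((r (Sum.inl (k, i)) : unitInterval) : ℝ) - 1) := by ring
        rw [e, TiltG.phi_phi hτ (TiltG.init_abs _)]
        ring
      · simp only [tlt, if_neg hA]
    · simp only [tlt]
  · intro r k i
    unfold initR htl
    by_cases hA : Adj A k i
    · simp only [tlt, if_pos hA]
      rw [TiltG.coe_tl hτ]
      ring
    · simp only [tlt, if_neg hA]
  · intro r i
    rfl

end

end Pool.Agent.Helper60.BP
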