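import Pool.Agent.Helper60.BP.StAsm

/-! BPB module Ts: the saturation time. -/

set_option autoImplicit false

namespace Pool.Agent.Helper60.BP

open MeasureTheory Finset Pool.Agent.Helper87.BP Pool.Agent.Helper42.BPX

open Classical

theorem st_Ts : StTs := by
  intro d θ K Rc hP
  have hθ := hP.θpos
  have hd : (0 : ℝ) < d := lt_of_lt_of_le (by norm_num) hP.dbig
  have hlam : 4 ≤ lam d θ Rc := hP.hlam4
  have hlam0 : 0 < lam d θ Rc := by linarith
  have hlam1 : 1 < lam d θ Rc := by linarith
  have hc : 0 < cD0 d θ (Real.artanh θ) := by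
    unfold cD0
    have h1 := Real.cosh_pos (32 * d * Real.artanh θ + Real.artanh θ)
    have h2 := Real.cosh_pos 1
    positivity
  refine ⟨max 1 (2 * |Real.artanh θ| * lam d θ Rc / cD0 d θ (Real.artanh θ)),
    lt_of_lt_of_le one_pos (le_max_left _ _), ?_⟩
  intro n hn
  have hn1 : (1 : ℝ) ≤ n := by exact_mod_cast hn
  have hs1 : 1 ≤ Real.sqrt n := Real.one_le_sqrt.2 hn1
  have hs0 : 0 < Real.sqrt n := by linarith
  have hex : ∃ T : ℕ, 2 * |Real.artanh θ| * Real.sqrt n / cD0 d θ (Real.artanh θ) <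
      lam d θ Rc ^ T := pow_unbounded_of_one_lt _ hlam1
  refine ⟨Nat.find hex, ?_, ?_⟩
  · have h1 := Nat.find_spec hex
    rw [div_lt_iff₀ hc] at h1
    have h2 : 2 * Real.artanh θ ≤ 2 * |Real.artanh θ| := by
      have := le_abs_self (Real.artanh θ)
      linarith
    refine lt_of_le_of_lt h2 ?_
    rw [show cD0 d θ (Real.artanh θ) * (1 / Real.sqrt n) * lam d θ Rc ^ Nat.find hex =
      (lam d θ Rc ^ Nat.find hex * cD0 d θ (Real.artanh θ)) / Real.sqrt n by ring,
      lt_div_iff₀ hs0]
    exact h1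
  · rcases Nat.eq_zero_or_pos (Nat.find hex) with h0 | h0
    · rw [h0, pow_zero]
      calc (1 : ℝ) = 1 * 1 := by norm_num
        _ ≤ _ := mul_le_mul (le_max_left _ _) hs1 (by norm_num)
            (le_trans (by norm_num) (le_max_left _ _))
    · have h1 := Nat.find_min hex (m := Nat.find hex - 1) (by omega)
      rw [not_lt] at h1
      have h2 : lam d θ Rc ^ Nat.find hex =
          lam d θ Rc ^ (Nat.find hex - 1) * lam d θ Rc := by
        rw [← pow_succ]
        congr 1
        omega
      rw [h2]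
      calc lam d θ Rc ^ (Nat.find hex - 1) * lam d θ Rc
          ≤ 2 * |Real.artanh θ| * Real.sqrt n / cD0 d θ (Real.artanh θ) * lam d θ Rc :=
            mul_le_mul_of_nonneg_right h1 hlam0.le
        _ = 2 * |Real.artanh θ| * lam d θ Rc / cD0 d θ (Real.artanh θ) * Real.sqrt n := by ring
        _ ≤ _ := mul_le_mul_of_nonneg_right (le_max_right _ _) hs0.le

end Pool.Agent.Helper60.BP
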