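import Pool.Agent.Helper60.BP.StAsm

set_option autoImplicit false

namespace Pool.Agent.Helper60.BP

open MeasureTheory Finset Pool.Agent.Helper87.BP Pool.Agent.Helper42.BPX

noncomputable section

open Classical

lemma htl_zero {n : ℕ} (A : Finset (Sym2 (Fin n))) (h0 : Fin n → Fin n → ℝ) :
    htl A 0 h0 = h0 := by
  funext k i
  unfold htl phi
  split_ifs
  · simp
  · rfl

lemma abs_initR_le {n : ℕ} (r : Rest n → unitInterval) (k i : Fin n) : |initR r k i| ≤ 1 := by
  unfold initR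
  have h0 := (r (Sum.inl (k, i))).2.1
  have h1 := (r (Sum.inl (k, i))).2.2
  rw [abs_le]
  constructor <;> linarith

lemma one_div_sqrt_lt {n : ℕ} (hn : 5 ≤ n) : 1 / Real.sqrt n < 1 := by
  have h5 : (5 : ℝ) ≤ n := by exact_mod_cast hn
  have h1 : 1 < Real.sqrt n := by
    rw [Real.lt_sqrt (by norm_num)]
    linarith
  rw [div_lt_one (by linarith)]
  exact h1

theorem st_Tv (hd : StDich) (hp : StDichP) (hg : StTiltG) (hm : StMeas) (hD : StDisc) :
    StTv := by
  intro n A σ f d θ K Rc vt T hn hctx hHS hT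
  have hfp := hctx.fp
  have hpar := hctx.par
  have hd0 : 0 < d := lt_of_lt_of_le (by norm_num) hpar.dbig
  have hvt : |vt| ≤ 1 / 100 := hctx.hvt.trans hpar.θle
  have hde := (hD n A σ d vt hpar.dbig hvt hctx.disc).1
  have hmeas := hm n A σ f T hfp.meas
  have hmU := hmeas.2.1 d K (Real.artanh θ)
  have hmG := hmeas.2.2.2.1 d
  have hs0 : 0 ≤ 1 / Real.sqrt n := by positivity
  have hs1 := one_div_sqrt_lt hn
  have hcompl : {x : Rest n → unitInterval | HS A (initR x) d}ᶜ
      = {x : Rest n → unitInterval | ¬ HS A (initR x) d} := rfl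
  refine hp n A d _ _ hn hd0 hde hmU hmG ?_ (by rw [hcompl]; exact hHS)
  rintro x hxG ⟨hxU, hxU'⟩
  simp only [Set.mem_setOf_eq] at hxG hxU hxU'
  have hτ : initR (tlt A (1 / Real.sqrt n) x) = htl A (1 / Real.sqrt n) (initR x) := by
    funext k i
    exact (hg n A (1 / Real.sqrt n) (by rw [abs_of_nonneg hs0]; exact hs1)).2.2.1 x k i
  rw [hτ] at hxU'
  have h0 := hd n A σ f d θ K Rc vt (initR x) 0 (1 / Real.sqrt n) T (by omega) hctx
    (abs_initR_le x) hxG le_rfl hs0 hs1 (by rw [htl_zero]; exact hxU) hxU'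
  rw [sub_zero] at h0
  linarith

end

end Pool.Agent.Helper60.BP
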