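import Pool.Agent.Helper60.BP.St

set_option autoImplicit false

namespace Pool.Agent.Helper60.BP

open MeasureTheory Finset Pool.Agent.Helper87.BP Pool.Agent.Helper42.BPX

open Classical

variable {n : ℕ}

lemma msg_fd_U (f : ℝ → ℝ) (A : Finset (Sym2 (Fin n))) (h0 : Fin n → Fin n → ℝ) (s : ℕ)
    {k i : Fin n} (h : Adj A i k) :
    msg f (Adj A) h0 (s + 1) k i = fd f A h0 s k - f (msg f (Adj A) h0 s i k) := by
  rw [msg_succ]
  unfold fd
  rw [field_eq, ← Finset.sum_erase_add _ _ (mem_nb.2 h.symm)]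
  ring

lemma lip_U {f : ℝ → ℝ} {θ L : ℝ} (hf : FP f θ L) (x y : ℝ) : |f x - f y| ≤ θ * |x - y| := by
  rcases le_total x y with h | h
  · have h1 := hf.lip x y h
    have h2 := hf.mono.monotone h
    rw [abs_of_nonpos (by linarith), abs_of_nonpos (by linarith : x - y ≤ 0)]
    linarith
  · have h1 := hf.lip y x h
    have h2 := hf.mono.monotone h
    rw [abs_of_nonneg (by linarith), abs_of_nonneg (by linarith : 0 ≤ x - y)]
    linarith

lemma fd_close_U {f : ℝ → ℝ} {θ L : ℝ} (hf : FP f θ L) (A : Finset (Sym2 (Fin n)))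
    (h0 : Fin n → Fin n → ℝ) (s : ℕ) {k i : Fin n} (h : Adj A i k) :
    |f (msg f (Adj A) h0 (s + 1) k i) - f (fd f A h0 s k)| ≤ θ * L := by
  refine (lip_U hf _ _).trans ?_
  rw [msg_fd_U f A h0 s h]
  have h1 := (hf.bdd (msg f (Adj A) h0 s i k)).le
  have h2 : |fd f A h0 s k - f (msg f (Adj A) h0 s i k) - fd f A h0 s k|
      = |f (msg f (Adj A) h0 s i k)| := by
    rw [← abs_neg]
    congr 1
    ring
  rw [h2]
  exact mul_le_mul_of_nonneg_left h1 hf.θpos.le

lemma key_U (hD : StDisc) {f : ℝ → ℝ} {A : Finset (Sym2 (Fin n))} {σ : Fin n → Bool}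
    {d θ K Rc vt : ℝ} (h0 : Fin n → Fin n → ℝ) (s : ℕ) (hc : Ctx f A σ d θ K Rc vt)
    (x : Fin n → ℝ) (hx : ∀ i, |x i| ≤ 1) :
    |∑ i, x i * fd f A h0 (s + 1) i - d / n * ((∑ i, x i) * ∑ k, f (fd f A h0 s k))|
      ≤ d * θ * Real.artanh θ * (∑ i, |x i|) + 9 * Real.sqrt d * Real.artanh θ * n
        + 2 * θ * d * Real.artanh θ * n := by
  set L := Real.artanh θ with hL
  have hθ := hc.fp.θpos
  have hLp : 0 < L := lt_of_lt_of_le hθ hc.fp.Lge
  have hd : 0 < d := lt_of_lt_of_le (by norm_num) hc.par.dbig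
  have hn0 : (0 : ℝ) ≤ n := Nat.cast_nonneg n
  obtain ⟨hde, -, -⟩ := hD n A σ d vt hc.par.dbig (hc.hvt.trans hc.fp.θle) hc.disc
  have e1 : ∑ i, x i * fd f A h0 (s + 1) i
      = ∑ i, ∑ k ∈ nb A i, x i * f (msg f (Adj A) h0 (s + 1) k i) := by
    refine Finset.sum_congr rfl fun i _ => ?_
    unfold fd
    rw [field_eq, Finset.mul_sum]
  have e2 : ∑ i, ∑ k, (if Adj A i k then x i * f (fd f A h0 s k) else 0)
      = ∑ i, ∑ k ∈ nb A i, x i * f (fd f A h0 s k) := by
    refine Finset.sum_congr rfl fun i _ => ?_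
    rw [← Finset.sum_filter]
    rfl
  have h1 : |∑ i, x i * fd f A h0 (s + 1) i
      - ∑ i, ∑ k, (if Adj A i k then x i * f (fd f A h0 s k) else 0)| ≤ 2 * θ * d * L * n := by
    rw [e1, e2, ← Finset.sum_sub_distrib]
    refine (Finset.abs_sum_le_sum_abs _ _).trans ?_
    have h2 : ∀ i : Fin n, |∑ k ∈ nb A i, x i * f (msg f (Adj A) h0 (s + 1) k i)
        - ∑ k ∈ nb A i, x i * f (fd f A h0 s k)| ≤ ((nb A i).card : ℝ) * (θ * L) := by
      intro i
      rw [← Finset.sum_sub_distrib]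
      refine (Finset.abs_sum_le_sum_abs _ _).trans ?_
      rw [← nsmul_eq_mul]
      refine Finset.sum_le_card_nsmul _ _ _ fun k hk => ?_
      rw [← mul_sub, abs_mul]
      have h3 := fd_close_U hc.fp A h0 s (mem_nb.1 hk)
      calc |x i| * |f (msg f (Adj A) h0 (s + 1) k i) - f (fd f A h0 s k)|
          ≤ 1 * (θ * L) := mul_le_mul (hx i) h3 (abs_nonneg _) zero_le_one
        _ = θ * L := one_mul _
    refine (Finset.sum_le_sum fun i _ => h2 i).trans ?_
    rw [← Finset.sum_mul]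
    have h4 : ∑ i, ((nb A i).card : ℝ) = (de A : ℝ) := by
      unfold de
      push_cast
      rfl
    rw [h4]
    calc (de A : ℝ) * (θ * L) ≤ (2 * d * n) * (θ * L) :=
          mul_le_mul_of_nonneg_right hde (by positivity)
      _ = 2 * θ * d * L * n := by ring
  have hy : ∀ i, |f (fd f A h0 s i) / L| ≤ 1 := by
    intro i
    rw [abs_div, abs_of_pos hLp, div_le_one hLp]
    exact (hc.fp.bdd _).le
  have h5 := hc.disc x (fun k => f (fd f A h0 s k) / L) hx hy
  have e3 : ∑ i, ∑ k, (if Adj A i k then x i * f (fd f A h0 s k) else 0)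
      = L * ∑ i, ∑ k, (if Adj A i k then x i * (f (fd f A h0 s k) / L) else 0) := by
    rw [Finset.mul_sum]
    refine Finset.sum_congr rfl fun i _ => ?_
    rw [Finset.mul_sum]
    refine Finset.sum_congr rfl fun k _ => ?_
    split_ifs
    · field_simp
    · simp
  have e4 : ∑ k, f (fd f A h0 s k) = L * ∑ k, f (fd f A h0 s k) / L := by
    rw [Finset.mul_sum]
    refine Finset.sum_congr rfl fun k _ => ?_
    field_simp
  set T := ∑ i, ∑ k, (if Adj A i k then x i * (f (fd f A h0 s k) / L) else 0) with hT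
  set Y := ∑ k, f (fd f A h0 s k) / L with hY
  set X := ∑ i, x i with hX
  set V := d * vt / n * ((∑ i, lab σ i * x i) * ∑ k, lab σ k * (f (fd f A h0 s k) / L)) with hV
  have hlab : ∀ i : Fin n, |lab σ i| = 1 := by
    intro i; unfold lab; split_ifs <;> simp
  have hVb : |V| ≤ d * θ * ∑ i, |x i| := by
    rw [hV, abs_mul, abs_mul, abs_div, abs_mul, abs_of_pos hd, abs_of_nonneg hn0]
    have a1 : |∑ i, lab σ i * x i| ≤ ∑ i, |x i| := by
      refine (Finset.abs_sum_le_sum_abs _ _).trans (le_of_eq ?_)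
      refine Finset.sum_congr rfl fun i _ => ?_
      rw [abs_mul, hlab, one_mul]
    have a2 : |∑ k, lab σ k * (f (fd f A h0 s k) / L)| ≤ n := by
      refine (Finset.abs_sum_le_sum_abs _ _).trans ?_
      refine (Finset.sum_le_card_nsmul _ _ 1 fun k _ => ?_).trans ?_
      · rw [abs_mul, hlab, one_mul]; exact hy k
      · simp
    have a0 : 0 ≤ ∑ i, |x i| := Finset.sum_nonneg fun i _ => abs_nonneg _
    have a3 : |∑ i, lab σ i * x i| * |∑ k, lab σ k * (f (fd f A h0 s k) / L)|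
        ≤ (∑ i, |x i|) * n := mul_le_mul a1 a2 (abs_nonneg _) a0
    have a4 : d * |vt| / n ≤ d * θ / n := by
      gcongr
      exact hc.hvt
    calc d * |vt| / n * (|∑ i, lab σ i * x i| * |∑ k, lab σ k * (f (fd f A h0 s k) / L)|)
        ≤ d * θ / n * ((∑ i, |x i|) * n) :=
          mul_le_mul a4 a3 (mul_nonneg (abs_nonneg _) (abs_nonneg _)) (by positivity)
      _ = d * θ * (∑ i, |x i|) * (n / n) := by ring
      _ ≤ d * θ * (∑ i, |x i|) * 1 :=
          mul_le_mul_of_nonneg_left (div_self_le_one _) (by positivity)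
      _ = d * θ * ∑ i, |x i| := mul_one _
  rw [e3] at h1
  rw [e4]
  have h6 : |L * T - d / n * (X * (L * Y))| ≤ L * (9 * Real.sqrt d * n + d * θ * ∑ i, |x i|) := by
    have e5 : L * T - d / n * (X * (L * Y)) = L * ((T - d / n * (X * Y) - V) + V) := by ring
    rw [e5, abs_mul, abs_of_pos hLp]
    refine mul_le_mul_of_nonneg_left ?_ hLp.le
    exact (abs_add_le _ _).trans (add_le_add h5 hVb)
  have h7 := abs_add_le (∑ i, x i * fd f A h0 (s + 1) i - L * T) (L * T - d / n * (X * (L * Y)))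
  have e6 : ∑ i, x i * fd f A h0 (s + 1) i - L * T + (L * T - d / n * (X * (L * Y)))
      = ∑ i, x i * fd f A h0 (s + 1) i - d / n * (X * (L * Y)) := by ring
  rw [e6] at h7
  refine h7.trans ((add_le_add h1 h6).trans (le_of_eq ?_))
  ring

theorem st_U (h : StDisc) : StU := by
  intro n A σ f d θ K Rc vt h0 s hc hu
  set L := Real.artanh θ with hL
  have hθ := hc.fp.θpos
  have hLp : 0 < L := lt_of_lt_of_le hθ hc.fp.Lge
  have hd : 0 < d := lt_of_lt_of_le (by norm_num) hc.par.dbig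
  have hn0 : (0 : ℝ) ≤ n := Nat.cast_nonneg n
  have hsd : 0 < Real.sqrt d := Real.sqrt_pos.2 hd
  have hR := hc.par.hR
  have hR1 : 0 < Rc := lt_of_lt_of_le one_pos hc.par.Rpos
  have hK := hc.par.Kpos
  set x : Fin n → ℝ := fun i => if 0 ≤ fd f A h0 (s + 1) i then 1 else -1 with hx
  have hxa : ∀ i, |x i| = 1 := by
    intro i; simp only [hx]; split_ifs <;> simp
  have hxm : ∀ i, x i * fd f A h0 (s + 1) i = |fd f A h0 (s + 1) i| := by
    intro i; simp only [hx]; split_ifs with h1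
    · rw [one_mul, abs_of_nonneg h1]
    · rw [abs_of_neg (not_le.1 h1)]; ring
  have k1 := key_U h h0 s hc x (fun i => (hxa i).le)
  have e1 : ∑ i, |x i| = (n : ℝ) := by simp [hxa]
  rw [e1] at k1
  have k2 := (le_abs_self _).trans k1
  simp only [hxm] at k2
  have hX : |∑ i, x i| ≤ n := by
    refine (Finset.abs_sum_le_sum_abs _ _).trans (le_of_eq e1)
  have k3 : d / n * ((∑ i, x i) * ∑ k, f (fd f A h0 s k)) ≤ K * Real.sqrt d * L * n := by
    refine (le_abs_self _).trans ?_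
    rw [abs_mul, abs_mul, abs_of_nonneg (by positivity : (0 : ℝ) ≤ d / n)]
    calc d / n * (|∑ i, x i| * |∑ k, f (fd f A h0 s k)|)
        ≤ d / n * (n * (K * L * n / Real.sqrt d)) :=
          mul_le_mul_of_nonneg_left (mul_le_mul hX hu (abs_nonneg _) hn0) (by positivity)
      _ = (n / n) * (K * L * n * (d / Real.sqrt d)) := by ring
      _ ≤ 1 * (K * L * n * (d / Real.sqrt d)) :=
          mul_le_mul_of_nonneg_right (div_self_le_one _) (by positivity)
      _ = K * Real.sqrt d * L * n := by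
          rw [Real.div_sqrt]; ring
  have k4 : ∑ i, |fd f A h0 (s + 1) i|
      ≤ (K * Real.sqrt d * L + 3 * θ * d * L + 9 * Real.sqrt d * L) * n := by
    linarith
  have k5 : ((univ.filter (fun i => Rc < |fd f A h0 (s + 1) i|)).card : ℝ) * Rc
      ≤ ∑ i, |fd f A h0 (s + 1) i| := by
    rw [← nsmul_eq_mul]
    refine (Finset.card_nsmul_le_sum _ (fun i => |fd f A h0 (s + 1) i|) _ fun i hi => ?_).trans ?_
    · exact (mem_filter.1 hi).2.le
    · exact Finset.sum_le_sum_of_subset_of_nonneg (filter_subset _ _) fun i _ _ => abs_nonneg _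
  have k6 : (K * Real.sqrt d * L + 3 * θ * d * L + 9 * Real.sqrt d * L) * n ≤ Rc / 16 * n := by
    refine mul_le_mul_of_nonneg_right ?_ hn0
    linarith
  have k7 : ((univ.filter (fun i => Rc < |fd f A h0 (s + 1) i|)).card : ℝ) * Rc
      ≤ (n / 16) * Rc := by
    calc _ ≤ _ := k5.trans (k4.trans k6)
      _ = _ := by ring
  exact le_of_mul_le_mul_right k7 hR1

end Pool.Agent.Helper60.BP
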