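import Pool.Agent.Helper60.BPM.Tv

set_option autoImplicit false

namespace Pool.Agent.Helper60.BP

open MeasureTheory Finset Pool.Agent.Helper87.BP Pool.Agent.Helper42.BPX

noncomputable section

open Classical

theorem st_Uv (ha : StACc) (ht : StTiltAvg) (hg : StTiltG) (hm : StMeas) (hd : StDisc) :
    StUv := by
  intro ε hε
  obtain ⟨r0, ζ0, hζ0, hacc⟩ := ha ε hε
  refine ⟨r0, ζ0, hζ0, ?_⟩
  intro f d θ K Rc r j2 Δ ζ hj2 hΔ hζ hζ' hfp hpar
  obtain ⟨c, hc, hacc⟩ := hacc f d θ K Rc r j2 Δ ζ hj2 hΔ hζ hζ' hfp hpar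
  refine ⟨c, hc, ?_⟩
  intro n A σ vt J t hn hJ hctx hE hjt hbound
  have hd0 : 0 < d := lt_of_lt_of_le (by norm_num) hpar.dbig
  have hvt : |vt| ≤ 1 / 100 := hctx.hvt.trans hpar.θle
  have hde := (hd n A σ d vt hpar.dbig hvt hctx.disc).1
  have hmB := (hm n A σ f (t - j2) hfp.meas).2.1 d K (Real.artanh θ)
  have hmB' := (hm n A σ f t hfp.meas).2.2.1 (ε * n)
    (min (θ / Real.cosh 1 ^ 2) (c / (J * Real.sqrt n) * lam d θ Rc ^ (t - j2)))
  have hmG := (hm n A σ f t hfp.meas).2.2.2.1 d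
  obtain ⟨B, hB⟩ : ∃ B : Set (Rest n → unitInterval),
      B = {x | Uns f A (initR x) d K (Real.artanh θ) (t - j2) ∧ ε * n ≤ Nη f A (initR x) t
          (min (θ / Real.cosh 1 ^ 2) (c / (J * Real.sqrt n) * lam d θ Rc ^ (t - j2)))} := ⟨_, rfl⟩
  have hmB2 : MeasurableSet B := by rw [hB]; exact hmB.inter hmB'
  rw [← hB]
  refine ht n A d J r0 B {x | HS A (initR x) d} hn hd0 hJ hde hmB2 hmG ?_
  intro x hx
  have h1 := hacc n A σ vt (initR x) J t (by omega) hJ hctx hE (abs_initR_le x) hx hjt hbound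
  refine le_trans (card_le_card ?_) h1
  intro j hj'
  have hj := (mem_filter.1 hj').1
  have hjB := (mem_filter.1 hj').2
  refine mem_filter.2 ⟨hj, ?_⟩
  have hjJ0 : 0 ≤ j ∧ j ≤ J := by
    simp at hj
    obtain ⟨v, hv, rfl⟩ := hj
    exact ⟨by positivity, by exact_mod_cast hv⟩
  obtain ⟨hj0, hjJ⟩ := hjJ0
  have hJ' : (1 : ℝ) ≤ J := by exact_mod_cast hJ
  have hτ0 : 0 ≤ j / (J * Real.sqrt n) := by positivity
  have hs1 := one_div_sqrt_lt hn
  have hsq : 0 < Real.sqrt n := Real.sqrt_pos.2 (by exact_mod_cast (by omega : 0 < n))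
  have hτ1 : j / (J * Real.sqrt n) < 1 := by
    refine lt_of_le_of_lt ?_ hs1
    rw [div_le_div_iff₀ (by positivity) hsq, one_mul]
    exact mul_le_mul_of_nonneg_right hjJ hsq.le
  have hτ : initR (tlt A (j / (J * Real.sqrt n)) x)
      = htl A (j / (J * Real.sqrt n)) (initR x) := by
    funext k i
    exact (hg n A _ (by rw [abs_of_nonneg hτ0]; exact hτ1)).2.2.1 x k i
  have h2 : Uns f A (initR (tlt A (j / (J * Real.sqrt n)) x)) d K (Real.artanh θ) (t - j2) ∧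
      ε * n ≤ Nη f A (initR (tlt A (j / (J * Real.sqrt n)) x)) t
        (min (θ / Real.cosh 1 ^ 2) (c / (J * Real.sqrt n) * lam d θ Rc ^ (t - j2))) := by
    rw [hB] at hjB
    exact hjB
  rw [hτ] at h2
  exact h2

end

end Pool.Agent.Helper60.BP
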