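import Pool.Agent.Helper60.BP.St

/-!
# Few large sets with small pairwise intersections
-/

set_option autoImplicit false

namespace Pool.Agent.Helper60.BP

open MeasureTheory Finset Pool.Agent.Helper87.BP Pool.Agent.Helper42.BPX

noncomputable section

open Classical

namespace CountAux

/-- the indicator of a finset -/
def iS {n : ℕ} (T : Finset (Fin n)) (i : Fin n) : ℝ := if i ∈ T then 1 else 0

lemma sum_iS {n : ℕ} (T : Finset (Fin n)) : ∑ i, iS T i = (T.card : ℝ) := by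
  unfold iS
  rw [sum_boole]
  simp

lemma iS_mul {n : ℕ} (T T' : Finset (Fin n)) (i : Fin n) : iS T i * iS T' i = iS (T ∩ T') i := by
  unfold iS
  by_cases h : i ∈ T <;> by_cases h' : i ∈ T' <;> simp [h, h']

end CountAux

open CountAux in
theorem st_Count : StCount := by
  intro ε hε
  refine ⟨⌈2 / ε ^ 2⌉₊, ε ^ 2 / 2, by positivity, ?_⟩
  intro n S Q hn hS hSS
  have hn' : (0 : ℝ) < n := by exact_mod_cast hn
  set k : ℝ := (Q.card : ℝ) with hk
  have hk0 : 0 ≤ k := by positivity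
  -- first moment
  have h1 : ∑ i, ∑ j ∈ Q, iS (S j) i = ∑ j ∈ Q, ((S j).card : ℝ) := by
    rw [sum_comm]
    exact sum_congr rfl (fun j _ => sum_iS _)
  have h2 : k * (ε * n) ≤ ∑ i, ∑ j ∈ Q, iS (S j) i := by
    rw [h1, hk, ← nsmul_eq_mul]
    exact card_nsmul_le_sum _ _ _ hS
  -- second moment
  have h3 : ∑ i, (∑ j ∈ Q, iS (S j) i) ^ 2 = ∑ j ∈ Q, ∑ j' ∈ Q, (((S j) ∩ (S j')).card : ℝ) := by
    have e : ∀ i : Fin n, (∑ j ∈ Q, iS (S j) i) ^ 2
        = ∑ j ∈ Q, ∑ j' ∈ Q, iS (S j ∩ S j') i := by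
      intro i
      rw [sq, sum_mul_sum]
      exact sum_congr rfl (fun j _ => sum_congr rfl (fun j' _ => iS_mul _ _ _))
    simp_rw [e]
    rw [sum_comm]
    refine sum_congr rfl (fun j _ => ?_)
    rw [sum_comm]
    exact sum_congr rfl (fun j' _ => sum_iS _)
  have h4 : ∑ j ∈ Q, ∑ j' ∈ Q, (((S j) ∩ (S j')).card : ℝ)
      ≤ ∑ j ∈ Q, ∑ j' ∈ Q, ((if j = j' then (n : ℝ) else 0) + ε ^ 2 / 2 * n) := by
    refine sum_le_sum (fun j hj => sum_le_sum (fun j' hj' => ?_))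
    by_cases e : j = j'
    · rw [if_pos e]
      have : ((S j ∩ S j').card : ℝ) ≤ n := by
        have := card_le_univ (S j ∩ S j')
        rw [Fintype.card_fin] at this
        exact_mod_cast this
      have h5 : 0 ≤ ε ^ 2 / 2 * n := by positivity
      linarith
    · rw [if_neg e, zero_add]
      rcases lt_or_gt_of_ne e with h | h
      · exact hSS j hj j' hj' h
      · rw [inter_comm]
        exact hSS j' hj' j hj h
  have h5 : ∑ j ∈ Q, ∑ j' ∈ Q, ((if j = j' then (n : ℝ) else 0) + ε ^ 2 / 2 * n)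
      = k * n + k * (k * (ε ^ 2 / 2 * n)) := by
    simp_rw [sum_add_distrib, sum_const, nsmul_eq_mul, ← hk]
    congr 1
    rw [hk, ← nsmul_eq_mul, ← sum_const]
    refine sum_congr rfl (fun j hj => ?_)
    rw [sum_ite_eq, if_pos hj]
  have h6 := sq_sum_le_card_mul_sum_sq (s := (univ : Finset (Fin n)))
    (f := fun i => ∑ j ∈ Q, iS (S j) i)
  rw [card_univ, Fintype.card_fin] at h6
  have h7 : (k * (ε * n)) ^ 2 ≤ n * (k * n + k * (k * (ε ^ 2 / 2 * n))) := by
    calc (k * (ε * n)) ^ 2 ≤ (∑ i, ∑ j ∈ Q, iS (S j) i) ^ 2 :=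
          pow_le_pow_left₀ (by positivity) h2 2
      _ ≤ n * ∑ i, (∑ j ∈ Q, iS (S j) i) ^ 2 := h6
      _ ≤ n * (k * n + k * (k * (ε ^ 2 / 2 * n))) := by
          refine mul_le_mul_of_nonneg_left ?_ hn'.le
          rw [h3, ← h5]; exact h4
  have h8 : n ^ 2 * (k * (k * ε ^ 2)) ≤ (n : ℝ) ^ 2 * (k * 2) := by nlinarith
  have h9 : k * (k * ε ^ 2) ≤ k * 2 := le_of_mul_le_mul_left h8 (by positivity)
  have h10 : k ≤ 2 / ε ^ 2 := by
    rcases hk0.eq_or_lt with h | h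
    · rw [← h]; positivity
    · rw [le_div_iff₀ (by positivity)]
      exact le_of_mul_le_mul_left h9 h
  have h11 : (Q.card : ℝ) ≤ (⌈2 / ε ^ 2⌉₊ : ℝ) := h10.trans (Nat.le_ceil _)
  exact_mod_cast h11

end

end Pool.Agent.Helper60.BP
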