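import Pool.Agent.Helper60.BP.St

set_option autoImplicit false

/-!
# `succProb` in terms of the finite expectation over the graph
-/

namespace Pool.Agent.Helper60.BP

open MeasureTheory Finset Pool.Agent.Helper87.BP Pool.Agent.Helper42.BPX

noncomputable section

open Classical

/-- the graph read off the edge variables -/
lemma adj_Link {n : ℕ} (a b : ℝ) (σ : Fin n → Bool) (e : Sym2 (Fin n) → unitInterval)
    (r : Rest n → unitInterval) :
    adj a b σ ((MeasurableEquiv.sumPiEquivProdPi (fun _ : Idx n => unitInterval)).symm (e, r))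
      = Adj (pres (pe n a b σ) (prs n) e) := by
  funext i j
  apply propext
  have h : adj a b σ ((MeasurableEquiv.sumPiEquivProdPi (fun _ : Idx n => unitInterval)).symm (e, r))
      = adjE a b σ e := rfl
  rw [h]
  unfold adjE Adj pres
  rw [mem_filter, mem_prs]
  constructor
  · rintro ⟨h1, h2⟩
    exact ⟨h1, h1, h2⟩
  · rintro ⟨h1, _, h2⟩
    exact ⟨h1, h2⟩

/-- the event that the random subset is `A` is measurable -/
lemma meas_pres_Link {κ : Type} [Fintype κ] (p : κ → ℝ) (S A : Finset κ) :
    MeasurableSet {ω : κ → unitInterval | pres p S ω = A} := by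
  have : {ω : κ → unitInterval | pres p S ω = A}
      = ⋂ x : κ, {ω | (x ∈ pres p S ω ↔ x ∈ A)} := by
    ext ω
    simp only [Set.mem_ofPred_eq, Set.mem_iInter]
    exact ⟨fun h x => by rw [h], fun h => Finset.ext h⟩
  rw [this]
  refine MeasurableSet.iInter fun x => ?_
  have h2 : {ω : κ → unitInterval | (x ∈ pres p S ω ↔ x ∈ A)}
      = {ω | ((x ∈ S ∧ (ω x : ℝ) < p x) ↔ x ∈ A)} := by
    ext ω
    simp [pres]
  rw [h2]
  have hlt : MeasurableSet {ω : κ → unitInterval | (ω x : ℝ) < p x} :=
    measurableSet_lt (measurable_subtype_coe.comp (measurable_pi_apply x)) measurable_const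
  by_cases hxS : x ∈ S <;> by_cases hxA : x ∈ A
  · simpa [hxS, hxA] using hlt
  · have := hlt.compl
    simpa [hxS, hxA, Set.compl_ofPred] using this
  · simp [hxS, hxA]
  · simp [hxS, hxA]

/-- the law of the random subset, jointly with independent variables -/
lemma prod_Link {κ : Type} [Fintype κ] [DecidableEq κ] {Y : Type} [MeasurableSpace Y] (ν : Measure Y)
    [IsProbabilityMeasure ν] {p : κ → ℝ} {S : Finset κ} (h0 : ∀ x ∈ S, 0 ≤ p x)
    (h1 : ∀ x ∈ S, p x ≤ 1) (E : Finset κ → Set Y) (hm : ∀ A ⊆ S, MeasurableSet (E A)) :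
    ((volume : Measure (κ → unitInterval)).prod ν).real {z | z.2 ∈ E (pres p S z.1)}
      = EE p S (fun A => ν.real (E A)) := by
  have hU : {z : (κ → unitInterval) × Y | z.2 ∈ E (pres p S z.1)}
      = ⋃ A ∈ S.powerset, ({ω : κ → unitInterval | pres p S ω = A} ×ˢ E A) := by
    ext z
    simp only [Set.mem_ofPred_eq, Set.mem_iUnion, Set.mem_prod, exists_prop]
    constructor
    · intro h
      exact ⟨pres p S z.1, mem_powerset.2 (pres_subset p S z.1), rfl, h⟩
    · rintro ⟨A, _, hA, h⟩
      rw [hA]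
      exact h
  rw [hU, measureReal_biUnion_finset]
  · unfold EE
    refine Finset.sum_congr rfl fun A hA => ?_
    rw [mem_powerset] at hA
    rw [measureReal_prod_prod, vol_pres h0 h1 hA]
  · intro A _ B _ hAB
    rw [Function.onFun, Set.disjoint_left]
    rintro z ⟨h, _⟩ ⟨h', _⟩
    exact hAB (Eq.trans (Eq.symm h) h')
  · intro A hA
    exact (meas_pres_Link p S A).prod (hm A (mem_powerset.1 hA))

lemma pe_mem_Link {n : ℕ} {a b : ℝ} (σ : Fin n → Bool) (hb : 0 ≤ b) (hab : b ≤ a) (ha : a ≤ n)
    (hn : 0 < n) (x : Sym2 (Fin n)) : 0 ≤ pe n a b σ x ∧ pe n a b σ x ≤ 1 := by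
  have hnr : (0 : ℝ) < n := by exact_mod_cast hn
  induction x using Sym2.ind with
  | _ i j =>
    show 0 ≤ (if σ i = σ j then a / n else b / n) ∧ (if σ i = σ j then a / n else b / n) ≤ 1
    split_ifs
    · exact ⟨div_nonneg (hb.trans hab) hnr.le, (div_le_one hnr).2 ha⟩
    · exact ⟨div_nonneg hb hnr.le, (div_le_one hnr).2 (hab.trans ha)⟩

theorem st_Link (hm : StMeas) : StLink := by
  intro n t a b ε hb hab ha hn
  unfold succProb
  congr 1
  refine Finset.sum_congr rfl fun σ _ => ?_
  have hE : ∀ A : Finset (Sym2 (Fin n)), MeasurableSet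
      {r : Rest n → unitInterval | ε ≤ |ov (fBP ((a - b) / (a + b))) A σ t r|} := by
    intro A
    have h := (hm n A σ (fBP ((a - b) / (a + b))) t (measurable_fBP _)).2.2.2.2.2
    exact measurableSet_le measurable_const h.abs
  rw [← prod_Link (volume : Measure (Rest n → unitInterval))
    (fun x _ => (pe_mem_Link σ hb hab ha hn x).1) (fun x _ => (pe_mem_Link σ hb hab ha hn x).2)
    (fun A => {r : Rest n → unitInterval | ε ≤ |ov (fBP ((a - b) / (a + b))) A σ t r|})
    (fun A _ => hE A)]
  have hmp : MeasurePreserving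
      (MeasurableEquiv.sumPiEquivProdPi (fun _ : Idx n => unitInterval)).symm volume volume :=
    volume_measurePreserving_sumPiEquivProdPi_symm (fun _ : Idx n => unitInterval)
  have hEm : MeasurableSet {ω : Om n | ε ≤ |overlap a b t σ ω|} :=
    measurableSet_le measurable_const (measurable_overlap a b t σ).abs
  rw [← hmp.measureReal_preimage hEm.nullMeasurableSet, Measure.volume_eq_prod]
  congr 1
  ext z
  obtain ⟨e, r⟩ := z
  show ε ≤ |overlap a b t σ
      ((MeasurableEquiv.sumPiEquivProdPi (fun _ : Idx n => unitInterval)).symm (e, r))|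
    ↔ ε ≤ |ov (fBP ((a - b) / (a + b))) (pres (pe n a b σ) (prs n) e) σ t r|
  have h : overlap a b t σ
      ((MeasurableEquiv.sumPiEquivProdPi (fun _ : Idx n => unitInterval)).symm (e, r))
      = ov (fBP ((a - b) / (a + b))) (pres (pe n a b σ) (prs n) e) σ t r := by
    unfold overlap ov
    rw [adj_Link]
    rfl
  rw [h]

end

end Pool.Agent.Helper60.BP
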